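import Pool.Agent.Y69.TK.KDef

/-!
# The two parts of `colim K₁(R[H])`

The definitions of `K₁` and of `colim K₁(R[H])` are in `Pool.Agent.Y69.WhDef` (`K1`, `FinSub`) and
in `Pool.Agent.Y69.TK.KDef` (`GK1`, `sym`, `ColimK1`, `assembly`).
-/

open Matrix

namespace Pool.Agent.L7h58.SK

open Pool.Agent.Y69

noncomputable section

/-- The image of a homomorphism with finite source, as a finite subgroup. -/
def img {C G : Type} [Group C] [Group G] [Finite C] (φ : C →* G) : FJ.FinSub G :=
  ⟨φ.range, Finite.of_surjective _ φ.rangeRestrict_surjective⟩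

/-- For a homomorphism `φ : C → G` with `C` finite and an invertible matrix `M` over `R[C]`, the
class in `colim K₁(R[H])` of the subgroup `φ(C)` and of the image of `[M]` in `K₁(R[φ(C)])`. -/
def cls {R C G : Type} [CommRing R] [Group C] [Group G] [Finite C] (φ : C →* G) {n : ℕ}
    (M : (Matrix (Fin n) (Fin n) (MonoidAlgebra R C))ˣ) : FJK.ColimK1 R G :=
  QuotientAddGroup.mk (FJK.sym (img φ) (FJK.GK1.map φ.rangeRestrict (FJ.K1.mk M)))

/-- The subgroup of `colim K₁(R[H])` generated by the classes of the units of the group rings of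
the finite abelian groups. -/
def unitPart (R G : Type) [CommRing R] [Group G] : AddSubgroup (FJK.ColimK1 R G) :=
  AddSubgroup.closure {z | ∃ (C : Type) (_ : CommGroup C) (_ : Finite C) (φ : C →* G)
    (M : (Matrix (Fin 1) (Fin 1) (MonoidAlgebra R C))ˣ), z = cls φ M}

/-- The subgroup of `colim K₁(R[H])` generated by the classes of the matrices of determinant one
over the group rings of the finite cyclic groups. -/
def sk1Part (R G : Type) [CommRing R] [Group G] : AddSubgroup (FJK.ColimK1 R G) :=
  AddSubgroup.closure {z | ∃ (C : Type) (_ : CommGroup C) (_ : Finite C) (_ : IsCyclic C)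
    (φ : C →* G) (n : ℕ) (M : (Matrix (Fin n) (Fin n) (MonoidAlgebra R C))ˣ),
      (M : Matrix (Fin n) (Fin n) (MonoidAlgebra R C)).det = 1 ∧ z = cls φ M}

end

end Pool.Agent.L7h58.SK
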