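import Pool.Agent.L7h58.SK.KB

/-!
# The `p`-adic places
-/

namespace Pool.Agent.L7h58.SK

open H970SH H842 MonoidAlgebra Pool.Agent.Y69 Pool.Agent.Y69.Main
open Pool.Agent.Y69.Uni Pool.Agent.Y69.Tra Pool.Agent.Y69.Thy

noncomputable section

variable {A : Type} [CommRing A] {p : ℕ} [hp : Fact p.Prime] (j : A →+* ℤ_[p]) {E : ℕ}

/-- the place of a homomorphism to the `p`-adic integers -/
def plP1 (hodd : 2 < p) (hE : E ∣ p - 1) : Pl A E where
  Λ := Lam p
  b u := bb j u
  b_add hC u v := bb_add j (hC.trans hE) u v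
  b_map := by
    intro C D _ _ _ _ hD f hf u c
    funext n
    show PadicInt.toZModPow (n + 1) _ = PadicInt.toZModPow (n + 1) _
    rw [eta_umap j (((card_dvd_of_inj f hf).trans hD).trans hE) f u n, mapDomainRingHom_apply,
      mapDomain, coeff_ofCoeff, Finsupp.mapDomain_apply hf]
  b_map_not := by
    intro C D _ _ _ _ hD f hf u d hd
    funext n
    show PadicInt.toZModPow (n + 1) _ = 0
    rw [eta_umap j (((card_dvd_of_inj f hf).trans hD).trans hE) f u n, mapDomainRingHom_apply,
      mapDomain, coeff_ofCoeff, Finsupp.mapDomain_of_notMem_range _ _ hd, map_zero]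
  b_nrm := by
    intro C _ _ hC D _ _ u d
    funext n
    show PadicInt.toZModPow (n + 1) ((eta p n (mapRingHom D j (nrm A D
      ((u.toMul : (MonoidAlgebra A C)ˣ) : MonoidAlgebra A C)))).coeff d) = _
    rw [← nrm_map, eta_nrm D (pow_p (hC.trans hE)) (ju_mul j u.toMul)]
    rfl
  tr := by
    intro G _ h hh
    have h2 : Odd p := hp.out.odd_of_ne_two (by omega)
    obtain ⟨T, hT, -⟩ := exists_TK (A := ℤ_[p]) (RingHom.id _) h2 h hh
    refine ⟨T.comp (K1map (mapRingHom G j)), ?_, ?_⟩
    · intro C _ _ hC φ u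
      show T (K1map (mapRingHom G j) (cl (mapUnit (mapDomainRingHom A φ) (unit1 u.toMul)))) = _
      have h3 : K1map (mapRingHom G j) (cl (mapUnit (mapDomainRingHom A φ) (unit1 u.toMul))) =
          cl (mapUnit (mapDomainRingHom ℤ_[p] φ) (unit1 (um j C u).toMul)) := by
        rw [K1map_cl, map_unit1]
        rfl
      rw [h3, hT C (hC.trans hE) φ (um j C u)]
      refine Finset.sum_congr rfl fun c _ => ?_
      congr 1
      funext n
      show PadicInt.toZModPow (n + 1) ((eta p n (mapRingHom C (RingHom.id ℤ_[p])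
        (mapRingHom C j ((u.toMul : (MonoidAlgebra A C)ˣ) : MonoidAlgebra A C)))).coeff c) = _
      rw [← mapRingHom_cp, RingHom.id_comp]
      rfl
    · intro C _ _ φ n M hM
      show T (K1map (mapRingHom G j) (cl (mapUnit (mapDomainRingHom A φ) M))) = 0
      have : Finite (MaximalSpectrum ℤ_[p]) := by
        have : Subsingleton (MaximalSpectrum ℤ_[p]) := by
          constructor
          intro a b
          apply MaximalSpectrum.ext
          rw [IsLocalRing.eq_maximalIdeal a.isMaximal, IsLocalRing.eq_maximalIdeal b.isMaximal]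
        infer_instance
      rw [K1_det_one j φ n M hM, map_zero]

theorem s_P1 : S_P1 := by
  intro A _ p hp j E hodd hE
  refine ⟨plP1 j hodd hE, ?_⟩
  intro C _ _ hC u hu
  refine ⟨(p - 1) * p, Nat.mul_pos (Nat.sub_pos_of_lt hp.out.one_lt) hp.out.pos, ?_⟩
  exact pow_eq_one (pow_p (hC.trans hE)) (ju_mul j u)
    (fun n c => congrFun (congrFun hu c) n)

end

end Pool.Agent.L7h58.SK
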