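import Pool.Agent.L7h58.SK.KB

/-!
# The places with values in finitely generated fields of characteristic `p`
-/

open Matrix

namespace Pool.Agent.L7h58.SK

open H970SH H842 MonoidAlgebra Pool.Agent.Y69 Pool.Agent.Y69.Main Pool.Agent.Y69.TP

noncomputable section

/-- `blow` of a unit -/
theorem cl_blow_unit1 {S T : Type} [CommRing S] [CommRing T] {X : Type} [Fintype X]
    [DecidableEq X] (F : S →+* Matrix X X T) (u : Sˣ) :
    cl (blow F (unit1 u)) = cl (Units.map (F : S →* Matrix X X T) u) := by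
  apply cl_congr (Equiv.punitProd X)
  rintro ⟨⟨⟩, i⟩ ⟨⟨⟩, k⟩
  rw [blow_apply]
  rfl

theorem blow_nrm {K : Type} [CommRing K] {C : Type} [CommGroup C] [Finite C] (D : Subgroup C)
    [Fintype (C ⧸ D)] [DecidableEq (C ⧸ D)] [Finite (MaximalSpectrum (MonoidAlgebra K D))]
    (u : (MonoidAlgebra K C)ˣ) :
    K1blow (Tra.ps K D) (cl (unit1 u)) = cl (unit1 (Units.map (Tra.nrm K D) u)) := by
  rw [K1blow_cl, cl_blow_unit1, cl_dU_semilocal']
  rfl

variable {A : Type} [CommRing A] {p : ℕ} [hp : Fact p.Prime] {K : Type} [Field K] (j : A →+* K)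

variable (I : Inp p) (i : K →+* I.K')

theorem bb_umap {C D : Type} [CommGroup C] [CommGroup D] (f : C →* D)
    (hf : Function.Injective f) (u : Additive (MonoidAlgebra K C)ˣ) (c : C) :
    I.bb i (Thy.umap K f u) (f c) = I.bb i u c := by
  have h1 : cl (unit1 (Thy.umap K f u).toMul) =
      K1map (MonoidAlgebra.mapDomainRingHom K f) (cl (unit1 u.toMul)) := by
    rw [K1map_cl]
    rfl
  show I.TT i (dl_comm (f c)) (cl (unit1 (Thy.umap K f u).toMul)) =
    I.TT i (dl_comm c) (cl (unit1 u.toMul))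
  rw [h1, I.TT_map i f (dl_comm (f c)) (fun x y => by rw [mul_comm])]
  apply I.TT_congr
  funext x
  unfold dl
  by_cases hx : x = c
  · rw [if_pos hx, if_pos (congrArg f hx)]
  · rw [if_neg hx, if_neg (fun h => hx (hf h))]

/-- the class of the image as a sum -/
theorem bb_umap_sum {C D : Type} [CommGroup C] [Fintype C] [CommGroup D] (f : C →* D)
    (u : Additive (MonoidAlgebra K C)ˣ) (d : D) :
    I.bb i (Thy.umap K f u) d = ∑ c, I.bb i u c * ((dl d (f c) : ℤ) : I.Lam) := by
  have h1 : cl (unit1 (Thy.umap K f u).toMul) =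
      K1map (MonoidAlgebra.mapDomainRingHom K f) (cl (unit1 u.toMul)) := by
    rw [K1map_cl]
    rfl
  show I.TT i (dl_comm d) (cl (unit1 (Thy.umap K f u).toMul)) = _
  rw [h1, I.TT_map i f (dl_comm d) (fun x y => by rw [mul_comm]), I.TT_sum]
  rfl

/-- the place of a homomorphism to a finitely generated field of characteristic `p` -/
def plP2 (E : ℕ) : Pl A E where
  Λ := I.Lam
  b {C} _ u := I.bb i (um j C u)
  b_add _ u v := by rw [um_add, I.bb_add]
  b_map := by
    intro C D _ _ _ _ _ f hf u c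
    rw [um_umap]
    exact bb_umap I i f hf _ c
  b_map_not := by
    intro C D _ _ _ _ _ f hf u d hd
    have := Fintype.ofFinite C
    rw [um_umap, bb_umap_sum]
    refine Finset.sum_eq_zero fun c _ => ?_
    unfold dl
    rw [if_neg (fun h => hd ⟨c, h⟩), Int.cast_zero, mul_zero]
  b_nrm := by
    intro C _ _ _ D _ _ u d
    have hfin : Finite (MaximalSpectrum (MonoidAlgebra K D)) := s_B K D
    have h1 : um j D (Additive.ofMul (Units.map (Tra.nrm A D) u.toMul)) =
        Additive.ofMul (Units.map (Tra.nrm K D) (um j C u).toMul) := by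
      apply Additive.toMul.injective
      apply Units.ext
      exact (Tra.nrm_map A D j _).symm
    rw [h1]
    show I.TT i (dl_comm d) (cl (unit1 (Units.map (Tra.nrm K D) (um j C u).toMul))) =
      _ * I.TT i (dl_comm (d : C)) (cl (unit1 (um j C u).toMul))
    rw [← blow_nrm, I.TT_ps, nsmul_eq_mul]
  tr := by
    intro G _ h hh
    refine ⟨(I.TT i hh).comp (K1map (mapRingHom G j)), ?_, ?_⟩
    · intro C _ _ _ φ u
      have h1 : K1map (mapRingHom G j) (cl (mapUnit (mapDomainRingHom A φ) (unit1 u.toMul))) =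
          K1map (mapDomainRingHom K φ) (cl (unit1 (um j C u).toMul)) := by
        have h2 : cl (unit1 (um j C u).toMul) = K1map (mapRingHom C j) (cl (unit1 u.toMul)) := by
          rw [K1map_cl]
          rfl
        rw [h2, ← K1map_cl, K1map_comp, K1map_comp, TK.Dsc.mapRing_mapDomain]
      show I.TT i hh (K1map (mapRingHom G j) (cl (mapUnit (mapDomainRingHom A φ)
        (unit1 u.toMul)))) = _
      rw [h1, I.TT_map i φ hh (fun x y => by rw [map_mul, map_mul, hh]), I.TT_sum]
      rfl
    · intro C _ _ φ n M hM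
      show I.TT i hh (K1map (mapRingHom G j) (cl (mapUnit (mapDomainRingHom A φ) M))) = 0
      rw [K1_det_one j φ n M hM, map_zero]

theorem s_P2 : S_P2 := by
  intro A _ p hp K _ _ S hS j E hE
  -- the part of `E` prime to `p`
  obtain ⟨a0, E', hE', hEE⟩ := Nat.exists_eq_pow_mul_and_not_dvd (n := E) hE.ne' p hp.out.ne_one
  have hE'0 : 0 < E' := Nat.pos_of_ne_zero (by rintro rfl; exact hE' (dvd_zero p))
  have hEK : (E' : K) ≠ 0 := fun h => hE' ((CharP.cast_eq_zero_iff K p E').1 h)
  obtain ⟨I, i, ζ, hζ⟩ := exists_inp (p := p) K S hS hE'0 hEK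
  refine ⟨plP2 j I i E, ?_⟩
  intro C _ _ hC u hu
  have := Fintype.ofFinite C
  obtain ⟨φ, a, h1, h2⟩ := exists_proj p C
  let D := φ.range
  let w : (MonoidAlgebra K C)ˣ := (um j C (Additive.ofMul u)).toMul
  have hw : I.bb i (Additive.ofMul w) = 0 := hu
  let w' : Additive (MonoidAlgebra K D)ˣ := Thy.umap K φ.rangeRestrict (Additive.ofMul w)
  have hw' : I.bb i w' = 0 := by
    funext d
    rw [bb_umap_sum I i φ.rangeRestrict (Additive.ofMul w) d, hw]
    simp
  have hD : Nat.card D ∣ E' := by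
    have h3 : Nat.card D ∣ E := (Subgroup.card_subgroup_dvd_card D).trans hC
    rw [hEE] at h3
    exact (((hp.out.coprime_iff_not_dvd.2 h2).pow_left a0).symm).dvd_of_dvd_mul_left h3
  obtain ⟨k, hk, h4⟩ := I.tors i hE'0 hζ hD w' hw'
  -- back to `C`
  have h5 : mapDomainRingHom K φ (w : MonoidAlgebra K C) ^ k = 1 := by
    have h6 : mapDomainRingHom K φ (w : MonoidAlgebra K C) =
        mapDomainRingHom K D.subtype (((w'.toMul : (MonoidAlgebra K D)ˣ)) : MonoidAlgebra K D) := by
      have h7 : φ = D.subtype.comp φ.rangeRestrict := rfl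
      conv_lhs => rw [h7, mapDomainRingHom_comp]
      rfl
    rw [h6, ← map_pow, ← Units.val_pow_eq_pow_val]
    have h8 : w'.toMul ^ k = 1 := by
      rw [← toMul_nsmul, h4, toMul_zero]
    rw [h8, Units.val_one, map_one]
  have hnil : IsNilpotent ((w : MonoidAlgebra K C) ^ k - 1) := by
    have h9 := sub_nil (k := K) p φ a h1 (w : MonoidAlgebra K C)
    have h10 : ∃ s, (w : MonoidAlgebra K C) ^ k - 1 =
        ((w : MonoidAlgebra K C) - mapDomainRingHom K φ (w : MonoidAlgebra K C)) * s := by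
      have h11 := sub_dvd_pow_sub_pow (w : MonoidAlgebra K C)
        (mapDomainRingHom K φ (w : MonoidAlgebra K C)) k
      rw [h5] at h11
      exact h11
    obtain ⟨s, hs⟩ := h10
    rw [hs]
    exact (Commute.all _ _).isNilpotent_mul_right h9
  obtain ⟨m, hm⟩ := hnil
  have hch := charP_ma (k := K) p (C := C)
  refine ⟨k * p ^ m, Nat.mul_pos hk (pow_pos hp.out.pos m), ?_⟩
  have h12 : ((w : MonoidAlgebra K C) ^ k - 1) ^ p ^ m = 0 :=
    pow_eq_zero_of_le (Nat.lt_pow_self hp.out.one_lt).le hm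
  rw [sub_pow_char_pow, one_pow, sub_eq_zero, ← pow_mul] at h12
  exact h12

end

end Pool.Agent.L7h58.SK
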