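import Pool.Agent.L7h58.SK.Stm

/-!
# The group ring of a finite abelian group over a commutative semilocal ring is semilocal
-/

namespace Pool.Agent.L7h58.SK

theorem s_B : S_B := by
  intro R _ _ C _ _
  have hfin : Module.Finite R (MonoidAlgebra R C) :=
    Module.Finite.of_basis (MonoidAlgebra.basis C R)
  have hint : Algebra.IsIntegral R (MonoidAlgebra R C) := inferInstance
  let f : MaximalSpectrum (MonoidAlgebra R C) → MaximalSpectrum R := fun M =>
    ⟨M.asIdeal.comap (algebraMap R (MonoidAlgebra R C)),
      have := M.isMaximal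
      Ideal.isMaximal_comap_of_isIntegral_of_isMaximal M.asIdeal⟩
  suffices hu : (Set.univ : Set (MaximalSpectrum (MonoidAlgebra R C))).Finite from
    Set.finite_univ_iff.1 hu
  have h0 : (Set.univ : Set (MaximalSpectrum R)).Finite := Set.finite_univ
  have := Set.Finite.preimage' (f := f) h0
  rw [Set.preimage_univ] at this
  apply this
  intro m _
  have h1 := Algebra.QuasiFinite.finite_primesOver (S := MonoidAlgebra R C) m.asIdeal
  have h2 : Set.InjOn (fun M : MaximalSpectrum (MonoidAlgebra R C) => M.asIdeal) (f ⁻¹' {m}) := by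
    intro a _ b _ h
    exact MaximalSpectrum.ext h
  apply Set.Finite.of_finite_image _ h2
  apply h1.subset
  rintro _ ⟨M, hM, rfl⟩
  refine ⟨M.isMaximal.isPrime, ⟨?_⟩⟩
  have := congrArg MaximalSpectrum.asIdeal hM
  exact this.symm

end Pool.Agent.L7h58.SK
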