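import Pool.Agent.L7h58.SK.K1a
import Pool.Agent.L7h58.SK.SB

/-!
# Change of coefficients
-/

open Matrix

namespace Pool.Agent.L7h58.SK

open H970SH H842 MonoidAlgebra Pool.Agent.Y69 Pool.Agent.Y69.Main

noncomputable section

theorem mapRingHom_cp {A B D : Type} [CommRing A] [CommRing B] [CommRing D] {C : Type}
    [CommGroup C] (g : B →+* D) (f : A →+* B) (x : MonoidAlgebra A C) :
    mapRingHom C (g.comp f) x = mapRingHom C g (mapRingHom C f x) := by
  ext c
  rw [coeff_mapRingHom, coeff_mapRingHom, coeff_mapRingHom]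
  rfl

theorem cl_dU_semilocal' {S : Type} [CommRing S] [Finite (MaximalSpectrum S)] {n : Type}
    [Fintype n] [DecidableEq n] (U : (Matrix n n S)ˣ) : cl U = cl (unit1 (dU U)) := by
  rw [← cl_reindex (Fintype.equivFin n), cl_dU_semilocal, dU_reindex]

variable {A : Type} [CommRing A] {K : Type} [CommRing K] (j : A →+* K)

/-- the image of a unit -/
def um (C : Type) [CommGroup C] (u : Additive (MonoidAlgebra A C)ˣ) :
    Additive (MonoidAlgebra K C)ˣ :=
  Additive.ofMul (Units.map (mapRingHom C j : MonoidAlgebra A C →* MonoidAlgebra K C) u.toMul)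

theorem um_add (C : Type) [CommGroup C] (u v : Additive (MonoidAlgebra A C)ˣ) :
    um j C (u + v) = um j C u + um j C v := by
  unfold um
  rw [toMul_add, map_mul, ofMul_mul]

theorem um_umap {C D : Type} [CommGroup C] [CommGroup D] (f : C →* D)
    (u : Additive (MonoidAlgebra A C)ˣ) : um j D (Thy.umap A f u) = Thy.umap K f (um j C u) := by
  apply Additive.toMul.injective
  apply Units.ext
  exact RingHom.congr_fun (TK.Dsc.mapRing_mapDomain j f) _

/-- over a semilocal ring the classes of matrices of determinant one vanish -/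
theorem K1_det_one [Finite (MaximalSpectrum K)] {G : Type} [Group G] {C : Type} [CommGroup C]
    [Finite C] (φ : C →* G) (n : ℕ) (M : (Matrix (Fin n) (Fin n) (MonoidAlgebra A C))ˣ)
    (hM : (M : Matrix (Fin n) (Fin n) (MonoidAlgebra A C)).det = 1) :
    K1map (mapRingHom G j) (cl (mapUnit (mapDomainRingHom A φ) M)) = 0 := by
  have hfin : Finite (MaximalSpectrum (MonoidAlgebra K C)) := s_B K C
  rw [← K1map_cl, K1map_comp, TK.Dsc.mapRing_mapDomain, ← K1map_comp, K1map_cl,
    cl_dU_semilocal' (mapUnit (mapRingHom C j) M)]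
  have h1 : dU (mapUnit (mapRingHom C j) M) = 1 := by
    apply Units.ext
    show ((mapRingHom C j).mapMatrix (M : Matrix (Fin n) (Fin n) (MonoidAlgebra A C))).det = 1
    rw [← RingHom.map_det, hM, map_one]
  rw [h1, cl_unit1_one, map_zero]

end

end Pool.Agent.L7h58.SK
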