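import Pool.Agent.L7h58.SK.TrK
import Pool.Agent.L7h58.SK.KB

/-!
# The nilpotent places
-/

open Matrix

namespace Pool.Agent.L7h58.SK

open H970SH H842 MonoidAlgebra Pool.Agent.Y69 Pool.Agent.Y69.Main

noncomputable section

section com

/-- the logarithm is injective -/
theorem lg_inj {S : Type} [CommRing S] [Algebra ℚ S] {N : ℕ} (Φ : Fil S N) {z : S}
    (hz : z ∈ Φ.F 1) (h : lg N z = 0) : z = 0 := by
  rcases Nat.eq_zero_or_pos N with rfl | hN
  · exact Φ.bot z (Φ.top z)
  · obtain ⟨M, rfl⟩ : ∃ M, N = M + 1 := ⟨N - 1, by omega⟩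
    have hnil : IsNilpotent z := ⟨_, Φ.nil hz⟩
    have h1 : lg (M + 1) z = z * (1 + z * ∑ m ∈ Finset.range M,
        (((-1) ^ (m + 1) / ((m + 1 : ℕ) + 1) : ℚ)) • z ^ m) := by
      unfold lg
      rw [Finset.sum_range_succ', mul_add, mul_one, add_comm]
      congr 1
      · simp
      · rw [Finset.mul_sum, Finset.mul_sum]
        refine Finset.sum_congr rfl fun m _ => ?_
        rw [mul_smul_comm, mul_smul_comm]
        congr 1
        ring
    rw [h1] at h
    have h2 : IsUnit (1 + z * ∑ m ∈ Finset.range M,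
        (((-1) ^ (m + 1) / ((m + 1 : ℕ) + 1) : ℚ)) • z ^ m) :=
      IsNilpotent.isUnit_one_add ((Commute.all _ _).isNilpotent_mul_right hnil)
    exact (h2.mul_left_eq_zero).1 h

/-- matrices which are trivial modulo the nilpotent kernel -/
theorem cl_det_nil {S : Type} [CommRing S] [Algebra ℚ S] {N : ℕ} (Φ : Fil S N) (σ : S →+* S)
    (hΦ : ∀ x, σ x = 0 → x ∈ Φ.F 1) {n : Type} [Fintype n]
    [DecidableEq n] (V : (Matrix n n S)ˣ) (hV : mapUnit σ V = 1) : cl V = cl (unit1 (dU V)) := by
  have hker : ∀ j ∈ RingHom.ker σ, IsUnit (1 + j) := by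
    intro j hj
    exact IsNilpotent.isUnit_one_add ⟨_, Φ.nil (hΦ j hj)⟩
  have hVe : ∀ i k, σ ((V : Matrix n n S) i k - (1 : Matrix n n S) i k) = 0 := by
    intro i k
    have h0 : ((mapUnit σ V : (Matrix n n S)ˣ) : Matrix n n S) = 1 := by rw [hV]; rfl
    have h1 := congrFun (congrFun h0 i) k
    have h2 : σ ((V : Matrix n n S) i k) = (1 : Matrix n n S) i k := h1
    rw [map_sub, h2]
    by_cases h : i = k
    · subst h; rw [Matrix.one_apply_eq, map_one, sub_self]
    · rw [Matrix.one_apply_ne h, map_zero, sub_self]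
  let e := Fintype.equivFin n
  rw [← cl_reindex e, cl_dU_rad (RingHom.ker σ) hker, dU_reindex]
  intro i k
  have h3 := hVe (e.symm i) (e.symm k)
  have h4 : (1 : Matrix n n S) (e.symm i) (e.symm k) =
      (1 : Matrix (Fin (Fintype.card n)) (Fin (Fintype.card n)) S) i k := by
    by_cases h : i = k
    · subst h; rw [Matrix.one_apply_eq, Matrix.one_apply_eq]
    · rw [Matrix.one_apply_ne h, Matrix.one_apply_ne]
      intro h'
      exact h (e.symm.injective h')
  rw [h4] at h3
  exact h3

/-- logarithm of the determinant -/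
theorem lg_det {S : Type} [CommRing S] [Algebra ℚ S] {N : ℕ} (Φ : Fil S N) (σ : S →+* S)
    (hσ : ∀ x, σ (σ x) = σ x) (hΦ : ∀ x, σ x = 0 → x ∈ Φ.F 1) {n : Type} [Fintype n]
    [DecidableEq n] (V : (Matrix n n S)ˣ) (hV : mapUnit σ V = 1) :
    lg N ((dU V : S) - 1) = (lg N ((V : Matrix n n S) - 1)).trace := by
  obtain ⟨T, hT⟩ := exists_TF Φ σ (AddMonoidHom.id S) hσ hΦ (fun x y => mul_comm x y)
  have hcl : cl V = cl (unit1 (dU V)) := cl_det_nil Φ σ hΦ V hV
  have h5 := congrArg T hcl
  rw [hT, hT, FF_unit1] at h5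
  have h6 : Vq σ V = V := by
    unfold Vq
    rw [hV, inv_one, mul_one]
  have h7 : vq σ (dU V) = dU V := by
    unfold vq
    have h8 : Units.map (σ : S →* S) (dU V) = 1 := by
      apply Units.ext
      show σ ((V : Matrix n n S).det) = 1
      rw [RingHom.map_det]
      have h0 : ((mapUnit σ V : (Matrix n n S)ˣ) : Matrix n n S) = 1 := by rw [hV]; rfl
      have h9 : σ.mapMatrix (V : Matrix n n S) = 1 := h0
      rw [h9, det_one]
    rw [h8, inv_one, mul_one]
  unfold FF at h5
  rw [h6, h7] at h5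
  exact h5.symm

end com

section ma

variable {A B : Type} [CommRing A] [CommRing B] [Algebra ℚ B] (j : A →+* B) (π : B →+* B) {N : ℕ}
  (hπ : ∀ b, π (π b) = π b) (hN : RingHom.ker π ^ N = ⊥)

/-- the image of a unit -/
def ju (C : Type) [CommGroup C] (u : Additive (MonoidAlgebra A C)ˣ) : (MonoidAlgebra B C)ˣ :=
  Units.map (mapRingHom C j : MonoidAlgebra A C →* MonoidAlgebra B C) u.toMul

/-- the logarithm of a unit -/
def bL (N : ℕ) (C : Type) [CommGroup C] (u : Additive (MonoidAlgebra A C)ˣ) : MonoidAlgebra B C :=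
  lg N ((vq (mapRingHom C π) (ju j C u) : MonoidAlgebra B C) - 1)

include hπ in
theorem sig_sig (G : Type) [Group G] (x : MonoidAlgebra B G) :
    mapRingHom G π (mapRingHom G π x) = mapRingHom G π x := by
  ext g
  rw [coeff_mapRingHom, coeff_mapRingHom]
  exact hπ _

theorem sig_mem (G : Type) [Group G] (x : MonoidAlgebra B G) (hx : mapRingHom G π x = 0) :
    x ∈ (Fil.ma (RingHom.ker π) hN G).F 1 := by
  intro g
  have h1 := congrArg (fun z => z.coeff g) hx
  simp only [coeff_mapRingHom, coeff_zero] at h1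
  rw [pow_one]
  exact h1

/-- the trace of a class function -/
def tauh {G : Type} [Group G] (h : G → ℤ) : MonoidAlgebra B G →+ B :=
  (Finsupp.liftAddHom (fun g => (h g) • (AddMonoidHom.id B))).comp
    MonoidAlgebra.coeffAddEquiv.toAddMonoidHom

omit [Algebra ℚ B] in
theorem tauh_single {G : Type} [Group G] (h : G → ℤ) (g : G) (r : B) :
    tauh h (MonoidAlgebra.single g r) = h g • r := by
  show Finsupp.liftAddHom (fun g => (h g) • (AddMonoidHom.id B)) (Finsupp.single g r) = _
  rw [Finsupp.liftAddHom_apply_single]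
  rfl

omit [Algebra ℚ B] in
theorem tauh_comm {G : Type} [Group G] {h : G → ℤ} (hh : ∀ x y, h (x * y) = h (y * x))
    (x y : MonoidAlgebra B G) : tauh h (x * y) = tauh h (y * x) := by
  induction x using MonoidAlgebra.induction_linear with
  | zero => simp
  | add a b ha hb => rw [add_mul, map_add, ha, hb, mul_add, map_add]
  | single g r =>
    induction y using MonoidAlgebra.induction_linear with
    | zero => simp
    | add a b ha hb => rw [mul_add, map_add, ha, hb, add_mul, map_add]
    | single h s =>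
      rw [MonoidAlgebra.single_mul_single, MonoidAlgebra.single_mul_single, tauh_single,
        tauh_single, hh, mul_comm r s]

omit [Algebra ℚ B] in
theorem tauh_map {G C : Type} [Group G] [CommGroup C] [Fintype C] (h : G → ℤ) (φ : C →* G)
    (x : MonoidAlgebra B C) : tauh h (mapDomainRingHom B φ x) =
      ∑ c, x.coeff c * ((h (φ c) : ℤ) : B) := by
  classical
  induction x using MonoidAlgebra.induction_linear with
  | zero => simp
  | add a b ha hb =>
    rw [map_add, map_add, ha, hb, ← Finset.sum_add_distrib]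
    refine Finset.sum_congr rfl fun c _ => ?_
    rw [coeff_add, Finsupp.add_apply, add_mul]
  | single c r =>
    rw [mapDomainRingHom_apply, mapDomain_single, tauh_single, Finset.sum_eq_single c]
    · rw [coeff_single, Finsupp.single_eq_same, zsmul_eq_mul, mul_comm]
    · intro d _ hd
      rw [coeff_single, Finsupp.single_eq_of_ne hd, zero_mul]
    · intro h; exact absurd (Finset.mem_univ c) h

theorem vq_sig {S : Type} [CommRing S] (σ : S →+* S) (hσ : ∀ x, σ (σ x) = σ x) (w : Sˣ) :
    σ (vq σ w : S) = 1 := by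
  have h1 : Units.map (σ : S →* S) (w * (Units.map (σ : S →* S) w)⁻¹) = 1 := by
    rw [map_mul, map_inv]
    have h2 : Units.map (σ : S →* S) (Units.map (σ : S →* S) w) = Units.map (σ : S →* S) w := by
      apply Units.ext
      exact hσ _
    rw [h2, mul_inv_cancel]
  exact congrArg Units.val h1

include hπ in
theorem vq_mem (C : Type) [CommGroup C] (w : (MonoidAlgebra B C)ˣ) :
    ((vq (mapRingHom C π) w : MonoidAlgebra B C) - 1) ∈
      (Fil.ma (RingHom.ker π) hN C).F 1 := by
  apply sig_mem π hN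
  rw [map_sub, map_one, sub_eq_zero]
  exact vq_sig (mapRingHom C π) (sig_sig π hπ C) w

theorem vq_mul {S : Type} [CommRing S] (σ : S →+* S) (u v : Sˣ) :
    vq σ (u * v) = vq σ u * vq σ v := by
  unfold vq
  rw [map_mul, mul_inv, mul_mul_mul_comm]

include hπ hN in
theorem bL_add (C : Type) [CommGroup C] (u v : Additive (MonoidAlgebra A C)ˣ) :
    bL j π N C (u + v) = bL j π N C u + bL j π N C v := by
  let Φ := Fil.ma (RingHom.ker π) hN C
  have h3 := Φ.tr_lg (AddMonoidHom.id (MonoidAlgebra B C)) (fun x y => mul_comm x y)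
    (vq_mem π hπ hN C (ju j C u)) (vq_mem π hπ hN C (ju j C v))
  have h4 : ju j C (u + v) = ju j C u * ju j C v := by
    unfold ju
    rw [toMul_add, map_mul]
  unfold bL
  rw [h4, vq_mul, Units.val_mul]
  rw [add_sub_cancel, add_sub_cancel] at h3
  exact h3

theorem bL_map {C D : Type} [CommGroup C] [CommGroup D] (f : C →* D)
    (u : Additive (MonoidAlgebra A C)ˣ) :
    bL j π N D (Thy.umap A f u) = mapDomainRingHom B f (bL j π N C u) := by
  unfold bL
  rw [lg_map, map_sub, map_one]
  congr 2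
  have h1 : ju j D (Thy.umap A f u) =
      Units.map (mapDomainRingHom B f : MonoidAlgebra B C →* MonoidAlgebra B D) (ju j C u) := by
    apply Units.ext
    exact RingHom.congr_fun (TK.Dsc.mapRing_mapDomain j f) _
  have h2 : ∀ w : (MonoidAlgebra B C)ˣ, vq (mapRingHom D π)
      (Units.map (mapDomainRingHom B f : MonoidAlgebra B C →* MonoidAlgebra B D) w) =
      Units.map (mapDomainRingHom B f : MonoidAlgebra B C →* MonoidAlgebra B D)
        (vq (mapRingHom C π) w) := by
    intro w
    unfold vq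
    rw [map_mul, map_inv]
    congr 2
    apply Units.ext
    exact RingHom.congr_fun (TK.Dsc.mapRing_mapDomain π f) _
  rw [h1, h2]
  rfl

include hπ hN in
theorem bL_nrm {C : Type} [CommGroup C] [Finite C] (D : Subgroup C)
    [Fintype (C ⧸ D)] [DecidableEq (C ⧸ D)] (u : Additive (MonoidAlgebra A C)ˣ) :
    bL j π N D (Additive.ofMul (Units.map (Tra.nrm A D) u.toMul)) =
      (Tra.ps B D (bL j π N C u)).trace := by
  let v : (MonoidAlgebra B C)ˣ := vq (mapRingHom C π) (ju j C u)
  let V : (Matrix (C ⧸ D) (C ⧸ D) (MonoidAlgebra B D))ˣ :=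
    Units.map (Tra.ps B D : MonoidAlgebra B C →* Matrix (C ⧸ D) (C ⧸ D) (MonoidAlgebra B D)) v
  have hvπ : mapRingHom C π (v : MonoidAlgebra B C) = 1 :=
    vq_sig (mapRingHom C π) (sig_sig π hπ C) _
  have hV : mapUnit (mapRingHom D π) V = 1 := by
    apply Units.ext
    rw [mapUnit_val]
    show (Tra.ps B D (v : MonoidAlgebra B C)).map (mapRingHom D π) = 1
    rw [← Tra.ps_map, hvπ, map_one]
  have h3 := lg_det (Fil.ma (RingHom.ker π) hN D) (mapRingHom D π) (sig_sig π hπ D)
    (sig_mem π hN D) V hV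
  have h4 : (V : Matrix (C ⧸ D) (C ⧸ D) (MonoidAlgebra B D)) - 1 =
      Tra.ps B D ((v : MonoidAlgebra B C) - 1) := by
    rw [map_sub, map_one]
    rfl
  have h5 : (dU V : MonoidAlgebra B D) = Tra.nrm B D (v : MonoidAlgebra B C) := rfl
  rw [h4, h5, ← lg_map] at h3
  have h6 : ((vq (mapRingHom D π) (ju j D (Additive.ofMul (Units.map (Tra.nrm A D) u.toMul))) :
      (MonoidAlgebra B D)ˣ) : MonoidAlgebra B D) = Tra.nrm B D (v : MonoidAlgebra B C) := by
    have h7 : ju j D (Additive.ofMul (Units.map (Tra.nrm A D) u.toMul)) =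
        Units.map (Tra.nrm B D) (ju j C u) := by
      apply Units.ext
      exact (Tra.nrm_map A D j _).symm
    have h8 : vq (mapRingHom D π) (Units.map (Tra.nrm B D) (ju j C u)) =
        Units.map (Tra.nrm B D) v := by
      show _ * _ = Units.map _ (_ * _)
      rw [map_mul, map_inv]
      congr 2
      apply Units.ext
      exact (Tra.nrm_map B D π _).symm
    rw [h7, h8]
    rfl
  show lg N (((vq (mapRingHom D π) (ju j D (Additive.ofMul (Units.map (Tra.nrm A D) u.toMul))) :
      (MonoidAlgebra B D)ˣ) : MonoidAlgebra B D) - 1) = _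
  rw [h6, h3]
  rfl

include hπ hN in
theorem det_one_P3 {G : Type} [Group G] (h : G → ℤ) (T : K1 (MonoidAlgebra B G) →+ B)
    (hT : ∀ (n : ℕ) (M : (Matrix (Fin n) (Fin n) (MonoidAlgebra B G))ˣ),
      T (cl M) = FF (mapRingHom G π) (tauh (B := B) h) N M)
    (C : Type) [CommGroup C] [Finite C] (φ : C →* G) (n : ℕ)
    (M : (Matrix (Fin n) (Fin n) (MonoidAlgebra A C))ˣ)
    (hM : (M : Matrix (Fin n) (Fin n) (MonoidAlgebra A C)).det = 1) :
    T (K1map (mapRingHom G j) (cl (mapUnit (mapDomainRingHom A φ) M))) = 0 := by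
  let X : (Matrix (Fin n) (Fin n) (MonoidAlgebra B C))ˣ := mapUnit (mapRingHom C j) M
  let σ := mapRingHom C π
  have hX : dU X = 1 := by
    apply Units.ext
    show ((mapRingHom C j).mapMatrix (M : Matrix (Fin n) (Fin n) (MonoidAlgebra A C))).det = 1
    rw [← RingHom.map_det, hM, map_one]
  have hσX : dU (mapUnit σ X) = 1 := by
    apply Units.ext
    show (σ.mapMatrix (X : Matrix (Fin n) (Fin n) (MonoidAlgebra B C))).det = 1
    have h0 : (X : Matrix (Fin n) (Fin n) (MonoidAlgebra B C)).det = 1 := congrArg Units.val hX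
    rw [← RingHom.map_det, h0, map_one]
  have hV : cl (Vq σ X) = 0 := by
    rw [cl_det_nil (Fil.ma (RingHom.ker π) hN C) σ (sig_mem π hN C) (Vq σ X)
      (mapUnit_Vq σ (sig_sig π hπ C) X)]
    have h1 : dU (Vq σ X) = 1 := by
      show Units.map _ (X * (mapUnit σ X)⁻¹) = 1
      rw [map_mul, map_inv]
      show dU X * (dU (mapUnit σ X))⁻¹ = 1
      rw [hX, hσX, inv_one, mul_one]
    rw [h1, cl_unit1_one]
  have hXc : cl X = cl (mapUnit σ X) := by
    have h2 : X = Vq σ X * mapUnit σ X := by
      show X = X * (mapUnit σ X)⁻¹ * mapUnit σ X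
      rw [inv_mul_cancel_right]
    rw [h2, cl_mul, hV, zero_add, ← h2]
  have h3 : K1map (mapRingHom G j) (cl (mapUnit (mapDomainRingHom A φ) M)) =
      cl (mapUnit (mapRingHom G π) (mapUnit (mapDomainRingHom B φ) X)) := by
    rw [← K1map_cl, K1map_comp, TK.Dsc.mapRing_mapDomain, ← K1map_comp, K1map_cl]
    show K1map (mapDomainRingHom B φ) (cl X) = _
    rw [hXc, K1map_cl]
    congr 1
    show mapUnit ((mapDomainRingHom B φ).comp (mapRingHom C π)) X =
      mapUnit ((mapRingHom G π).comp (mapDomainRingHom B φ)) X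
    rw [TK.Dsc.mapRing_mapDomain]
  rw [h3, hT]
  have h4 : ∀ Z : (Matrix (Fin n) (Fin n) (MonoidAlgebra B G))ˣ,
      Vq (mapRingHom G π) (mapUnit (mapRingHom G π) Z) = 1 := by
    intro Z
    have h5 : mapUnit (mapRingHom G π) (mapUnit (mapRingHom G π) Z) = mapUnit (mapRingHom G π) Z := by
      apply Units.ext
      ext i k : 1
      exact sig_sig π hπ G _
    show mapUnit (mapRingHom G π) Z * (mapUnit (mapRingHom G π) (mapUnit (mapRingHom G π) Z))⁻¹ = 1
    rw [h5, mul_inv_cancel]
  unfold FF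
  rw [h4, Units.val_one, sub_self, lg_zero, map_zero]

/-- the nilpotent place -/
def plP3 (E : ℕ) : Pl A E where
  Λ := B
  b {C} _ u c := (bL j π N C u).coeff c
  b_add _ u v := by
    funext c
    rw [bL_add j π hπ hN, coeff_add, Finsupp.add_apply]
    rfl
  b_map := by
    intro C D _ _ _ _ _ f hf u c
    rw [bL_map, mapDomainRingHom_apply, mapDomain, coeff_ofCoeff, Finsupp.mapDomain_apply hf]
  b_map_not := by
    intro C D _ _ _ _ _ f hf u d hd
    rw [bL_map, mapDomainRingHom_apply, mapDomain, coeff_ofCoeff,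
      Finsupp.mapDomain_of_notMem_range _ _ hd]
  b_nrm := by
    intro C _ _ _ D _ _ u d
    rw [bL_nrm j π hπ hN, Tra.trace_ps]
  tr := by
    intro G _ h hh
    obtain ⟨T, hT⟩ := exists_TF (Fil.ma (RingHom.ker π) hN G) (mapRingHom G π)
      (tauh (B := B) h) (sig_sig π hπ G) (sig_mem π hN G) (tauh_comm hh)
    refine ⟨T.comp (K1map (mapRingHom G j)), ?_, fun C _ _ φ n M hM =>
      det_one_P3 j π hπ hN h T (fun n M => hT (Fin n) M) C φ n M hM⟩
    intro C _ _ _ φ u
    have h1 : K1map (mapRingHom G j) (cl (mapUnit (mapDomainRingHom A φ) (unit1 u.toMul))) =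
        cl (unit1 (Units.map (mapDomainRingHom B φ : MonoidAlgebra B C →* MonoidAlgebra B G)
          (ju j C u))) := by
      rw [K1map_cl]
      congr 1
      apply Units.ext
      ext i k : 1
      exact RingHom.congr_fun (TK.Dsc.mapRing_mapDomain j φ) _
    show T (K1map (mapRingHom G j) (cl (mapUnit (mapDomainRingHom A φ) (unit1 u.toMul)))) = _
    rw [h1, hT, FF_unit1]
    have h2 : vq (mapRingHom G π)
        (Units.map (mapDomainRingHom B φ : MonoidAlgebra B C →* MonoidAlgebra B G) (ju j C u)) =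
        Units.map (mapDomainRingHom B φ : MonoidAlgebra B C →* MonoidAlgebra B G)
          (vq (mapRingHom C π) (ju j C u)) := by
      unfold vq
      rw [map_mul, map_inv]
      congr 2
      apply Units.ext
      exact RingHom.congr_fun (TK.Dsc.mapRing_mapDomain π φ) _
    have h3 : ((vq (mapRingHom G π)
        (Units.map (mapDomainRingHom B φ : MonoidAlgebra B C →* MonoidAlgebra B G) (ju j C u)) :
        (MonoidAlgebra B G)ˣ) : MonoidAlgebra B G) - 1 =
        mapDomainRingHom B φ ((vq (mapRingHom C π) (ju j C u) : MonoidAlgebra B C) - 1) := by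
      rw [h2, map_sub, map_one]
      rfl
    rw [h3, ← lg_map, tauh_map]
    rfl

end ma

theorem mapRingHom_comp'' {A B D : Type} [CommRing A] [CommRing B] [CommRing D] (C : Type)
    [CommGroup C] (g : B →+* D) (f : A →+* B) (x : MonoidAlgebra A C) :
    mapRingHom C (g.comp f) x = mapRingHom C g (mapRingHom C f x) := by
  ext c
  rw [coeff_mapRingHom, coeff_mapRingHom, coeff_mapRingHom]
  rfl

theorem s_P3 : S_P3 := by
  intro A B _ _ _ j π N hπ hN E
  refine ⟨plP3 j π hπ hN E, ?_⟩
  intro C _ _ _ u hu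
  have h1 : bL j π N C (Additive.ofMul u) = 0 := by
    ext c
    exact congrFun hu c
  let w := ju j C (Additive.ofMul u)
  have h2 := vq_mem π hπ hN C w
  have h3 := lg_inj (Fil.ma (RingHom.ker π) hN C) h2 h1
  rw [sub_eq_zero] at h3
  have h4 : vq (mapRingHom C π) w = 1 := Units.ext h3
  unfold vq at h4
  rw [mul_inv_eq_one] at h4
  have h5 := congrArg Units.val h4
  rw [mapRingHom_comp'']
  exact h5.symm

end

end Pool.Agent.L7h58.SK
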