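import Pool.Agent.L7h58.SK.Stm

/-!
# Separating an element of infinite additive order of a finitely generated commutative ring
-/

open TensorProduct

namespace Pool.Agent.L7h58.SK

/-- Krull's intersection theorem for one element -/
theorem exists_maximal_pow {T : Type} [CommRing T] [IsNoetherianRing T] (y : T) (hy : y ≠ 0) :
    ∃ (M : Ideal T) (_ : M.IsMaximal) (k : ℕ), 0 < k ∧ y ∉ M ^ k := by
  let Ann : Ideal T := LinearMap.ker (LinearMap.toSpanSingleton T T y)
  have hAnn : ∀ t, t ∈ Ann ↔ t * y = 0 := by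
    intro t
    rw [LinearMap.mem_ker, LinearMap.toSpanSingleton_apply, smul_eq_mul]
  have h1 : Ann ≠ ⊤ := by
    intro h
    apply hy
    have := (hAnn 1).1 (by rw [h]; exact Submodule.mem_top)
    rwa [one_mul] at this
  obtain ⟨M, hM, hle⟩ := Ideal.exists_le_maximal Ann h1
  refine ⟨M, hM, ?_⟩
  by_contra hcon
  push Not at hcon
  have h2 : y ∈ (⨅ i : ℕ, M ^ i • ⊤ : Submodule T T) := by
    rw [Submodule.mem_iInf]
    intro i
    rw [smul_eq_mul, Ideal.mul_top]
    rcases Nat.eq_zero_or_pos i with rfl | hi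
    · rw [pow_zero, Ideal.one_eq_top]; exact Submodule.mem_top
    · exact hcon i hi
  obtain ⟨⟨r, hr⟩, hry⟩ := (M.mem_iInf_smul_pow_eq_bot_iff y).1 h2
  have h3 : 1 - r ∈ Ann := by
    rw [hAnn, sub_mul, one_mul, sub_eq_zero]
    exact hry.symm
  apply hM.ne_top
  rw [Ideal.eq_top_iff_one]
  have := M.add_mem (hle h3) hr
  rwa [sub_add_cancel] at this

theorem s_N : S_N := by
  intro A _ hft x hx
  let T : Type := ℚ ⊗[ℤ] A
  have hT : IsNoetherianRing T := Algebra.FiniteType.isNoetherianRing ℚ T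
  let i : A →+* T := (Algebra.TensorProduct.includeRight : A →ₐ[ℤ] ℚ ⊗[ℤ] A).toRingHom
  have hix : i x ≠ 0 := by
    intro h
    have h1 : TensorProduct.mk ℤ ℚ A 1 x = 0 := h
    rw [IsLocalizedModule.eq_zero_iff (nonZeroDivisors ℤ)] at h1
    obtain ⟨⟨c, hc⟩, h2⟩ := h1
    have hc0 : c ≠ 0 := nonZeroDivisors.ne_zero hc
    have h3 : c • x = 0 := h2
    apply hx c.natAbs (Int.natAbs_pos.2 hc0)
    rcases Int.natAbs_eq c with h4 | h4
    · rw [h4, natCast_zsmul] at h3
      exact h3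
    · rw [h4, neg_smul, natCast_zsmul, neg_eq_zero] at h3
      exact h3
  obtain ⟨M, hM, k, hk, hy⟩ := exists_maximal_pow (i x) hix
  let B : Type := T ⧸ M ^ k
  let q : T →ₐ[ℚ] B := Ideal.Quotient.mkₐ ℚ (M ^ k)
  let f : B →ₐ[ℚ] T ⧸ M := Ideal.Quotient.factorₐ ℚ (Ideal.pow_le_self hk.ne')
  have hf : Function.Surjective f := Ideal.Quotient.factor_surjective (Ideal.pow_le_self hk.ne')
  have hker : (RingHom.ker (f : B →+* T ⧸ M)) ^ k = ⊥ := by
    have h1 : RingHom.ker (f : B →+* T ⧸ M) = M.map (Ideal.Quotient.mk (M ^ k)) := by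
      ext b
      obtain ⟨t, rfl⟩ := Ideal.Quotient.mk_surjective b
      rw [RingHom.mem_ker]
      show (Ideal.Quotient.mk M t = 0) ↔ _
      rw [Ideal.Quotient.eq_zero_iff_mem]
      constructor
      · intro h; exact Ideal.mem_map_of_mem _ h
      · intro h
        have h2 := (Ideal.mem_map_iff_of_surjective _ Ideal.Quotient.mk_surjective).1 h
        obtain ⟨s, hs, hst⟩ := h2
        rw [Ideal.Quotient.eq] at hst
        have h3 := Ideal.pow_le_self hk.ne' hst
        have := M.sub_mem hs h3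
        rwa [sub_sub_cancel] at this
    rw [h1, ← Ideal.map_pow, Ideal.map_quotient_self]
  let _ : Field (T ⧸ M) := Ideal.Quotient.field M
  have hfin : Module.Finite ℚ (T ⧸ M) := finite_of_finite_type_of_isJacobsonRing ℚ (T ⧸ M)
  have hsep : Algebra.IsSeparable ℚ (T ⧸ M) := inferInstance
  have het : Algebra.FormallyEtale ℚ (T ⧸ M) := Algebra.FormallyEtale.of_isSeparable ℚ (T ⧸ M)
  let s : (T ⧸ M) →ₐ[ℚ] B := Algebra.FormallySmooth.liftOfSurjective (AlgHom.id ℚ (T ⧸ M)) f hf
    ⟨k, hker⟩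
  have hs : ∀ z, f (s z) = z := fun z =>
    Algebra.FormallySmooth.liftOfSurjective_apply (AlgHom.id ℚ (T ⧸ M)) f hf ⟨k, hker⟩ z
  let π : B →+* B := (s : (T ⧸ M) →+* B).comp (f : B →+* T ⧸ M)
  have hπ : ∀ b, π b = s (f b) := fun _ => rfl
  refine ⟨B, inferInstance, inferInstance, (q : T →+* B).comp i, π, k, ?_, ?_, ?_, ?_⟩
  · intro h
    exact hy (Ideal.Quotient.eq_zero_iff_mem.1 h)
  · intro b
    rw [hπ, hπ, hs]
  · have h1 : RingHom.ker π = RingHom.ker (f : B →+* T ⧸ M) := by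
      ext b
      rw [RingHom.mem_ker, RingHom.mem_ker, hπ]
      constructor
      · intro h
        have := congrArg f h
        rw [hs, map_zero] at this
        exact this
      · intro h
        have h2 : f b = 0 := h
        rw [h2, map_zero]
    rw [h1, hker]
  · intro a ha
    rw [hπ]
    have h1 : IsNilpotent (f ((q : T →+* B).comp i a)) :=
      (ha.map ((q : T →+* B).comp i)).map f
    rw [h1.eq_zero, map_zero]

end Pool.Agent.L7h58.SK
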