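import Pool.Agent.L7h58.SK.D1
import Pool.Agent.L7h58.SK.P1
import Pool.Agent.L7h58.SK.P2
import Pool.Agent.L7h58.SK.P3
import Pool.Agent.L7h58.SK.SN
import Pool.Agent.L7h60.SK.Art
import Pool.Agent.L7h58.SK.Def

/-!
# The main theorem for the groups of `KDef`
-/

open Matrix

namespace Pool.Agent.L7h58.SK

open H970SH H842 MonoidAlgebra Pool.Agent.Y69 Pool.Agent.Y69.Main

noncomputable section

theorem hF : S_F := s_F s_P1 s_P2 s_P3 s_N

theorem cls_eq {R C G : Type} [CommRing R] [CommGroup C] [Group G] [Finite C] (φ : C →* G) {n : ℕ}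
    (M : (Matrix (Fin n) (Fin n) (MonoidAlgebra R C))ˣ) :
    (cls φ M : FJK.ColimK1 R G) = (symM R φ (K1.mk M) : K1Colim R G) := rfl

theorem unitPart_eq (R G : Type) [CommRing R] [Group G] :
    (unitPart R G : AddSubgroup (K1Colim R G)) = UP G R := rfl

theorem sk1Part_eq (R G : Type) [CommRing R] [Group G] :
    (sk1Part R G : AddSubgroup (K1Colim R G)) = SP G R := rfl

theorem fin_dec (R G : Type) [CommRing R] [Group G] (x : FJK.ColimK1 R G) :
    ∃ k : ℕ, 0 < k ∧ ∃ u ∈ unitPart R G, ∃ s ∈ sk1Part R G, k • x = u + s :=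
  dec_all (G := G) L7h60.SK.s_C x

theorem fin_unit (R G : Type) [CommRing R] [Group G] (u : FJK.ColimK1 R G)
    (hu : u ∈ unitPart R G) (s : FJK.ColimK1 R G) (hs : s ∈ sk1Part R G) (n : ℕ) (hn : 0 < n)
    (h : n • FJK.assembly R G (u + s) = 0) : ∃ l : ℕ, 0 < l ∧ l • u = 0 :=
  main_unit (G := G) hF R u hu s hs n hn h

theorem fin_ker (R G : Type) [CommRing R] [Group G] (x : FJK.ColimK1 R G) (n : ℕ) (hn : 0 < n)
    (h : n • FJK.assembly R G x = 0) : ∃ l : ℕ, 0 < l ∧ l • x ∈ sk1Part R G :=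
  main_ker (G := G) L7h60.SK.s_C hF R x n hn h

theorem fin_tor (R G : Type) [CommRing R] [Group G]
    (hR : ∀ (C : Type) [CommGroup C] [Finite C] [IsCyclic C] (n : ℕ)
      (M : (Matrix (Fin n) (Fin n) (MonoidAlgebra R C))ˣ),
      (M : Matrix (Fin n) (Fin n) (MonoidAlgebra R C)).det = 1 →
        ∃ k : ℕ, 0 < k ∧ k • FJ.K1.mk M = 0)
    (x : FJK.ColimK1 R G) (n : ℕ) (hn : 0 < n)
    (h : n • FJK.assembly R G x = 0) : ∃ l : ℕ, 0 < l ∧ l • x = 0 := by
  obtain ⟨l, hl, h1⟩ := fin_ker R G x n hn h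
  obtain ⟨m, hm, h2⟩ := SP_torsion (G := G) R hR (l • x) h1
  exact ⟨m * l, Nat.mul_pos hm hl, by rw [mul_smul]; exact h2⟩

/-- `Tor1` gives torsion of `SK₁` -/
theorem sk1_of_tor1 (S : Type) [CommRing S] (h : Tor1 S) (n : ℕ) (M : (Matrix (Fin n) (Fin n) S)ˣ)
    (hM : (M : Matrix (Fin n) (Fin n) S).det = 1) : ∃ k : ℕ, 0 < k ∧ k • K1.mk M = 0 := by
  obtain ⟨k, u, hk, hu⟩ := h (K1.mk M)
  -- the determinant
  obtain ⟨D, hD⟩ : ∃ D : K1 S →+ Additive Sˣ, ∀ n (M : (Matrix (Fin n) (Fin n) S)ˣ),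
      D (K1.mk M) = Additive.ofMul (dU M) := by
    apply KTr.K1_lift (fun n M => Additive.ofMul (dU M))
    · intro n M N
      rw [dU_mul, ofMul_mul]
    · intro n M N hN
      congr 1
      apply Units.ext
      rw [dU_val, dU_val, hN, Matrix.det_reindex_self, Matrix.det_fromBlocks_zero₂₁, Matrix.det_one,
        mul_one]
  have h1 := congrArg D hu
  rw [map_nsmul, hD, ← cl_um1, hD] at h1
  have h2 : dU M = 1 := Units.ext hM
  have h3 : dU (um1 u) = u := by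
    apply Units.ext
    show (Matrix.scalar (Fin 1) (u : S)).det = (u : S)
    rw [Matrix.det_unique, Matrix.scalar_apply, Matrix.diagonal_apply_eq]
  rw [h2, h3, ofMul_one, smul_zero] at h1
  have h4 : u = 1 := (Additive.ofMul.injective h1).symm
  refine ⟨k, hk, ?_⟩
  rw [hu, h4, cl_unit1_one]

/-- semilocal rings -/
theorem sk1_semilocal (R : Type) [CommRing R] [Finite (MaximalSpectrum R)] (C : Type)
    [CommGroup C] [Finite C] (n : ℕ) (M : (Matrix (Fin n) (Fin n) (MonoidAlgebra R C))ˣ)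
    (hM : (M : Matrix (Fin n) (Fin n) (MonoidAlgebra R C)).det = 1) :
    ∃ k : ℕ, 0 < k ∧ k • FJ.K1.mk M = 0 :=
  sk1_of_tor1 _ (tor1_semilocal R C) n M hM

/-- unions of finitely generated rings of dimension at most one -/
theorem sk1_union (R : Type) [CommRing R]
    (h : ∀ s : Finset R, ∃ t : Finset R, s ⊆ t ∧
      Ring.KrullDimLE 1 (Algebra.adjoin ℤ (t : Set R))) (C : Type) [CommGroup C] [Finite C]
    (n : ℕ) (M : (Matrix (Fin n) (Fin n) (MonoidAlgebra R C))ˣ)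
    (hM : (M : Matrix (Fin n) (Fin n) (MonoidAlgebra R C)).det = 1) :
    ∃ k : ℕ, 0 < k ∧ k • FJ.K1.mk M = 0 :=
  sk1_of_tor1 _ (tor1_union R h C) n M hM

end

end Pool.Agent.L7h58.SK
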