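import Pool.Agent.L7h58.SK.Fin
import Pool.Agent.H842R2.Mennicke

/-!
# `SK₁` of finitely generated commutative rings of Krull dimension at most one is torsion
-/

open Matrix

namespace Pool.Agent.L7h58.SK

open H970SH H842 MonoidAlgebra Pool.Agent.Y69 Pool.Agent.Y69.Main

section alg

variable {A : Type} [CommRing A]

/-- avoiding the minimal primes -/
theorem avoid [IsNoetherianRing A] (a x y : A) (h : x * a + y = 1) :
    ∃ e : A, ∀ P ∈ minimalPrimes A, a + e * y ∉ P := by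
  classical
  have hfin := minimalPrimes.finite_of_isNoetherianRing A
  have hprime : ∀ P ∈ minimalPrimes A, P.IsPrime := fun P hP => hP.1.1
  let S : Finset (Ideal A) := hfin.toFinset
  let S1 := S.filter (fun P => a ∈ P)
  let S2 := S.filter (fun P => a ∉ P)
  have hS : ∀ P, P ∈ S ↔ P ∈ minimalPrimes A := fun P => hfin.mem_toFinset
  let J : Ideal A := S2.inf id
  have hJ : ¬ ((J : Set A) ⊆ ⋃ P ∈ (S1 : Set (Ideal A)), ((id P : Ideal A) : Set A)) := by
    rw [Ideal.subset_union_prime (f := id) ⊥ ⊥ (fun P hP _ _ =>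
      hprime P ((hS P).1 (Finset.mem_filter.1 hP).1))]
    rintro ⟨P, hP, hle⟩
    obtain ⟨hPS, haP⟩ := Finset.mem_filter.1 hP
    have hPm := (hS P).1 hPS
    obtain ⟨Q, hQ, hQP⟩ := ((hprime P hPm).inf_le' (s := S2) (f := id)).1 hle
    obtain ⟨hQS, haQ⟩ := Finset.mem_filter.1 hQ
    have hQm := (hS Q).1 hQS
    have : P ≤ Q := hPm.2 hQm.1 hQP
    exact haQ (this haP)
  rw [Set.not_subset] at hJ
  obtain ⟨e, heJ, he⟩ := hJ
  refine ⟨e, fun P hP hmem => ?_⟩
  by_cases haP : a ∈ P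
  · have h1 : e * y ∈ P := by
      have := P.sub_mem hmem haP
      rwa [add_sub_cancel_left] at this
    rcases (hprime P hP).mem_or_mem h1 with h2 | h2
    · apply he
      exact Set.mem_biUnion (Finset.mem_coe.2 (Finset.mem_filter.2 ⟨(hS P).2 hP, haP⟩)) h2
    · apply (hprime P hP).ne_top
      rw [Ideal.eq_top_iff_one, ← h]
      exact P.add_mem (P.mul_mem_left x haP) h2
  · have h2 : J ≤ P := Finset.inf_le (f := id) (Finset.mem_filter.2 ⟨(hS P).2 hP, haP⟩)
    apply haP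
    have := P.sub_mem hmem (P.mul_mem_right y (h2 heJ))
    rwa [add_sub_cancel_right] at this

/-- the quotient has dimension zero -/
theorem quot_dim0 [Ring.KrullDimLE 1 A] (a : A) (ha : ∀ P ∈ minimalPrimes A, a ∉ P) :
    Ring.KrullDimLE 0 (A ⧸ Ideal.span {a}) := by
  rw [Ring.krullDimLE_zero_iff]
  intro Q hQ
  let f := Ideal.Quotient.mk (Ideal.span {a})
  have hf : Function.Surjective f := Ideal.Quotient.mk_surjective
  have hq : (Q.comap f).IsPrime := Ideal.IsPrime.comap f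
  have haq : a ∈ Q.comap f := by
    rw [Ideal.mem_comap]
    have : f a = 0 := Ideal.Quotient.eq_zero_iff_mem.2 (Ideal.mem_span_singleton_self a)
    rw [this]
    exact Q.zero_mem
  rcases (Ring.krullDimLE_one_iff.1 (inferInstance : Ring.KrullDimLE 1 A)) (Q.comap f) hq with h | h
  · exact absurd haq (ha _ h)
  · have h1 := Ideal.map_eq_top_or_isMaximal_of_surjective f hf h
    rw [Ideal.map_comap_of_surjective f hf] at h1
    rcases h1 with h1 | h1
    · exact absurd h1 hQ.ne_top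
    · exact h1

theorem jac_int : IsJacobsonRing ℤ := by
  rw [isJacobsonRing_iff_prime_eq]
  intro P hP
  by_cases h : P = ⊥
  · subst h
    rw [eq_bot_iff]
    intro x hx
    rw [Ideal.mem_jacobson_bot] at hx
    have h1 := hx x
    rw [Int.isUnit_iff] at h1
    rw [Ideal.mem_bot]
    rcases h1 with h1 | h1
    · have : x * x = 0 := by linarith
      exact mul_self_eq_zero.1 this
    · exfalso
      nlinarith [mul_self_nonneg x]
  · have : P.IsMaximal := IsPrime.to_maximal_ideal h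
    exact Ideal.jacobson_eq_self_of_isMaximal

/-- residue fields of finitely generated commutative rings are finite -/
theorem finite_residue {S : Type} [CommRing S] [Algebra.FiniteType ℤ S] (m : Ideal S)
    [hm : m.IsMaximal] : Finite (S ⧸ m) := by
  let F : Field (S ⧸ m) := Ideal.Quotient.field m
  have h0 : Algebra.FiniteType ℤ (S ⧸ m) :=
    Algebra.FiniteType.of_surjective ((Ideal.Quotient.mkₐ S m).restrictScalars ℤ)
      Ideal.Quotient.mk_surjective
  have hJ : IsJacobsonRing ℤ := jac_int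
  have h1 : Module.Finite ℤ (S ⧸ m) := finite_of_finite_type_of_isJacobsonRing ℤ (S ⧸ m)
  obtain ⟨p, hp⟩ := CharP.exists (S ⧸ m)
  rcases Nat.eq_zero_or_pos p with h2 | h2
  · exfalso
    subst h2
    have hc : CharZero (S ⧸ m) := CharP.charP_to_charZero (S ⧸ m)
    have h3 : Function.Injective (algebraMap ℤ (S ⧸ m)) := by
      have : (algebraMap ℤ (S ⧸ m)) = Int.castRingHom (S ⧸ m) := RingHom.ext_int _ _
      rw [this]
      exact RingHom.injective_int _
    have hi : Algebra.IsIntegral ℤ (S ⧸ m) := Algebra.IsIntegral.of_finite ℤ (S ⧸ m)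
    have h4 : IsField ℤ := isField_of_isIntegral_of_isField h3 (Field.toIsField _)
    exact Int.not_isField h4
  · apply Module.finite_of_fg_torsion (S ⧸ m)
    intro x
    refine ⟨⟨(p : ℤ), ?_⟩, ?_⟩
    · rw [mem_nonZeroDivisors_iff_ne_zero]
      exact_mod_cast h2.ne'
    · change (p : ℤ) • x = 0
      rw [zsmul_eq_mul]
      simp

/-- units of a finitely generated ring of dimension zero are torsion -/
theorem torsion_units {B : Type} [CommRing B] [Algebra.FiniteType ℤ B] [Ring.KrullDimLE 0 B]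
    (u v : B) (huv : u * v = 1) : ∃ n : ℕ, 0 < n ∧ u ^ n = 1 := by
  classical
  have hnoe : IsNoetherianRing B := Algebra.FiniteType.isNoetherianRing ℤ B
  have hart : IsArtinianRing B :=
    isArtinianRing_iff_isNoetherianRing_krullDimLE_zero.2 ⟨hnoe, inferInstance⟩
  have hmf : Finite (MaximalSpectrum B) := inferInstance
  have := Fintype.ofFinite (MaximalSpectrum B)
  have hres : ∀ m : MaximalSpectrum B, Finite (B ⧸ m.asIdeal) := by
    intro m
    have := m.isMaximal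
    exact finite_residue m.asIdeal
  have hnilp : ∀ x : B, (∀ m : MaximalSpectrum B, x ∈ m.asIdeal) → IsNilpotent x := by
    intro x hx
    rw [← mem_nilradical, nilradical_eq_sInf, Ideal.mem_sInf]
    intro P hP
    have hP' : P.IsPrime := hP
    exact hx ⟨P, (Ring.krullDimLE_zero_iff.1 inferInstance) P hP'⟩
  let e : MaximalSpectrum B → ℕ := fun m => Nat.card (B ⧸ m.asIdeal)ˣ
  let n : MaximalSpectrum B → ℕ := fun m => Nat.card (B ⧸ m.asIdeal)
  have he0 : ∀ m, 0 < e m := by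
    intro m
    have := hres m
    exact Nat.card_pos
  have hn0 : ∀ m, 0 < n m := by
    intro m
    have := hres m
    exact Nat.card_pos
  have h1 : ∀ m : MaximalSpectrum B, u ^ e m - 1 ∈ m.asIdeal := by
    intro m
    have := hres m
    rw [← Ideal.Quotient.eq_zero_iff_mem, map_sub, map_one, map_pow, sub_eq_zero]
    let U : (B ⧸ m.asIdeal)ˣ :=
      { val := Ideal.Quotient.mk m.asIdeal u
        inv := Ideal.Quotient.mk m.asIdeal v
        val_inv := by rw [← map_mul, huv, map_one]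
        inv_val := by rw [← map_mul, mul_comm, huv, map_one] }
    have h2 : U ^ e m = 1 := pow_card_eq_one'
    exact congrArg Units.val h2
  have h2 : ∀ m : MaximalSpectrum B, ((n m : ℕ) : B) ∈ m.asIdeal := by
    intro m
    have := hres m
    rw [← Ideal.Quotient.eq_zero_iff_mem, map_natCast]
    have h3 : n m • (1 : B ⧸ m.asIdeal) = 0 := by
      have := card_nsmul_eq_zero' (G := B ⧸ m.asIdeal) (x := 1)
      exact this
    rwa [nsmul_eq_mul, mul_one] at h3
  have h3 : IsNilpotent (u ^ (∏ m, e m) - 1) := by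
    apply hnilp
    intro m
    obtain ⟨k, hk⟩ := Finset.dvd_prod_of_mem e (Finset.mem_univ m)
    rw [hk, pow_mul]
    have h4 : (u ^ e m - 1) ∣ ((u ^ e m) ^ k - 1) := by
      have := sub_dvd_pow_sub_pow (u ^ e m) 1 k
      rwa [one_pow] at this
    exact Ideal.mem_of_dvd _ h4 (h1 m)
  have h4 : IsNilpotent (((∏ m, n m : ℕ)) : B) := by
    apply hnilp
    intro m
    obtain ⟨k, hk⟩ := Finset.dvd_prod_of_mem n (Finset.mem_univ m)
    rw [hk, Nat.cast_mul]
    exact Ideal.mul_mem_right _ _ (h2 m)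
  obtain ⟨M, hM⟩ := h4
  obtain ⟨l, hl, h5⟩ := one_add_nil (u ^ (∏ m, e m) - 1) ((∏ m, n m) ^ M)
    (pow_pos (Finset.prod_pos fun m _ => hn0 m) M) (by
      rw [nsmul_eq_mul, Nat.cast_pow, hM, zero_mul]) h3
  refine ⟨(∏ m, e m) * l, Nat.mul_pos (Finset.prod_pos fun m _ => he0 m) hl, ?_⟩
  rw [add_sub_cancel] at h5
  rw [pow_mul, h5]

/-- integral extensions -/
theorem dim1_groupRing [Ring.KrullDimLE 1 A] (C : Type) [CommGroup C] [Finite C] :
    Ring.KrullDimLE 1 (MonoidAlgebra A C) := by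
  have hfin : Module.Finite A (MonoidAlgebra A C) :=
    Module.Finite.of_basis (MonoidAlgebra.basis C A)
  have hint : Algebra.IsIntegral A (MonoidAlgebra A C) := inferInstance
  rw [Ring.krullDimLE_one_iff]
  intro Q hQ
  let q : Ideal A := Q.under A
  have hq : q.IsPrime := inferInstance
  rcases (Ring.krullDimLE_one_iff.1 (inferInstance : Ring.KrullDimLE 1 A)) q hq with h | h
  · left
    refine ⟨⟨hQ, bot_le⟩, ?_⟩
    rintro P ⟨hP, -⟩ hPQ
    have hP' : P.IsPrime := hP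
    have h1 : P.under A ≤ q := Ideal.comap_mono hPQ
    have h2 : q ≤ P.under A := h.2 ⟨inferInstance, bot_le⟩ h1
    have h3 := Algebra.QuasiFinite.eq_of_le_of_under_eq (R := A) P Q hPQ (le_antisymm h1 h2)
    rw [h3]
  · right
    exact Ideal.isMaximal_of_isIntegral_of_isMaximal_comap (R := A) Q h

theorem ft_groupRing [Algebra.FiniteType ℤ A] (C : Type) [CommGroup C] [Finite C] :
    @Algebra.FiniteType ℤ (MonoidAlgebra A C) _ _ (Ring.toIntAlgebra _) := by
  have hfin : Module.Finite A (MonoidAlgebra A C) :=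
    Module.Finite.of_basis (MonoidAlgebra.basis C A)
  have h1 : Algebra.FiniteType A (MonoidAlgebra A C) := inferInstance
  exact ft_int _ _ (Algebra.FiniteType.trans (R := ℤ) (S := A) (A := MonoidAlgebra A C)
    inferInstance h1)

end alg

section K

variable {A : Type} [CommRing A]

theorem d1_step3 {k : ℕ} (M : (Matrix (Fin (k + 3)) (Fin (k + 3)) A)ˣ) (x y : A)
    (h : x * (M : Matrix (Fin (k + 3)) (Fin (k + 3)) A) 0 0 +
      y * (M : Matrix (Fin (k + 3)) (Fin (k + 3)) A) 1 0 = 1) :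
    ∃ M₃ : (Matrix (Fin (k + 3)) (Fin (k + 3)) A)ˣ, cl M₃ = cl M ∧
      (M₃ : Matrix (Fin (k + 3)) (Fin (k + 3)) A) (Fin.succ (Fin.succ 0)) 0 = 1 := by
  set i2 : Fin (k + 3) := Fin.succ (Fin.succ 0) with hi2
  obtain ⟨c₂, hc₂⟩ : ∃ c₂, c₂ = (M : Matrix (Fin (k + 3)) (Fin (k + 3)) A) i2 0 :=
    ⟨_, rfl⟩
  obtain ⟨M₃, hM₃, h₃⟩ := rowAdd M i2 (Fin.cons ((1 - c₂) * x) (Fin.cons ((1 - c₂) * y) (fun _ => 0)))
    (by rw [hi2, Fin.cons_succ, Fin.cons_succ])
  refine ⟨M₃, hM₃, ?_⟩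
  rw [h₃, if_pos rfl, Fin.sum_univ_succ, Fin.sum_univ_succ, ← hc₂]
  simp only [Fin.cons_zero, Fin.cons_succ, zero_mul, Finset.sum_const_zero, add_zero]
  rw [mul_assoc, mul_assoc, ← mul_add]
  have h5 : (Fin.succ 0 : Fin (k + 3)) = 1 := rfl
  rw [h5, h, mul_one, add_sub_cancel]

theorem d1_col {k : ℕ} (M : (Matrix (Fin (k + 1)) (Fin (k + 1)) A)ˣ) :
    ∃ u : Fin (k + 1) → A, ∑ i, u i * (M : Matrix (Fin (k + 1)) (Fin (k + 1)) A) i 0 = 1 := by
  refine ⟨fun i => ((M⁻¹ : (Matrix (Fin (k + 1)) (Fin (k + 1)) A)ˣ) :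
    Matrix (Fin (k + 1)) (Fin (k + 1)) A) 0 i, ?_⟩
  rw [← Matrix.mul_apply, ← Units.val_mul, inv_mul_cancel]
  simp

variable [Algebra.FiniteType ℤ A] [Ring.KrullDimLE 1 A]

theorem d1_stable (k : ℕ) (M : (Matrix (Fin (k + 3)) (Fin (k + 3)) A)ˣ) :
    ∃ M' : (Matrix (Fin (k + 2)) (Fin (k + 2)) A)ˣ, cl M' = cl M := by
  classical
  have hnoe : IsNoetherianRing A := Algebra.FiniteType.isNoetherianRing ℤ A
  -- first step
  obtain ⟨u, hu⟩ := d1_col M
  rw [Fin.sum_univ_succ] at hu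
  obtain ⟨e, he⟩ := avoid _ _ _ hu
  obtain ⟨M₁, hM₁, h₁⟩ := rowAdd M 0 (Fin.cons 0 (fun i => e * u i.succ)) (Fin.cons_zero _ _)
  have ha : (M₁ : Matrix (Fin (k + 3)) (Fin (k + 3)) A) 0 0 =
      (M : Matrix (Fin (k + 3)) (Fin (k + 3)) A) 0 0 +
      e * ∑ i : Fin (k + 2), u i.succ * (M : Matrix (Fin (k + 3)) (Fin (k + 3)) A) i.succ 0 := by
    rw [h₁, if_pos rfl, Fin.sum_univ_succ, Finset.mul_sum]
    simp only [Fin.cons_zero, Fin.cons_succ, zero_mul, zero_add, mul_assoc]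
  rw [← ha] at he
  generalize hadef : (M₁ : Matrix (Fin (k + 3)) (Fin (k + 3)) A) 0 0 = a at he
  -- the quotient
  have hd0 : Ring.KrullDimLE 0 (A ⧸ Ideal.span {a}) := quot_dim0 a he
  have hnoe' : IsNoetherianRing (A ⧸ Ideal.span {a}) := inferInstance
  have hart : IsArtinianRing (A ⧸ Ideal.span {a}) :=
    isArtinianRing_iff_isNoetherianRing_krullDimLE_zero.2 ⟨hnoe', hd0⟩
  let f := Ideal.Quotient.mk (Ideal.span {a})
  have hf : Function.Surjective f := Ideal.Quotient.mk_surjective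
  have hfa : f a = 0 := Ideal.Quotient.eq_zero_iff_mem.2 (Ideal.mem_span_singleton_self a)
  obtain ⟨u₁, hu₁⟩ := d1_col M₁
  rw [Fin.sum_univ_succ, Fin.sum_univ_succ, hadef] at hu₁
  have hu₂ : f (u₁ (Fin.succ 0)) * f ((M₁ : Matrix (Fin (k + 3)) (Fin (k + 3)) A) (Fin.succ 0) 0) +
      f (∑ i : Fin (k + 1), u₁ i.succ.succ *
        (M₁ : Matrix (Fin (k + 3)) (Fin (k + 3)) A) i.succ.succ 0) = 1 := by
    have := congrArg f hu₁
    rw [map_add, map_mul, hfa, mul_zero, zero_add, map_add, map_mul, map_one] at this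
    exact this
  obtain ⟨eb, heb⟩ := exists_unit_add _ _ _ hu₂
  obtain ⟨e', rfl⟩ := hf eb
  obtain ⟨M₂, hM₂, h₂⟩ := rowAdd M₁ (Fin.succ 0)
    (Fin.cons 0 (Fin.cons 0 (fun i => e' * u₁ i.succ.succ))) (by rw [Fin.cons_succ, Fin.cons_zero])
  have ha₂ : (M₂ : Matrix (Fin (k + 3)) (Fin (k + 3)) A) 0 0 = a := by
    rw [h₂, if_neg (Fin.succ_ne_zero 0).symm, add_zero, hadef]
  have hb₂ : f ((M₂ : Matrix (Fin (k + 3)) (Fin (k + 3)) A) (Fin.succ 0) 0) =
      f ((M₁ : Matrix (Fin (k + 3)) (Fin (k + 3)) A) (Fin.succ 0) 0) +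
      f e' * f (∑ i : Fin (k + 1), u₁ i.succ.succ *
        (M₁ : Matrix (Fin (k + 3)) (Fin (k + 3)) A) i.succ.succ 0) := by
    rw [h₂, if_pos rfl, Fin.sum_univ_succ, Fin.sum_univ_succ, ← map_mul, ← map_add, Finset.mul_sum]
    simp only [Fin.cons_zero, Fin.cons_succ, zero_mul, zero_add, mul_assoc]
  rw [← hb₂] at heb
  obtain ⟨U, hU⟩ := heb
  obtain ⟨y, hy⟩ := hf ((U⁻¹ : (A ⧸ Ideal.span {a})ˣ) : A ⧸ Ideal.span {a})
  have h3 : f (y * (M₂ : Matrix (Fin (k + 3)) (Fin (k + 3)) A) (Fin.succ 0) 0 - 1) = 0 := by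
    rw [map_sub, map_mul, hy, ← hU, Units.inv_mul, map_one, sub_self]
  rw [Ideal.Quotient.eq_zero_iff_mem, Ideal.mem_span_singleton] at h3
  obtain ⟨z, hz⟩ := h3
  obtain ⟨M₃, hM₃, h₃⟩ := d1_step3 M₂ (-z) y (by
    have h5 : (Fin.succ 0 : Fin (k + 3)) = 1 := rfl
    rw [ha₂, ← h5]
    linear_combination hz)
  obtain ⟨M', hM'⟩ := step4 M₃ (Fin.succ 0) h₃
  exact ⟨M', by rw [hM', hM₃, hM₂, hM₁]⟩

theorem d1_two (k : ℕ) : ∀ M : (Matrix (Fin (k + 2)) (Fin (k + 2)) A)ˣ,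
    ∃ M' : (Matrix (Fin 2) (Fin 2) A)ˣ, cl M' = cl M := by
  induction k with
  | zero => intro M; exact ⟨M, rfl⟩
  | succ k ih =>
    intro M
    obtain ⟨M', hM'⟩ := d1_stable k M
    obtain ⟨M'', hM''⟩ := ih M'
    exact ⟨M'', hM''.trans hM'⟩

/-- every class comes from `GL₂` -/
theorem d1_GL2 (x : K1 A) : ∃ M : (Matrix (Fin 2) (Fin 2) A)ˣ, x = cl M := by
  obtain ⟨n, M, hM⟩ := K1_exists x
  obtain ⟨M2, hM2⟩ : ∃ M2 : (Matrix (Fin (n + 2)) (Fin (n + 2)) A)ˣ, cl M2 = cl M := by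
    refine ⟨reindexUnit finSumFinEquiv (diagU M (1 : (Matrix (Fin 2) (Fin 2) A)ˣ)), ?_⟩
    rw [cl_reindex, cl_stab]
  obtain ⟨M', hM'⟩ := d1_two n M2
  exact ⟨M', by rw [hM, hM', hM2]⟩

/-- the class of a matrix of determinant one is torsion -/
theorem d1_SL (a b c d : A) (h : a * d - b * c = 1) :
    ∃ s : ℕ, 0 < s ∧ s • cl (SL a b c d h) = 0 := by
  have hnoe : IsNoetherianRing A := Algebra.FiniteType.isNoetherianRing ℤ A
  obtain ⟨e, he⟩ := avoid a d (-(b * c)) (by linear_combination h)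
  obtain ⟨t, ht⟩ : ∃ t, t = -(e * c) := ⟨_, rfl⟩
  have h' : (a + t * b) * d - b * (c + t * d) = 1 := by linear_combination h
  have e0 := cl_SL_col0 a b c d t h h'
  rw [← e0]
  have he' : ∀ P ∈ minimalPrimes A, a + t * b ∉ P := by
    intro P hP
    have := he P hP
    rwa [show a + e * -(b * c) = a + t * b by rw [ht]; ring] at this
  generalize a + t * b = a₁ at *
  generalize c + t * d = c₂ at *
  have hd0 : Ring.KrullDimLE 0 (A ⧸ Ideal.span {a₁}) := quot_dim0 a₁ he'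
  have hft := ft_quot (Ideal.Quotient.mk (Ideal.span {a₁})) Ideal.Quotient.mk_surjective
  let f := Ideal.Quotient.mk (Ideal.span {a₁})
  have hfa : f a₁ = 0 := Ideal.Quotient.eq_zero_iff_mem.2 (Ideal.mem_span_singleton_self a₁)
  have h2 : f b * f (-c₂) = 1 := by
    have := congrArg f h'
    rw [map_sub, map_mul, hfa, zero_mul, zero_sub, map_one] at this
    rw [← map_mul, mul_neg, map_neg, this]
  obtain ⟨s, hs, h3⟩ := @torsion_units _ _ hft _ (f b) (f (-c₂)) h2
  obtain ⟨t', ht'⟩ : ∃ t', b ^ s = 1 + a₁ * t' := by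
    have h4 : f (b ^ s - 1) = 0 := by rw [map_sub, map_pow, h3, map_one, sub_self]
    rw [Ideal.Quotient.eq_zero_iff_mem, Ideal.mem_span_singleton] at h4
    obtain ⟨z, hz⟩ := h4
    exact ⟨z, by rw [← hz]; ring⟩
  refine ⟨s, hs, ?_⟩
  obtain ⟨c', d', h6, e6⟩ := mennicke_pow a₁ b c₂ d h' s
  rw [e6]
  have h7 : a₁ * 0 - 1 * (-1) = 1 := by ring
  have h8 : a₁ * (0 + t' * (-1)) - (1 + t' * a₁) * (-1) = 1 := by ring
  have e8 := cl_SL_col1 a₁ 1 (-1) 0 t' h7 h8
  rw [cl_SL_one] at e8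
  rw [← e8]
  have h9 : a₁ * (0 + t' * (-1)) - b ^ s * (-1) = 1 := by rw [ht']; ring
  rw [cl_SL_row a₁ (b ^ s) c' d' (-1) (0 + t' * (-1)) h6 h9]
  congr 1
  apply Units.ext
  rw [SL_val, SL_val, ht', mul_comm t' a₁]

variable (A) in
/-- `K₁` of a finitely generated ring of dimension at most one is generated by units up to
torsion -/
theorem tor1_dim1 : Tor1 A := by
  intro x
  obtain ⟨w, rfl⟩ := d1_GL2 x
  obtain ⟨δ, hδ⟩ : IsUnit (w : Matrix (Fin 2) (Fin 2) A).det :=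
    (Matrix.isUnit_iff_isUnit_det _).1 w.isUnit
  -- `w = diag(δ, 1) * w'`
  let D : (Matrix (Fin 2) (Fin 2) A)ˣ :=
    { val := !![(δ : A), 0; 0, 1]
      inv := !![((δ⁻¹ : Aˣ) : A), 0; 0, 1]
      val_inv := by
        rw [Matrix.mul_fin_two, Matrix.one_fin_two]; simp
      inv_val := by
        rw [Matrix.mul_fin_two, Matrix.one_fin_two]; simp }
  have hD : cl D = cl (unit1 δ) := by
    rw [← cl_stab_unit (unit1 δ)]
    let e : Fin 2 ≃ Unit ⊕ Unit :=
      { toFun := ![Sum.inl (), Sum.inr ()]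
        invFun := Sum.elim (fun _ => 0) (fun _ => 1)
        left_inv := by intro i; fin_cases i <;> rfl
        right_inv := by rintro (i | i) <;> rfl }
    apply cl_congr e
    intro i j
    rw [diagU_val]
    fin_cases i <;> fin_cases j <;> simp [e, D, unit1]
  set W : Matrix (Fin 2) (Fin 2) A := (w : Matrix (Fin 2) (Fin 2) A) with hW
  rw [Matrix.det_fin_two] at hδ
  have h1 : (((δ⁻¹ : Aˣ) : A) * W 0 0) * W 1 1 - (((δ⁻¹ : Aˣ) : A) * W 0 1) * W 1 0 = 1 := by
    rw [mul_assoc, mul_assoc, ← mul_sub, ← hδ, Units.inv_mul]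
  have h2 : w = D * SL _ _ _ _ h1 := by
    apply Units.ext
    rw [Units.val_mul, SL_val]
    show W = !![(δ : A), 0; 0, 1] * _
    rw [Matrix.mul_fin_two]
    ext i j : 1
    fin_cases i <;> fin_cases j
    · simp
    · simp
    · simp
    · simp
  obtain ⟨s, hs, e⟩ := d1_SL _ _ _ _ h1
  refine ⟨s, δ ^ s, hs, ?_⟩
  rw [h2, cl_mul, smul_add, e, add_zero, hD, ← cl_pow, men_unit1_pow]

end K

/-- the union of finitely generated rings of dimension at most one -/
theorem tor1_union (R : Type) [CommRing R]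
    (h : ∀ s : Finset R, ∃ t : Finset R, s ⊆ t ∧
      Ring.KrullDimLE 1 (Algebra.adjoin ℤ (t : Set R))) (C : Type) [CommGroup C] [Finite C] :
    Tor1 (MonoidAlgebra R C) := by
  intro x
  obtain ⟨n, M, rfl⟩ := K1_exists x
  have h1 := TK.Dsc.ev_lift (fgSys R) C M
  rw [Filter.eventually_atTop] at h1
  obtain ⟨t0, ht0⟩ := h1
  obtain ⟨t, ht, hdim⟩ := h t0
  obtain ⟨M', hM'⟩ := ht0 t ht
  have hd : Ring.KrullDimLE 1 ((fgSys R).A t) := hdim
  have hft : Algebra.FiniteType ℤ ((fgSys R).A t) := fgSys_ft R t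
  have hd' := dim1_groupRing (A := (fgSys R).A t) C
  have hft' := ft_groupRing (A := (fgSys R).A t) C
  obtain ⟨k, u, hk, hu⟩ := @tor1_dim1 (MonoidAlgebra ((fgSys R).A t) C) _ hft' hd' (cl M')
  refine ⟨k, Units.map (TK.Dsc.inc (fgSys R) C t :
    MonoidAlgebra ((fgSys R).A t) C →* MonoidAlgebra R C) u, hk, ?_⟩
  have h2 := congrArg (K1map (TK.Dsc.inc (fgSys R) C t)) hu
  rw [map_nsmul, K1map_cl, K1map_cl, hM'] at h2
  exact h2

end Pool.Agent.L7h58.SK
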