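import Pool.Agent.L7h58.SK.ST

/-!
# The theorem for the classes of units over finitely generated rings
-/

namespace Pool.Agent.L7h58.SK

open H970SH H842 MonoidAlgebra Pool.Agent.Y69 Pool.Agent.Y69.Main

noncomputable section

/-- the fraction field of a finitely generated domain is a finitely generated field -/
theorem field_gen (D K : Type) [CommRing D] [IsDomain D] [Algebra.FiniteType ℤ D] [Field K]
    [Algebra D K] [IsFractionRing D K] : ∃ S : Finset K, Subfield.closure (S : Set K) = ⊤ := by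
  classical
  obtain ⟨s, hs⟩ := (inferInstance : Algebra.FiniteType ℤ D).out
  refine ⟨s.image (algebraMap D K), ?_⟩
  have h1 : ∀ d : D, algebraMap D K d ∈
      Subfield.closure ((s.image (algebraMap D K) : Finset K) : Set K) := by
    intro d
    have hd : d ∈ Algebra.adjoin ℤ (s : Set D) := by rw [hs]; exact Algebra.mem_top
    induction hd using Algebra.adjoin_induction with
    | mem y hy =>
      exact Subfield.subset_closure (by
        rw [Finset.coe_image]
        exact ⟨y, hy, rfl⟩)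
    | algebraMap r =>
      rw [algebraMap_int_eq, eq_intCast, map_intCast]
      exact intCast_mem _ r
    | add a b _ _ ha hb => rw [map_add]; exact Subfield.add_mem _ ha hb
    | mul a b _ _ ha hb => rw [map_mul]; exact Subfield.mul_mem _ ha hb
  rw [eq_top_iff]
  intro x _
  obtain ⟨a, b, hb, rfl⟩ := IsFractionRing.div_surjective (A := D) x
  exact Subfield.div_mem _ (h1 a) (h1 b)

theorem mapRingHom_comp' {A B D : Type} [CommRing A] [CommRing B] [CommRing D] (C : Type)
    [CommGroup C] (g : B →+* D) (f : A →+* B) (x : MonoidAlgebra A C) :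
    mapRingHom C (g.comp f) x = mapRingHom C g (mapRingHom C f x) := by
  ext c
  rw [coeff_mapRingHom, coeff_mapRingHom, coeff_mapRingHom]
  rfl

theorem ft_quot {A D : Type} [CommRing A] [CommRing D] [Algebra.FiniteType ℤ A] (f : A →+* D)
    (hf : Function.Surjective f) : Algebra.FiniteType ℤ D :=
  Algebra.FiniteType.of_surjective f.toIntAlgHom hf

/-- places at the minimal primes -/
theorem place_prime (h1 : S_P1) (h2 : S_P2) (A : Type) [CommRing A] [Algebra.FiniteType ℤ A]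
    (E : ℕ) (hE : 0 < E) (P : Ideal A) [hP : P.IsPrime] : ∃ Q : Pl A E,
      ∀ (C : Type) [CommGroup C] [Finite C], Nat.card C ∣ E → ∀ u : (MonoidAlgebra A C)ˣ,
        Q.b (Additive.ofMul u) = 0 → ∃ k : ℕ, 0 < k ∧
          mapRingHom C (Ideal.Quotient.mk P) (u : MonoidAlgebra A C) ^ k = 1 := by
  have hft := ft_quot (Ideal.Quotient.mk P) Ideal.Quotient.mk_surjective
  -- injectivity
  have key : ∀ (B : Type) [CommRing B] (ψ : (A ⧸ P) →+* B), Function.Injective ψ →
      ∀ (C : Type) [CommGroup C] (u : MonoidAlgebra A C) (k : ℕ),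
      mapRingHom C (ψ.comp (Ideal.Quotient.mk P)) u ^ k = 1 →
      mapRingHom C (Ideal.Quotient.mk P) u ^ k = 1 := by
    intro B _ ψ hψ C _ u k h
    rw [mapRingHom_comp', ← map_pow, ← map_one (mapRingHom C ψ)] at h
    exact MonoidAlgebra.map_injective (ψ : (A ⧸ P) →+ B) hψ h
  obtain ⟨q, hq⟩ := CharP.exists (A ⧸ P)
  rcases CharP.char_is_prime_or_zero (A ⧸ P) q with hq' | rfl
  · have : Fact q.Prime := ⟨hq'⟩
    let K := FractionRing (A ⧸ P)
    have hc : CharP K q := charP_of_injective_algebraMap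
      (IsFractionRing.injective (A ⧸ P) K) q
    obtain ⟨S, hS⟩ := field_gen (A ⧸ P) K
    obtain ⟨Q, hQ⟩ := h2 A q K S hS ((algebraMap (A ⧸ P) K).comp (Ideal.Quotient.mk P)) E hE
    refine ⟨Q, fun C _ _ hC u hu => ?_⟩
    obtain ⟨k, hk, h⟩ := hQ C hC u hu
    exact ⟨k, hk, key K _ (IsFractionRing.injective (A ⧸ P) K) C _ k h⟩
  · have : CharZero (A ⧸ P) := CharP.charP_to_charZero _
    obtain ⟨p, hp, hp2, hpE, ψ, hψ⟩ := TK.Emb.exists_embedding (A := A ⧸ P) E 2 hE
    obtain ⟨Q, hQ⟩ := h1 A p (ψ.comp (Ideal.Quotient.mk P)) E hp2 hpE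
    refine ⟨Q, fun C _ _ hC u hu => ?_⟩
    obtain ⟨k, hk, h⟩ := hQ C hC u hu
    exact ⟨k, hk, key _ _ hψ C _ k h⟩

/-- nilpotent and torsion -/
theorem one_add_nil {S : Type} [CommRing S] (w : S) (n : ℕ) (hn : 0 < n) (hw : n • w = 0)
    (hnil : IsNilpotent w) : ∃ k : ℕ, 0 < k ∧ (1 + w) ^ k = 1 := by
  have key : ∀ m : ℕ, ∃ t : S, (1 + w) ^ n ^ m = 1 + w ^ (m + 1) * t := by
    intro m
    induction m with
    | zero => exact ⟨1, by simp⟩
    | succ m ih =>
      obtain ⟨t, ht⟩ := ih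
      rw [pow_succ, pow_mul, ht]
      obtain ⟨s, hs⟩ := Uni.one_add_pow (w ^ (m + 1) * t) n
      rw [hs]
      refine ⟨w ^ m * t ^ 2 * s, ?_⟩
      have h1 : (n : S) * (w ^ (m + 1) * t) = (n • w) * (w ^ m * t) := by
        rw [nsmul_eq_mul]; ring
      rw [h1, hw]
      ring
  obtain ⟨N, hN⟩ := hnil
  obtain ⟨t, ht⟩ := key N
  refine ⟨n ^ N, pow_pos hn N, ?_⟩
  rw [ht, pow_succ, hN, zero_mul, zero_mul, add_zero]

theorem s_F (h1 : S_P1) (h2 : S_P2) (h3 : S_P3) (hN : S_N) : S_F := by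
  intro A _ hft E hE G _ y hy z hz h0
  classical
  have hnoeth : IsNoetherianRing A := Algebra.FiniteType.isNoetherianRing ℤ A
  have hfin : (minimalPrimes A).Finite := minimalPrimes.finite_of_isNoetherianRing A
  let J1 := {P : Ideal A // P ∈ minimalPrimes A}
  have : Fintype J1 := hfin.fintype
  let J2 := {x : A // ∀ n : ℕ, 0 < n → n • x ≠ 0}
  have hprime : ∀ P : J1, P.1.IsPrime := fun P => P.2.1.1
  have hQ1 : ∀ P : J1, ∃ Q : Pl A E,
      ∀ (C : Type) [CommGroup C] [Finite C], Nat.card C ∣ E → ∀ u : (MonoidAlgebra A C)ˣ,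
        Q.b (Additive.ofMul u) = 0 → ∃ k : ℕ, 0 < k ∧
          mapRingHom C (Ideal.Quotient.mk P.1) (u : MonoidAlgebra A C) ^ k = 1 := by
    intro P
    have := hprime P
    exact place_prime h1 h2 A E hE P.1
  have hQ2 : ∀ x : J2, ∃ Q : Pl A E,
      ∀ (C : Type) [CommGroup C] [Finite C], Nat.card C ∣ E → ∀ u : (MonoidAlgebra A C)ˣ,
        (∀ c, IsNilpotent (((u : MonoidAlgebra A C) - 1).coeff c)) →
        Q.b (Additive.ofMul u) = 0 → ∀ c, ((u : MonoidAlgebra A C) - 1).coeff c ≠ x.1 := by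
    intro x
    obtain ⟨B, _, _, j, π, N, hx, hπ, hπN, hnil⟩ := hN A x.1 x.2
    obtain ⟨Q, hQ⟩ := h3 A B j π N hπ hπN E
    refine ⟨Q, fun C _ _ hC u hu hb c hc => hx ?_⟩
    have h4 := hQ C hC u hb
    have h5 : mapRingHom C (π.comp j) ((u : MonoidAlgebra A C) - 1) =
        mapRingHom C j ((u : MonoidAlgebra A C) - 1) := by
      rw [map_sub, map_sub, h4, map_one, map_one]
    have h6 := congrArg (fun z => z.coeff c) h5
    simp only [coeff_mapRingHom] at h6
    rw [← hc]
    have h7 : (j : A → B) (((u : MonoidAlgebra A C) - 1).coeff c) = 0 := by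
      have h8 := hnil _ (hu c)
      have h9 : π (j (((u : MonoidAlgebra A C) - 1).coeff c)) =
        j (((u : MonoidAlgebra A C) - 1).coeff c) := h6
      rw [← h9, h8]
    exact h7
  choose Q1 hQ1 using hQ1
  choose Q2 hQ2 using hQ2
  refine s_T A E (J1 ⊕ J2) (Sum.elim Q1 Q2) ?_ G y hy z hz h0
  intro C _ _ hC u hu
  have hu1 : ∀ P : J1, ∃ k : ℕ, 0 < k ∧
      mapRingHom C (Ideal.Quotient.mk P.1) (u : MonoidAlgebra A C) ^ k = 1 :=
    fun P => hQ1 P C hC u (hu (Sum.inl P))
  choose k hk hk1 using hu1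
  let K := ∏ P, k P
  have hK : 0 < K := Finset.prod_pos fun P _ => hk P
  let v : (MonoidAlgebra A C)ˣ := u ^ K
  let w : MonoidAlgebra A C := (v : MonoidAlgebra A C) - 1
  have hv1 : ∀ P : J1, mapRingHom C (Ideal.Quotient.mk P.1) w = 0 := by
    intro P
    show mapRingHom C (Ideal.Quotient.mk P.1) (((u ^ K : (MonoidAlgebra A C)ˣ) :
      MonoidAlgebra A C) - 1) = 0
    rw [map_sub, map_one, Units.val_pow_eq_pow_val, map_pow]
    obtain ⟨m, hm⟩ : k P ∣ K := Finset.dvd_prod_of_mem k (Finset.mem_univ P)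
    rw [hm, pow_mul, hk1, one_pow, sub_self]
  have hwnil : ∀ c, IsNilpotent (w.coeff c) := by
    intro c
    rw [← mem_nilradical, nilradical, ← Ideal.sInf_minimalPrimes, Ideal.mem_sInf]
    intro P hP
    have h4 := congrArg (fun z => z.coeff c) (hv1 ⟨P, hP⟩)
    simp only [coeff_mapRingHom] at h4
    exact Ideal.Quotient.eq_zero_iff_mem.1 h4
  have hbv : ∀ i : J1 ⊕ J2, (Sum.elim Q1 Q2 i : Pl A E).b (Additive.ofMul v) = 0 := by
    intro i
    have h5 : ∀ n : ℕ, (Sum.elim Q1 Q2 i : Pl A E).b (Additive.ofMul (u ^ n)) = 0 := by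
      intro n
      induction n with
      | zero =>
        have h6 := (Sum.elim Q1 Q2 i : Pl A E).b_add hC (0 : Additive (MonoidAlgebra A C)ˣ) 0
        rw [add_zero] at h6
        exact left_eq_add.1 h6
      | succ n ih =>
        rw [pow_succ, ofMul_mul, (Sum.elim Q1 Q2 i : Pl A E).b_add hC, ih, hu i, add_zero]
    exact h5 K
  have hwtor : ∀ c, ∃ n : ℕ, 0 < n ∧ n • w.coeff c = 0 := by
    intro c
    by_contra hcon
    push Not at hcon
    exact hQ2 ⟨w.coeff c, hcon⟩ C hC v hwnil (hbv (Sum.inr _)) c rfl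
  choose n hn hn0 using hwtor
  have : Fintype C := Fintype.ofFinite C
  have hw0 : (∏ c, n c) • w = 0 := by
    ext c
    rw [coeff_smul, Finsupp.smul_apply, coeff_zero, Finsupp.zero_apply]
    obtain ⟨m, hm⟩ : n c ∣ ∏ c, n c := Finset.dvd_prod_of_mem n (Finset.mem_univ c)
    rw [hm, mul_comm, mul_smul, hn0, smul_zero]
  have hwn : IsNilpotent w := by
    have h6 : w = ∑ c, single c (w.coeff c) := by
      ext c
      rw [coeff_sum, Finsupp.finsetSum_apply, Finset.sum_eq_single c]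
      · rw [coeff_single, Finsupp.single_eq_same]
      · intro d _ hd
        rw [coeff_single, Finsupp.single_eq_of_ne (Ne.symm hd)]
      · intro h; exact absurd (Finset.mem_univ c) h
    rw [h6, ← mem_nilradical]
    refine Ideal.sum_mem _ fun c _ => ?_
    rw [mem_nilradical]
    obtain ⟨N, hN⟩ := hwnil c
    exact ⟨N, by rw [single_pow, hN, single_zero]⟩
  obtain ⟨l, hl, h7⟩ := one_add_nil w _ (Finset.prod_pos fun c _ => hn c) hw0 hwn
  refine ⟨K * l, Nat.mul_pos hK hl, ?_⟩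
  apply Units.ext
  rw [pow_mul, Units.val_pow_eq_pow_val, Units.val_one]
  have h8 : (1 : MonoidAlgebra A C) + w = (u ^ K : (MonoidAlgebra A C)ˣ) := by
    show 1 + (((u ^ K : (MonoidAlgebra A C)ˣ) : MonoidAlgebra A C) - 1) = _
    ring
  rw [← h8, h7]

end

end Pool.Agent.L7h58.SK
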