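import Pool.Agent.L7h58.SK.K1a
import Pool.Agent.L7h58.SK.SB
import Pool.Agent.L7h58.SK.SF

/-!
# The main theorem over commutative rings
-/

open Matrix

namespace Pool.Agent.L7h58.SK

open H970SH H842 MonoidAlgebra Pool.Agent.Y69 Pool.Agent.Y69.Main Pool.Agent.Y69.TK.Dsc
  Pool.Agent.Y69.TK.UnK

noncomputable section

/-- `K₁` is generated by the units up to torsion -/
def Tor1 (S : Type) [CommRing S] : Prop :=
  ∀ x : K1 S, ∃ (k : ℕ) (u : Sˣ), 0 < k ∧ k • x = cl (unit1 u)

variable {G : Type} [Group G]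

section parts

variable (k : Type) [CommRing k] (G)

/-- the subgroup generated by the classes of units of group rings of finite abelian groups -/
def UP : AddSubgroup (K1Colim k G) :=
  AddSubgroup.closure {z | ∃ (C : Type) (_ : CommGroup C) (_ : Finite C) (φ : C →* G)
    (M : (Matrix (Fin 1) (Fin 1) (MonoidAlgebra k C))ˣ), z = symM k φ (K1.mk M)}

/-- the subgroup generated by the classes of the matrices of determinant one over group rings of
finite cyclic groups -/
def SP : AddSubgroup (K1Colim k G) :=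
  AddSubgroup.closure {z | ∃ (C : Type) (_ : CommGroup C) (_ : Finite C) (_ : IsCyclic C)
    (φ : C →* G) (n : ℕ) (M : (Matrix (Fin n) (Fin n) (MonoidAlgebra k C))ˣ),
      (M : Matrix (Fin n) (Fin n) (MonoidAlgebra k C)).det = 1 ∧ z = symM k φ (K1.mk M)}

theorem SP_le : SP G k ≤ SKE k G := by
  unfold SP SKE
  apply AddSubgroup.closure_mono
  rintro z ⟨C, i1, i2, _, φ, n, M, hM, rfl⟩
  exact ⟨C, i1, i2, φ, n, M, hM, by rw [cl_fin]⟩

end parts

/-- a unit as a `1 × 1` matrix -/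
def um1 {S : Type} [Ring S] (u : Sˣ) : (Matrix (Fin 1) (Fin 1) S)ˣ :=
  Units.map (Matrix.scalar (Fin 1) : S →+* Matrix (Fin 1) (Fin 1) S).toMonoidHom u

theorem cl_um1 {S : Type} [Ring S] (u : Sˣ) : K1.mk (um1 u) = cl (unit1 u) := by
  rw [← cl_fin]
  apply cl_congr (Equiv.ofUnique (Fin 1) Unit)
  intro i j
  obtain rfl := Subsingleton.elim i j
  show (Matrix.scalar (Fin 1) (u : S)) i i = (u : S)
  rw [Matrix.scalar_apply, Matrix.diagonal_apply_eq]

/-- an invertible `1 × 1` matrix is a unit -/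
theorem exists_um1 {S : Type} [CommRing S] (M : (Matrix (Fin 1) (Fin 1) S)ˣ) :
    ∃ u : Sˣ, K1.mk M = cl (unit1 u) := by
  refine ⟨dU M, ?_⟩
  rw [← cl_um1]
  congr 1
  apply Units.ext
  ext i j
  obtain rfl := Subsingleton.elim i 0
  obtain rfl := Subsingleton.elim j 0
  show (M : Matrix (Fin 1) (Fin 1) S) 0 0 =
    (Matrix.scalar (Fin 1) (M : Matrix (Fin 1) (Fin 1) S).det) 0 0
  rw [Matrix.scalar_apply, Matrix.diagonal_apply_eq, Matrix.det_fin_one]

section cov

variable {k : Type} [CommRing k]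

theorem symM_add {C : Type} [CommGroup C] [Finite C] (φ : C →* G) (x y : K1 (MonoidAlgebra k C)) :
    symM k φ (x + y) = symM k φ x + symM k φ y := by
  unfold symM
  rw [map_add, Colim.ι_add]

theorem symM_nsmul {C : Type} [CommGroup C] [Finite C] (φ : C →* G) (m : ℕ)
    (x : K1 (MonoidAlgebra k C)) : symM k φ (m • x) = m • symM k φ x := by
  unfold symM
  rw [map_nsmul]
  exact (Colim.ιHom (G := G) (fun H => K1 (MonoidAlgebra k H))
        (fun φ => K1map (mapDomainRingHom k φ)) (rg φ)).map_nsmul m _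

theorem symM_unit1 {C : Type} [CommGroup C] [Finite C] (φ : C →* G) (u : (MonoidAlgebra k C)ˣ) :
    symM k φ (cl (unit1 u)) = sym k φ (Additive.ofMul u) := by
  unfold symM
  rw [sym_apply, K1map_cl]
  rfl

/-- elements of `UP` -/
theorem UP_SE (x : K1Colim k G) (hx : x ∈ UP G k) : ∃ E : ℕ, 0 < E ∧ x ∈ SE k G E := by
  unfold UP at hx
  induction hx using AddSubgroup.closure_induction with
  | mem z hz =>
    obtain ⟨C, _, _, φ, M, rfl⟩ := hz
    obtain ⟨u, hu⟩ := exists_um1 M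
    rw [hu, symM_unit1]
    have h1 := sym_map k (QuotientGroup.kerLift φ) φ (QuotientGroup.mk' φ.ker) 1
      (fun x => by
        rw [QuotientGroup.mk'_apply, QuotientGroup.kerLift_mk]
        group)
      (Additive.ofMul u)
    rw [← h1]
    exact ⟨Nat.card (C ⧸ φ.ker), Nat.card_pos, AddSubgroup.subset_closure
      ⟨C ⧸ φ.ker, _, inferInstance, dvd_rfl, QuotientGroup.kerLift φ,
        QuotientGroup.kerLift_injective φ, _, rfl⟩⟩
  | zero => exact ⟨1, one_pos, AddSubgroup.zero_mem _⟩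
  | add x y _ _ hx hy =>
    obtain ⟨E, hE, h1⟩ := hx
    obtain ⟨F, hF, h2⟩ := hy
    exact ⟨E * F, Nat.mul_pos hE hF, AddSubgroup.add_mem _ (SE_mono k (dvd_mul_right E F) h1)
      (SE_mono k (dvd_mul_left F E) h2)⟩
  | neg x _ hx =>
    obtain ⟨E, hE, h1⟩ := hx
    exact ⟨E, hE, AddSubgroup.neg_mem _ h1⟩

/-- decompositions -/
def Dec (x : K1Colim k G) : Prop := ∃ m : ℕ, 0 < m ∧ ∃ y ∈ UP G k, ∃ s ∈ SP G k, m • x = y + s

theorem Dec.zero : Dec (0 : K1Colim k G) :=
  ⟨1, one_pos, 0, AddSubgroup.zero_mem _, 0, AddSubgroup.zero_mem _, by simp⟩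

theorem Dec.add {x y : K1Colim k G} (hx : Dec x) (hy : Dec y) : Dec (x + y) := by
  obtain ⟨m, hm, a, ha, b, hb, h1⟩ := hx
  obtain ⟨n, hn, c, hc, d, hd, h2⟩ := hy
  refine ⟨m * n, Nat.mul_pos hm hn, n • a + m • c,
    AddSubgroup.add_mem _ (AddSubgroup.nsmul_mem _ ha n) (AddSubgroup.nsmul_mem _ hc m),
    n • b + m • d,
    AddSubgroup.add_mem _ (AddSubgroup.nsmul_mem _ hb n) (AddSubgroup.nsmul_mem _ hd m), ?_⟩
  have e1 : (m * n) • x = n • (a + b) := by rw [← h1, smul_smul, mul_comm]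
  have e2 : (m * n) • y = m • (c + d) := by rw [← h2, smul_smul]
  rw [smul_add, e1, e2, smul_add, smul_add]
  abel

theorem Dec.neg {x : K1Colim k G} (hx : Dec x) : Dec (-x) := by
  obtain ⟨m, hm, a, ha, b, hb, h1⟩ := hx
  exact ⟨m, hm, -a, AddSubgroup.neg_mem _ ha, -b, AddSubgroup.neg_mem _ hb, by
    rw [smul_neg, h1, neg_add]⟩

theorem Dec.of_nsmul {x : K1Colim k G} (l : ℕ) (hl : 0 < l) (hx : Dec (l • x)) : Dec x := by
  obtain ⟨m, hm, a, ha, b, hb, h1⟩ := hx
  exact ⟨m * l, Nat.mul_pos hm hl, a, ha, b, hb, by rw [mul_smul, h1]⟩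

/-- decomposition of a class over a commutative ring -/
theorem exists_det_one (S : Type) [CommRing S] (x : K1 S) : ∃ (u : Sˣ) (n : ℕ)
    (D : (Matrix (Fin n) (Fin n) S)ˣ), (D : Matrix (Fin n) (Fin n) S).det = 1 ∧
      x = cl (unit1 u) + K1.mk D := by
  obtain ⟨n, M, rfl⟩ := K1_exists x
  let u : Sˣ := dU M
  let D : (Matrix (Fin n ⊕ Unit) (Fin n ⊕ Unit) S)ˣ := diagU M (unit1 u⁻¹)
  have hD : cl D = cl M - cl (unit1 u) := by
    rw [cl_diagU, sub_eq_add_neg]
    congr 1
    rw [eq_neg_iff_add_eq_zero, ← cl_unit1_mul, inv_mul_cancel, cl_unit1_one]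
  have hdet : dU D = 1 := by
    apply Units.ext
    rw [dU_val, diagU_val, Matrix.det_fromBlocks_zero₂₁, Units.val_one]
    have h1 : (unit1 u⁻¹ : Matrix Unit Unit S).det = ((u⁻¹ : Sˣ) : S) := by
      rw [Matrix.det_unique]
      rfl
    rw [h1]
    show ((dU M : Sˣ) : S) * ((u⁻¹ : Sˣ) : S) = 1
    exact u.mul_inv
  let D' := reindexUnit (Fintype.equivFin (Fin n ⊕ Unit)) D
  have hdet' : (D' : Matrix (Fin (Fintype.card (Fin n ⊕ Unit)))
      (Fin (Fintype.card (Fin n ⊕ Unit))) S).det = 1 := by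
    have := congrArg Units.val (dU_reindex (Fintype.equivFin (Fin n ⊕ Unit)) D)
    rw [hdet] at this
    exact this
  refine ⟨u, _, D', hdet', ?_⟩
  have h3 : K1.mk D' = cl D := rfl
  rw [h3, hD]
  abel

/-- classes of matrices over group rings of cyclic groups -/
theorem dec_comm {H : FinSub G} {C : Type} [CommGroup C] [Finite C] [IsCyclic C] (φ : C →* H.1)
    (x : K1 (MonoidAlgebra k C)) :
    Dec (Colim.ι _ _ H (K1map (mapDomainRingHom k φ) x) : K1Colim k G) := by
  -- the inclusion of the image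
  have hmem : ∀ y : (rg (H.1.subtype.comp φ)).1, (y : G) ∈ H.1 := by
    rintro ⟨_, x, rfl⟩
    exact (φ x).2
  let θ : (rg (H.1.subtype.comp φ)).1 →* H.1 :=
    { toFun := fun y => ⟨(y : G), hmem y⟩
      map_one' := rfl
      map_mul' := fun y z => rfl }
  have h3 := Colim.ι_rel (G := G) (fun H => K1 (MonoidAlgebra k H))
    (fun φ => K1map (mapDomainRingHom k φ)) (rg (H.1.subtype.comp φ)) H 1 θ
    (fun y => by
      show (y : G) = 1 * (y : G) * 1⁻¹
      group)
    (K1map (mapDomainRingHom k (rrg (H.1.subtype.comp φ))) x)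
  have h4 : θ.comp (rrg (H.1.subtype.comp φ)) = φ := by
    ext x
    rfl
  rw [K1map_comp, ← mapDomainRingHom_comp, h4] at h3
  rw [h3]
  show Dec (symM k (H.1.subtype.comp φ) x)
  obtain ⟨u, n, D, hD, hx⟩ := exists_det_one (MonoidAlgebra k C) x
  refine ⟨1, one_pos, symM k (H.1.subtype.comp φ) (cl (unit1 u)), ?_,
    symM k (H.1.subtype.comp φ) (K1.mk D), ?_, ?_⟩
  · exact AddSubgroup.subset_closure ⟨C, _, inferInstance, _, um1 u, by rw [cl_um1]⟩
  · exact AddSubgroup.subset_closure ⟨C, _, inferInstance, inferInstance, _, n, D, hD, rfl⟩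
  · rw [one_smul, ← symM_add, ← hx]

/-- every element has a multiple which is a sum of an element of the unit part and an element of
the `SK₁` part -/
theorem dec_all (hC : S_C) (z : K1Colim k G) : Dec z := by
  induction z using Colim.induction with
  | h0 => exact Dec.zero
  | hadd x y hx hy => exact Dec.add hx hy
  | hneg x hx => exact Dec.neg hx
  | hι H x =>
    have := H.2
    obtain ⟨m, hm, h1⟩ := hC k H.1 x
    apply Dec.of_nsmul m hm
    have h2 : m • (Colim.ι _ _ H x : K1Colim k G) = Colim.ι _ _ H (m • x) :=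
      ((Colim.ιHom (G := G) (fun H => K1 (MonoidAlgebra k H))
        (fun φ => K1map (mapDomainRingHom k φ)) H).map_nsmul m _).symm
    rw [h2]
    generalize m • x = y at h1 ⊢
    induction h1 using AddSubgroup.closure_induction with
    | mem y hy =>
      obtain ⟨C, hC, n, M, rfl⟩ := hy
      rw [← K1map_cl]
      exact @dec_comm G _ k _ H C (IsCyclic.commGroup) _ hC C.subtype (cl M)
    | zero =>
      have : (Colim.ι _ _ H (0 : K1 (MonoidAlgebra k H.1)) : K1Colim k G) = 0 :=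
        (Colim.ιHom (G := G) (fun H => K1 (MonoidAlgebra k H))
          (fun φ => K1map (mapDomainRingHom k φ)) H).map_zero
      rw [this]
      exact Dec.zero
    | add x y _ _ hx hy =>
      rw [Colim.ι_add]
      exact Dec.add hx hy
    | neg x _ hx =>
      have : (Colim.ι _ _ H (-x) : K1Colim k G) = - Colim.ι _ _ H x :=
        (Colim.ιHom (G := G) (fun H => K1 (MonoidAlgebra k H))
          (fun φ => K1map (mapDomainRingHom k φ)) H).map_neg x
      rw [this]
      exact Dec.neg hx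

end cov

section desc

variable {A B : Type} [CommRing A] [CommRing B]

theorem cmap_symM (f : A →+* B) {C : Type} [CommGroup C] [Finite C] (φ : C →* G)
    (x : K1 (MonoidAlgebra A C)) :
    cmap f (symM A φ x) = symM B φ (K1map (mapRingHom C f) x) := by
  unfold symM
  rw [cmap_ι, K1map_comp, K1map_comp, mapRing_mapDomain]

theorem cmap_SKE (f : A →+* B) {z : K1Colim A G} (hz : z ∈ SKE A G) : cmap f z ∈ SKE B G := by
  unfold SKE at hz
  induction hz using AddSubgroup.closure_induction with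
  | mem y hy =>
    obtain ⟨C, i1, i2, φ, n, M, hM, rfl⟩ := hy
    rw [cmap_symM, K1map_cl]
    refine AddSubgroup.subset_closure ⟨C, i1, i2, φ, n, mapUnit (mapRingHom C f) M, ?_, rfl⟩
    show ((mapRingHom C f).mapMatrix (M : Matrix (Fin n) (Fin n) (MonoidAlgebra A C))).det = 1
    rw [← RingHom.map_det, hM, map_one]
  | zero => rw [map_zero]; exact AddSubgroup.zero_mem _
  | add x y _ _ hx hy => rw [map_add]; exact AddSubgroup.add_mem _ hx hy
  | neg x _ hx => rw [map_neg]; exact AddSubgroup.neg_mem _ hx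

variable {k : Type} [CommRing k] (S : Sys k)

open Filter in
theorem ev_SKE {z : K1Colim k G} (hz : z ∈ SKE k G) :
    ∀ᶠ t : Finset k in atTop, ∃ z' ∈ SKE (S.A t) G, cmap (S.inA t) z' = z := by
  unfold SKE at hz
  induction hz using AddSubgroup.closure_induction with
  | mem y hy =>
    obtain ⟨C, i1, i2, φ, n, M, hM, rfl⟩ := hy
    filter_upwards [ev_lift S C M] with t ht
    obtain ⟨M', hM'⟩ := ht
    refine ⟨symM _ φ (cl M'), AddSubgroup.subset_closure ⟨C, i1, i2, φ, n, M', ?_, rfl⟩, ?_⟩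
    · apply inc_injective S C t
      have h1 : ((inc S C t).mapMatrix
          (M' : Matrix (Fin n) (Fin n) (MonoidAlgebra (S.A t) C))).det = 1 := by
        have h2 : (inc S C t).mapMatrix (M' : Matrix (Fin n) (Fin n) (MonoidAlgebra (S.A t) C)) =
          (M : Matrix (Fin n) (Fin n) (MonoidAlgebra k C)) := congrArg Units.val hM'
        rw [h2, hM]
      rw [RingHom.map_det, h1, map_one]
    · rw [cmap_symM, K1map_cl]
      show symM k φ (cl (mapUnit (inc S C t) M')) = _
      rw [hM']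
  | zero => exact Eventually.of_forall fun t => ⟨0, AddSubgroup.zero_mem _, map_zero _⟩
  | add x y _ _ hx hy =>
    filter_upwards [hx, hy] with t h1 h2
    obtain ⟨a, ha, rfl⟩ := h1
    obtain ⟨b, hb, rfl⟩ := h2
    exact ⟨a + b, AddSubgroup.add_mem _ ha hb, map_add _ _ _⟩
  | neg x _ hx =>
    filter_upwards [hx] with t h1
    obtain ⟨a, ha, rfl⟩ := h1
    exact ⟨-a, AddSubgroup.neg_mem _ ha, map_neg _ _⟩

end desc

/-- the abstract main theorem -/
theorem main_sysR {k : Type} [CommRing k] (hF : S_F)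
    (S : Sys k) (hS : ∀ s : Finset k, Algebra.FiniteType ℤ (S.A s))
    (x : K1Colim k G) (hx : x ∈ UP G k) (z : K1Colim k G) (hz : z ∈ SKE k G) (n : ℕ) (hn : 0 < n)
    (h0 : n • K1assembly k G (x + z) = 0) : ∃ l : ℕ, 0 < l ∧ l • x = 0 := by
  obtain ⟨E, hE, h1⟩ := UP_SE x hx
  obtain ⟨s, ⟨y, hy, hyx⟩, ⟨w, hw, hwz⟩⟩ := ((ev_SE S G h1).and (ev_SKE S hz)).exists
  have h2 : K1map (inc S G s) (n • K1assembly (S.A s) G (y + w)) = 0 := by
    rw [map_nsmul]
    have h3 := assembly_cmap (S.inA s) (y + w)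
    rw [map_add (cmap (S.inA s)), hyx, hwz] at h3
    show n • K1map (mapRingHom G (S.inA s)) _ = 0
    rw [← h3, h0]
  obtain ⟨t, hst, ht⟩ := descend S G s _ h2
  have h4 : n • cmap (S.inAA hst) y ∈ SE (S.A t) G E :=
    AddSubgroup.nsmul_mem _ (cmap_SE _ hy) n
  have h4' : n • cmap (S.inAA hst) w ∈ SKE (S.A t) G :=
    AddSubgroup.nsmul_mem _ (cmap_SKE _ hw) n
  have := hS t
  obtain ⟨l, hl, h5⟩ := hF (S.A t) E hE G _ h4 _ h4' (by
    rw [← smul_add, ← map_add, map_nsmul, assembly_cmap, ← map_nsmul, ht])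
  have h6 := congrArg (cmap (S.inA t)) h5
  rw [map_nsmul, map_nsmul, map_zero, cmap_cmap, S.comp hst, hyx] at h6
  refine ⟨l * n, Nat.mul_pos hl hn, ?_⟩
  rw [mul_smul]
  exact h6

section sys

variable (k : Type) [CommRing k]

/-- a finitely generated subring -/
def AX (s : Finset k) : Type := Algebra.adjoin ℤ (s : Set k)

instance (s : Finset k) : CommRing (AX k s) :=
  inferInstanceAs (CommRing (Algebra.adjoin ℤ (s : Set k)))

/-- the inclusion -/
def inX (s : Finset k) : AX k s →+* k := (Algebra.adjoin ℤ (s : Set k)).val.toRingHom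

theorem inX_inj (s : Finset k) : Function.Injective (inX k s) := Subtype.val_injective

theorem inX_mem (s : Finset k) (c : k) (hc : c ∈ s) : ∃ a, inX k s a = c :=
  ⟨⟨c, Algebra.subset_adjoin (Finset.mem_coe.2 hc)⟩, rfl⟩

theorem inX_mem2 {s t : Finset k} (h : s ≤ t) (x : AX k s) : ∃ y : AX k t, inX k t y = inX k s x :=
  ⟨⟨x.1, Algebra.adjoin_mono (Finset.coe_subset.2 h) x.2⟩, rfl⟩

/-- the system of finitely generated subrings -/
def fgSys : Sys k where
  A s := AX k s
  ring s := inferInstance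
  inA s := inX k s
  inj s := inX_inj k s
  mem s c hc := inX_mem k s c hc
  inAA {s t} h := TK.KMain.fac (inX k s) (inX k t) (inX_inj k t) (inX_mem2 k h)
  comp {s t} h := TK.KMain.fac_comp (inX k s) (inX k t) (inX_inj k t) (inX_mem2 k h)

theorem ft_int (D : Type) [CommRing D] (inst : Algebra ℤ D)
    (h : @Algebra.FiniteType ℤ D _ _ inst) : Algebra.FiniteType ℤ D := by
  convert h

theorem fgSys_ft (s : Finset k) : Algebra.FiniteType ℤ ((fgSys k).A s) := by
  have h1 : Algebra.FiniteType ℤ (Algebra.adjoin ℤ (s : Set k)) :=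
    (Subalgebra.fg_iff_finiteType _).1 ⟨s, rfl⟩
  exact ft_int (AX k s) _ h1

end sys

/-- the theorem for the unit part -/
theorem main_unit (hF : S_F) (k : Type) [CommRing k] (x : K1Colim k G) (hx : x ∈ UP G k)
    (z : K1Colim k G) (hz : z ∈ SP G k) (n : ℕ) (hn : 0 < n)
    (h0 : n • K1assembly k G (x + z) = 0) : ∃ l : ℕ, 0 < l ∧ l • x = 0 :=
  main_sysR hF (fgSys k) (fgSys_ft k) x hx z (SP_le G k hz) n hn h0

/-- the kernel lies in the `SK₁` part -/
theorem main_ker (hC : S_C) (hF : S_F) (k : Type) [CommRing k] (x : K1Colim k G) (n : ℕ)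
    (hn : 0 < n) (hx : n • K1assembly k G x = 0) : ∃ l : ℕ, 0 < l ∧ l • x ∈ SP G k := by
  obtain ⟨m, hm, y, hy, s, hs, h1⟩ := dec_all hC x
  obtain ⟨l, hl, h2⟩ := main_unit hF k y hy s hs n hn (by
    rw [← h1, map_nsmul, smul_smul, mul_comm, mul_smul, hx, smul_zero])
  refine ⟨l * m, Nat.mul_pos hl hm, ?_⟩
  rw [mul_smul, h1, smul_add, h2, zero_add]
  exact AddSubgroup.nsmul_mem _ hs l

/-- torsion of the `SK₁` part -/
theorem SP_torsion (k : Type) [CommRing k]
    (h : ∀ (C : Type) [CommGroup C] [Finite C] [IsCyclic C] (n : ℕ)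
      (M : (Matrix (Fin n) (Fin n) (MonoidAlgebra k C))ˣ),
      (M : Matrix (Fin n) (Fin n) (MonoidAlgebra k C)).det = 1 →
      ∃ l : ℕ, 0 < l ∧ l • K1.mk M = 0) (x : K1Colim k G) (hx : x ∈ SP G k) :
    ∃ l : ℕ, 0 < l ∧ l • x = 0 := by
  unfold SP at hx
  induction hx using AddSubgroup.closure_induction with
  | mem z hz =>
    obtain ⟨C, _, _, _, φ, n, M, hM, rfl⟩ := hz
    obtain ⟨l, hl, h1⟩ := h C n M hM
    refine ⟨l, hl, ?_⟩
    rw [← symM_nsmul, h1]
    have h2 := symM_nsmul (k := k) φ 0 0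
    rw [zero_smul, zero_smul] at h2
    exact h2
  | zero => exact ⟨1, one_pos, by rw [smul_zero]⟩
  | add x y _ _ hx hy =>
    obtain ⟨l, hl, h1⟩ := hx
    obtain ⟨m, hm, h2⟩ := hy
    refine ⟨l * m, Nat.mul_pos hl hm, ?_⟩
    rw [smul_add, mul_comm, mul_smul, h1, smul_zero, mul_comm, mul_smul, h2, smul_zero, add_zero]
  | neg x _ hx =>
    obtain ⟨l, hl, h1⟩ := hx
    exact ⟨l, hl, by rw [smul_neg, h1, neg_zero]⟩

/-- torsion of `SK₁` -/
theorem tor1_of (S : Type) [CommRing S]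
    (h : ∀ (n : ℕ) (M : (Matrix (Fin n) (Fin n) S)ˣ), (M : Matrix (Fin n) (Fin n) S).det = 1 →
      ∃ k : ℕ, 0 < k ∧ k • K1.mk M = 0) : Tor1 S := by
  intro x
  obtain ⟨n, M, rfl⟩ := K1_exists x
  -- make the size positive
  let u : Sˣ := dU M
  let D : (Matrix (Fin n ⊕ Unit) (Fin n ⊕ Unit) S)ˣ := diagU M (unit1 u⁻¹)
  have hD : cl D = cl M - cl (unit1 u) := by
    rw [cl_diagU, sub_eq_add_neg]
    congr 1
    rw [eq_neg_iff_add_eq_zero, ← cl_unit1_mul, inv_mul_cancel, cl_unit1_one]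
  have hdet : dU D = 1 := by
    apply Units.ext
    rw [dU_val, diagU_val, Matrix.det_fromBlocks_zero₂₁, Units.val_one]
    have h1 : (unit1 u⁻¹ : Matrix Unit Unit S).det = ((u⁻¹ : Sˣ) : S) := by
      rw [Matrix.det_unique]
      rfl
    rw [h1]
    show ((dU M : Sˣ) : S) * ((u⁻¹ : Sˣ) : S) = 1
    exact u.mul_inv
  let D' := reindexUnit (Fintype.equivFin (Fin n ⊕ Unit)) D
  have hdet' : (D' : Matrix (Fin (Fintype.card (Fin n ⊕ Unit)))
      (Fin (Fintype.card (Fin n ⊕ Unit))) S).det = 1 := by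
    have := congrArg Units.val (dU_reindex (Fintype.equivFin (Fin n ⊕ Unit)) D)
    rw [hdet] at this
    exact this
  obtain ⟨k, hk, h2⟩ := h _ D' hdet'
  have h3 : K1.mk D' = cl D := rfl
  rw [h3, hD, smul_sub, sub_eq_zero] at h2
  have h4 : ∀ m : ℕ, m • cl (unit1 u) = cl (unit1 (u ^ m)) := by
    intro m
    induction m with
    | zero => rw [zero_smul, pow_zero, cl_unit1_one]
    | succ m ih => rw [succ_nsmul, pow_succ, cl_unit1_mul, ih]
  exact ⟨k, u ^ k, hk, by rw [h2, h4]⟩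

theorem tor1_semilocal (R : Type) [CommRing R] [Finite (MaximalSpectrum R)] (C : Type)
    [CommGroup C] [Finite C] : Tor1 (MonoidAlgebra R C) := by
  intro x
  have := s_B R C
  obtain ⟨u, hu⟩ := s_A (MonoidAlgebra R C) x
  exact ⟨1, u, one_pos, by rw [one_smul, hu]⟩

end

end Pool.Agent.L7h58.SK
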