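import Pool.Agent.L7h58.SK.Stm

/-!
# `K₁` of commutative semilocal rings, and matrices congruent to `1` modulo the radical
-/

open Matrix

namespace Pool.Agent.L7h58.SK

open H970SH H842 MonoidAlgebra Pool.Agent.Y69 Pool.Agent.Y69.Main

noncomputable section

variable {S : Type} [CommRing S] {n κ : Type} [Fintype n] [DecidableEq n] [Fintype κ]
  [DecidableEq κ]

/-- the determinant as a unit -/
def dU (U : (Matrix n n S)ˣ) : Sˣ := Units.map (Matrix.detMonoidHom : Matrix n n S →* S) U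

theorem dU_val (U : (Matrix n n S)ˣ) : (dU U : S) = (U : Matrix n n S).det := rfl

theorem dU_mul (U V : (Matrix n n S)ˣ) : dU (U * V) = dU U * dU V := map_mul _ _ _

theorem dU_reindex (e : n ≃ κ) (U : (Matrix n n S)ˣ) : dU (reindexUnit e U) = dU U := by
  apply Units.ext
  rw [dU_val, dU_val]
  exact Matrix.det_reindex_self e _

theorem cl_unit1_mul (u v : Sˣ) : cl (unit1 (u * v)) = cl (unit1 u) + cl (unit1 v) := by
  rw [TK.UnK.unit1_mul, cl_mul]

theorem cl_unit1_one : cl (unit1 (1 : Sˣ)) = 0 := by rw [TK.UnK.unit1_one, cl_one]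

/-- elimination -/
theorem cl_block (U : (Matrix (Unit ⊕ κ) (Unit ⊕ κ) S)ˣ) (a : Sˣ)
    (ha : (U : Matrix (Unit ⊕ κ) (Unit ⊕ κ) S) (Sum.inl ()) (Sum.inl ()) = a) :
    ∃ D : (Matrix κ κ S)ˣ, (∀ i j, (D : Matrix κ κ S) i j =
        (U : Matrix (Unit ⊕ κ) (Unit ⊕ κ) S) (Sum.inr i) (Sum.inr j) -
        (U : Matrix (Unit ⊕ κ) (Unit ⊕ κ) S) (Sum.inr i) (Sum.inl ()) * ((a⁻¹ : Sˣ) : S) *
        (U : Matrix (Unit ⊕ κ) (Unit ⊕ κ) S) (Sum.inl ()) (Sum.inr j)) ∧
      cl U = cl (unit1 a) + cl D ∧ dU U = a * dU D := by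
  let M : Matrix (Unit ⊕ κ) (Unit ⊕ κ) S := U
  let r : Matrix Unit κ S := M.toBlocks₁₂
  let c : Matrix κ Unit S := M.toBlocks₂₁
  let D0 : Matrix κ κ S := M.toBlocks₂₂
  let C : Matrix κ Unit S := -(((a⁻¹ : Sˣ) : S) • c)
  let D1 : Matrix κ κ S := C * r + D0
  have hM : M = fromBlocks (unit1 a : Matrix Unit Unit S) r c D0 := by
    rw [← Matrix.fromBlocks_toBlocks M]
    congr 1
    ext i j
    exact ha
  have hV : ((loU C * U : (Matrix (Unit ⊕ κ) (Unit ⊕ κ) S)ˣ) : Matrix (Unit ⊕ κ) (Unit ⊕ κ) S) =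
      fromBlocks (unit1 a : Matrix Unit Unit S) r 0 D1 := by
    rw [Units.val_mul, loU_val]
    show _ * M = _
    rw [hM, fromBlocks_multiply]
    congr 1
    · simp
    · simp
    · ext i j
      simp only [C, Matrix.add_apply, Matrix.mul_apply, Matrix.one_mul]
      simp [unit1]
      rw [mul_right_comm, Units.inv_mul, one_mul]
      simp
    · simp [D1]
  have hlo : (loU C : Matrix (Unit ⊕ κ) (Unit ⊕ κ) S).det = 1 := by
    rw [loU_val, det_fromBlocks_zero₁₂, det_one, det_one, mul_one]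
  have hdet : (a : S) * D1.det = M.det := by
    have h1 := congrArg Matrix.det hV
    rw [Units.val_mul, Matrix.det_mul, hlo, one_mul, det_fromBlocks_zero₂₁] at h1
    rw [show M.det = (U : Matrix (Unit ⊕ κ) (Unit ⊕ κ) S).det from rfl, h1]
    congr 1
    rw [Matrix.det_unique]
    rfl
  have hD1 : IsUnit D1.det := by
    have h2 : IsUnit M.det := (Matrix.isUnit_iff_isUnit_det _).1 U.isUnit
    rw [← hdet] at h2
    exact isUnit_of_mul_isUnit_right h2
  obtain ⟨D, hD⟩ := (Matrix.isUnit_iff_isUnit_det D1).2 hD1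
  refine ⟨D, ?_, ?_, ?_⟩
  · intro i j
    rw [hD]
    simp only [D1, C, r, c, D0, Matrix.add_apply, Matrix.mul_apply]
    simp [M, Matrix.toBlocks₁₂, Matrix.toBlocks₂₁, Matrix.toBlocks₂₂]
    ring
  · have h3 : cl (loU C * U) = cl U := by rw [cl_mul, cl_loU, zero_add]
    rw [← h3]
    apply cl_upper (unit1 a) D r
    rw [hV, hD]
  · apply Units.ext
    rw [Units.val_mul, dU_val, dU_val, hD]
    exact hdet.symm

theorem exists_unit_add [Finite (MaximalSpectrum S)] (a x y : S) (h : x * a + y = 1) :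
    ∃ e : S, IsUnit (a + e * y) := by
  classical
  have hco : Pairwise fun i j : MaximalSpectrum S => IsCoprime i.asIdeal j.asIdeal := by
    intro i j hij
    rw [Ideal.isCoprime_iff_sup_eq]
    exact i.isMaximal.coprime_of_ne j.isMaximal fun h => hij (MaximalSpectrum.ext h)
  obtain ⟨e, he⟩ := Ideal.exists_forall_sub_mem_ideal hco
    (fun m : MaximalSpectrum S => if a ∈ m.asIdeal then (1 : S) else 0)
  refine ⟨e, ?_⟩
  by_contra hu
  obtain ⟨m, hm, ham⟩ := exists_max_ideal_of_mem_nonunits (mem_nonunits_iff.2 hu)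
  have he' := he ⟨m, hm⟩
  dsimp only at he'
  split_ifs at he' with ha
  · -- `e ≡ 1`, `a ∈ m`
    apply hm.ne_top
    rw [Ideal.eq_top_iff_one]
    have h1 : e * y ∈ m := by
      have := m.sub_mem ham ha
      rwa [add_sub_cancel_left] at this
    have h2 : y ∈ m := by
      have h3 : (e - 1) * y ∈ m := m.mul_mem_right _ he'
      have := m.sub_mem h1 h3
      rwa [show e * y - (e - 1) * y = y by ring] at this
    have := m.add_mem (m.mul_mem_left x ha) h2
    rwa [h] at this
  · apply ha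
    rw [sub_zero] at he'
    have := m.sub_mem ham (m.mul_mem_right y he')
    rwa [add_sub_cancel_right] at this

/-- `Fin (n+1)` -/
def eF (n : ℕ) : Fin (n + 1) ≃ Unit ⊕ Fin n :=
  ((finSuccEquiv n).trans (Equiv.optionEquivSumPUnit _)).trans (Equiv.sumComm _ _)

theorem cl_dU_semilocal [Finite (MaximalSpectrum S)] : ∀ (n : ℕ) (U : (Matrix (Fin n) (Fin n) S)ˣ),
    cl U = cl (unit1 (dU U)) := by
  intro n
  induction n with
  | zero =>
    intro U
    have h1 : U = 1 := Subsingleton.elim _ _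
    rw [h1, cl_one]
    have h2 : dU (1 : (Matrix (Fin 0) (Fin 0) S)ˣ) = 1 := map_one _
    rw [h2, cl_unit1_one]
  | succ n ih =>
    intro U
    let V := reindexUnit (eF n) U
    have hVU : cl V = cl U := cl_reindex _ _
    have hdV : dU V = dU U := dU_reindex _ _
    let M : Matrix (Unit ⊕ Fin n) (Unit ⊕ Fin n) S := V
    let N : Matrix (Unit ⊕ Fin n) (Unit ⊕ Fin n) S := (V⁻¹ : (Matrix (Unit ⊕ Fin n) (Unit ⊕ Fin n) S)ˣ)
    have hNM : N * M = 1 := V.inv_mul
    have h1 := congrFun (congrFun hNM (Sum.inl ())) (Sum.inl ())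
    rw [Matrix.mul_apply, Fintype.sum_sum_type, one_apply_eq] at h1
    simp only [Finset.univ_unique, PUnit.default_eq_unit, Finset.sum_singleton] at h1
    obtain ⟨e, he⟩ := exists_unit_add _ _ _ h1
    let r : Matrix Unit (Fin n) S := Matrix.of fun _ j => e * N (Sum.inl ()) (Sum.inr j)
    let W := upU r * V
    have hW : cl W = cl V := by
      show cl (upU r * V) = _
      rw [cl_mul, cl_upU, zero_add]
    have hdW : dU W = dU V := by
      show dU (upU r * V) = _
      rw [dU_mul]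
      have : dU (upU r) = 1 := by
        apply Units.ext
        rw [dU_val, upU_val, det_fromBlocks_zero₂₁, det_one, det_one, mul_one, Units.val_one]
      rw [this, one_mul]
    have ha : (W : Matrix (Unit ⊕ Fin n) (Unit ⊕ Fin n) S) (Sum.inl ()) (Sum.inl ()) = he.unit := by
      show ((upU r * V : (Matrix (Unit ⊕ Fin n) (Unit ⊕ Fin n) S)ˣ) :
        Matrix (Unit ⊕ Fin n) (Unit ⊕ Fin n) S) (Sum.inl ()) (Sum.inl ()) = _
      rw [Units.val_mul, upU_val, Matrix.mul_apply, Fintype.sum_sum_type, IsUnit.unit_spec,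
        Finset.mul_sum]
      simp [r, M, mul_assoc]
    obtain ⟨D, -, hD1, hD2⟩ := cl_block W _ ha
    rw [← hVU, ← hW, hD1, ih D, ← cl_unit1_mul, ← hD2, hdW, hdV]

theorem s_A : S_A := by
  intro S _ _ x
  obtain ⟨n, M, rfl⟩ := K1_exists x
  exact ⟨_, cl_dU_semilocal n M⟩

/-- matrices congruent to `1` modulo an ideal in the radical -/
theorem cl_dU_rad (J : Ideal S) (hJ : ∀ j ∈ J, IsUnit (1 + j)) :
    ∀ (n : ℕ) (U : (Matrix (Fin n) (Fin n) S)ˣ),
    (∀ i k, (U : Matrix (Fin n) (Fin n) S) i k - (1 : Matrix (Fin n) (Fin n) S) i k ∈ J) →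
    cl U = cl (unit1 (dU U)) := by
  intro n
  induction n with
  | zero =>
    intro U _
    have h1 : U = 1 := Subsingleton.elim _ _
    rw [h1, cl_one]
    have h2 : dU (1 : (Matrix (Fin 0) (Fin 0) S)ˣ) = 1 := map_one _
    rw [h2, cl_unit1_one]
  | succ n ih =>
    intro U hU
    let V := reindexUnit (eF n) U
    have hVU : cl V = cl U := cl_reindex _ _
    have hdV : dU V = dU U := dU_reindex _ _
    have hV : ∀ i k, (V : Matrix (Unit ⊕ Fin n) (Unit ⊕ Fin n) S) i k -
        (1 : Matrix (Unit ⊕ Fin n) (Unit ⊕ Fin n) S) i k ∈ J := by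
      intro i k
      have := hU ((eF n).symm i) ((eF n).symm k)
      have h2 : (1 : Matrix (Fin (n + 1)) (Fin (n + 1)) S) ((eF n).symm i) ((eF n).symm k) =
          (1 : Matrix (Unit ⊕ Fin n) (Unit ⊕ Fin n) S) i k := by
        by_cases h : i = k
        · subst h; rw [one_apply_eq, one_apply_eq]
        · rw [one_apply_ne h, one_apply_ne]
          intro h'
          exact h ((eF n).symm.injective h')
      rw [h2] at this
      exact this
    have hu : IsUnit ((V : Matrix (Unit ⊕ Fin n) (Unit ⊕ Fin n) S) (Sum.inl ()) (Sum.inl ())) := by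
      have := hJ _ (hV (Sum.inl ()) (Sum.inl ()))
      rwa [one_apply_eq, add_sub_cancel] at this
    obtain ⟨D, hD0, hD1, hD2⟩ := cl_block V hu.unit hu.unit_spec.symm
    rw [← hVU, hD1, ih D, ← cl_unit1_mul, ← hD2, hdV]
    intro i k
    rw [hD0]
    have h3 := hV (Sum.inr i) (Sum.inr k)
    have h4 : (1 : Matrix (Unit ⊕ Fin n) (Unit ⊕ Fin n) S) (Sum.inr i) (Sum.inr k) =
        (1 : Matrix (Fin n) (Fin n) S) i k := by
      by_cases h : i = k
      · subst h; rw [one_apply_eq, one_apply_eq]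
      · rw [one_apply_ne h, one_apply_ne]
        intro h'
        exact h (Sum.inr_injective h')
    rw [h4] at h3
    have h5 := hV (Sum.inr i) (Sum.inl ())
    rw [one_apply_ne (by simp), sub_zero] at h5
    have := J.sub_mem h3 (J.mul_mem_right ((V : Matrix (Unit ⊕ Fin n) (Unit ⊕ Fin n) S)
      (Sum.inl ()) (Sum.inr k)) (J.mul_mem_right ((hu.unit⁻¹ : Sˣ) : S) h5))
    rw [sub_right_comm] at this
    exact this

end

end Pool.Agent.L7h58.SK
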