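import Mathlib

/-!
# The logarithm on nilpotent ideals of `ℚ`-algebras and traces
-/

open Matrix Polynomial

namespace Pool.Agent.L7h58.SK

noncomputable section

/-- the truncated logarithm of `1 + z` -/
def lg {R : Type} [Ring R] [Algebra ℚ R] (N : ℕ) (z : R) : R :=
  ∑ m ∈ Finset.range N, (((-1) ^ m / (m + 1) : ℚ)) • z ^ (m + 1)

theorem lg_map {R S : Type} [Ring R] [Algebra ℚ R] [Ring S] [Algebra ℚ S] (f : R →+* S) (N : ℕ)
    (z : R) : f (lg N z) = lg N (f z) := by
  unfold lg
  rw [map_sum]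
  refine Finset.sum_congr rfl fun m _ => ?_
  rw [map_rat_smul f, map_pow]

theorem lg_zero {R : Type} [Ring R] [Algebra ℚ R] (N : ℕ) : lg N (0 : R) = 0 := by
  unfold lg
  refine Finset.sum_eq_zero fun m _ => ?_
  rw [zero_pow m.succ_ne_zero, smul_zero]

section poly

variable {R Q : Type} [Ring R] [Algebra ℚ R] [AddCommGroup Q] [Module ℚ Q] (τ : R →+ Q)

/-- the trace of a polynomial -/
def tp : R[X] →+ (ℕ → Q) where
  toFun f := fun n => τ (f.coeff n)
  map_zero' := by funext n; simp
  map_add' f g := by funext n; simp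

theorem tp_apply (f : R[X]) (n : ℕ) : tp τ f n = τ (f.coeff n) := rfl

variable (hτ : ∀ x y, τ (x * y) = τ (y * x))

include hτ in
theorem tp_comm (f g : R[X]) : tp τ (f * g) = tp τ (g * f) := by
  funext n
  rw [tp_apply, tp_apply, coeff_mul, coeff_mul, map_sum, map_sum,
    ← Finset.Nat.sum_antidiagonal_swap]
  refine Finset.sum_congr rfl fun p _ => ?_
  rw [hτ]
  rfl

include hτ in
theorem tp_der_pow (z : R[X]) : ∀ (m : ℕ) (a : R[X]), Commute a z →
    tp τ (a * derivative (z ^ (m + 1))) = (m + 1) • tp τ (a * z ^ m * derivative z) := by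
  intro m
  induction m with
  | zero => intro a _; simp
  | succ m ih =>
    intro a ha
    have h1 : a * derivative (z ^ (m + 1 + 1)) =
        (a * derivative (z ^ (m + 1))) * z + a * z ^ (m + 1) * derivative z := by
      rw [pow_succ z (m + 1), derivative_mul]
      noncomm_ring
    rw [h1, map_add, tp_comm τ hτ _ z, ← mul_assoc, ih (z * a) ((Commute.refl z).mul_left ha)]
    have h2 : z * a * z ^ m * derivative z = a * z ^ (m + 1) * derivative z := by
      rw [← ha.eq, pow_succ']
      simp only [mul_assoc]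
    rw [h2, succ_nsmul _ (m + 1)]

include hτ in
theorem tp_der_lg (N : ℕ) (z : R[X]) : tp τ (derivative (lg N z)) =
    tp τ ((∑ m ∈ Finset.range N, (-z) ^ m) * derivative z) := by
  unfold lg
  rw [map_sum, map_sum, Finset.sum_mul, map_sum]
  refine Finset.sum_congr rfl fun m _ => ?_
  rw [derivative_smul, map_rat_smul (tp τ)]
  have h1 := tp_der_pow τ hτ z m 1 (Commute.one_left z)
  rw [one_mul, one_mul] at h1
  rw [h1, ← Nat.cast_smul_eq_nsmul ℚ, smul_smul, neg_pow z m]
  have h2 : ((-1) ^ m / (m + 1) : ℚ) * ((m + 1 : ℕ) : ℚ) = (-1) ^ m := by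
    have : ((m : ℚ) + 1) ≠ 0 := by positivity
    push_cast
    field_simp
  rw [h2]
  rcases Nat.even_or_odd m with h | h
  · rw [h.neg_one_pow, h.neg_one_pow, one_smul, one_mul]
  · rw [h.neg_one_pow, h.neg_one_pow, neg_smul, one_smul, neg_one_mul, neg_mul, map_neg]

theorem tp_der (f : R[X]) (n : ℕ) : tp τ (derivative f) n = (n + 1) • τ (f.coeff (n + 1)) := by
  rw [tp_apply, coeff_derivative]
  have h : f.coeff (n + 1) * ((n : R) + 1) = (n + 1) • f.coeff (n + 1) := by
    have h0 := (Nat.cast_commute (n + 1) (f.coeff (n + 1))).eq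
    rw [Nat.cast_add, Nat.cast_one] at h0
    rw [nsmul_eq_mul, Nat.cast_add, Nat.cast_one, h0]
  rw [h, map_nsmul]

/-- evaluation at `1` -/
def E1 : R[X] →+* R := eval₂RingHom' (RingHom.id R) 1 (fun a => Commute.one_right a)

theorem E1_eq (f : R[X]) : E1 f = eval 1 f := rfl

theorem E1_C (r : R) : E1 (C r) = r := by rw [E1_eq, eval_C]

theorem E1_X : E1 (X : R[X]) = 1 := by rw [E1_eq, eval_X]

theorem tr_eval (f g : R[X]) (h : ∀ n, τ (f.coeff (n + 1)) = τ (g.coeff (n + 1))) :
    τ (E1 f) - τ (f.coeff 0) = τ (E1 g) - τ (g.coeff 0) := by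
  have key : ∀ (f : R[X]) (M : ℕ), f.natDegree ≤ M → τ (E1 f) - τ (f.coeff 0) =
      ∑ i ∈ Finset.range M, τ (f.coeff (i + 1)) := by
    intro f M hM
    rw [E1_eq, eval_eq_sum_range' (n := M + 1) (by omega), Finset.sum_range_succ', map_add, map_sum,
      pow_zero, mul_one, add_sub_cancel_right]
    refine Finset.sum_congr rfl fun i _ => ?_
    rw [one_pow, mul_one]
  rw [key f (max f.natDegree g.natDegree) (le_max_left _ _),
    key g (max f.natDegree g.natDegree) (le_max_right _ _)]
  exact Finset.sum_congr rfl fun i _ => h i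

/-- geometric series -/
theorem geom_inv {R : Type} [Ring R] (N : ℕ) (z : R) (hz : z ^ N = 0) :
    (1 + z) * (∑ m ∈ Finset.range N, (-z) ^ m) = 1 ∧
      (∑ m ∈ Finset.range N, (-z) ^ m) * (1 + z) = 1 := by
  have h1 : (-z) ^ N = 0 := by rw [neg_pow, hz, mul_zero]
  constructor
  · have h2 := mul_neg_geom_sum (-z) N
    rw [h1, sub_zero, sub_neg_eq_add] at h2
    exact h2
  · have h2 := geom_sum_mul_neg (-z) N
    rw [h1, sub_zero, sub_neg_eq_add] at h2
    exact h2

include hτ in
/-- additivity of the trace of the logarithm -/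
theorem tr_lg_mul (N : ℕ) (x y : R) (hy : y ^ N = 0) (hx : (X * C x : R[X]) ^ N = 0)
    (hxy : ((1 + X * C x) * (1 + C y) - 1 : R[X]) ^ N = 0) :
    τ (lg N ((1 + x) * (1 + y) - 1)) = τ (lg N x) + τ (lg N y) := by
  set z : R[X] := (1 + X * C x) * (1 + C y) - 1 with hz
  set w : R[X] := X * C x with hw
  have hCy : (C y : R[X]) ^ N = 0 := by rw [← C_pow, hy, C_0]
  obtain ⟨g1, g2⟩ := geom_inv N z hxy
  obtain ⟨h1, h2⟩ := geom_inv N w hx
  obtain ⟨k1, k2⟩ := geom_inv N (C y : R[X]) hCy
  set G : R[X] := ∑ m ∈ Finset.range N, (-z) ^ m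
  set H : R[X] := ∑ m ∈ Finset.range N, (-w) ^ m
  set Y : R[X] := ∑ m ∈ Finset.range N, (-(C y : R[X])) ^ m
  have hz1 : 1 + z = (1 + w) * (1 + C y) := by rw [hz]; abel
  have hG : G = Y * H := by
    have e1 : (1 + z) * (Y * H) = 1 := by
      rw [hz1, mul_assoc, ← mul_assoc (1 + C y) Y H, k1, one_mul, h1]
    calc G = G * ((1 + z) * (Y * H)) := by rw [e1, mul_one]
      _ = Y * H := by rw [← mul_assoc, g2, one_mul]
  have hdw : derivative w = C x := by
    rw [hw, derivative_mul, derivative_X, one_mul, derivative_C, mul_zero, add_zero]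
  have hdz : derivative z = C x * (1 + C y) := by
    rw [hz, derivative_sub, derivative_mul, derivative_add, derivative_add, derivative_one, hdw,
      derivative_C]
    simp
  have hmain : tp τ (derivative (lg N z)) = tp τ (derivative (lg N w)) := by
    rw [tp_der_lg τ hτ, tp_der_lg τ hτ]
    show tp τ (G * derivative z) = tp τ (H * derivative w)
    rw [hdz, hdw, hG, ← mul_assoc, tp_comm τ hτ _ (1 + C y), mul_assoc Y H (C x), ← mul_assoc, k1,
      one_mul]
  have hcoef : ∀ n, τ ((lg N z).coeff (n + 1)) = τ ((lg N w).coeff (n + 1)) := by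
    intro n
    have h3 := congrFun hmain n
    rw [tp_der, tp_der, ← Nat.cast_smul_eq_nsmul ℚ, ← Nat.cast_smul_eq_nsmul ℚ] at h3
    have h4 : ((n + 1 : ℕ) : ℚ) ≠ 0 := by positivity
    exact smul_right_injective Q h4 h3
  have h5 := tr_eval τ (lg N z) (lg N w) hcoef
  have e1 : E1 z = (1 + x) * (1 + y) - 1 := by
    rw [hz, hw, map_sub, map_mul, map_add, map_add, map_one, map_mul, E1_X, one_mul, E1_C, E1_C]
  have e2 : E1 w = x := by rw [hw, map_mul, E1_X, one_mul, E1_C]
  have e3 : (lg N z).coeff 0 = lg N y := by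
    have h6 : constantCoeff z = y := by
      rw [hz, hw]
      simp
    rw [← h6, ← lg_map]
    rfl
  have e4 : (lg N w).coeff 0 = 0 := by
    have h6 : constantCoeff w = 0 := by
      rw [hw]
      simp
    have h7 : constantCoeff (lg N w) = 0 := by rw [lg_map, h6, lg_zero]
    exact h7
  rw [lg_map, lg_map, e1, e2, e3, e4, map_zero, sub_zero] at h5
  rw [← h5]
  abel

end poly

/-! ### Filtrations -/

/-- a multiplicative filtration of length `N` -/
structure Fil (R : Type) [Ring R] (N : ℕ) where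
  /-- the subgroups -/
  F : ℕ → AddSubgroup R
  top : ∀ x, x ∈ F 0
  mul : ∀ {a b : ℕ} {x y : R}, x ∈ F a → y ∈ F b → x * y ∈ F (a + b)
  bot : ∀ x ∈ F N, x = 0

namespace Fil

variable {R : Type} [Ring R] {N : ℕ} (Φ : Fil R N)

theorem mul_left {x y : R} (hy : y ∈ Φ.F 1) : x * y ∈ Φ.F 1 := by
  have := Φ.mul (Φ.top x) hy
  rwa [zero_add] at this

theorem mul_right {x y : R} (hx : x ∈ Φ.F 1) : x * y ∈ Φ.F 1 := by
  have := Φ.mul hx (Φ.top y)
  rwa [add_zero] at this

theorem pow {x : R} (hx : x ∈ Φ.F 1) (m : ℕ) : x ^ m ∈ Φ.F m := by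
  induction m with
  | zero => exact Φ.top _
  | succ m ih => rw [pow_succ]; exact Φ.mul ih hx

theorem nil {x : R} (hx : x ∈ Φ.F 1) : x ^ N = 0 := Φ.bot _ (Φ.pow hx N)

/-- polynomials -/
def poly : Fil R[X] N where
  F k :=
    { carrier := {f | ∀ n, f.coeff n ∈ Φ.F k}
      zero_mem' := fun n => by rw [coeff_zero]; exact AddSubgroup.zero_mem _
      add_mem' := fun hf hg n => by rw [coeff_add]; exact AddSubgroup.add_mem _ (hf n) (hg n)
      neg_mem' := fun hf n => by rw [coeff_neg]; exact AddSubgroup.neg_mem _ (hf n) }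
  top f n := Φ.top _
  mul := by
    intro a b f g hf hg n
    rw [coeff_mul]
    exact AddSubgroup.sum_mem _ fun p _ => Φ.mul (hf _) (hg _)
  bot := by
    intro f hf
    ext n
    rw [coeff_zero]
    exact Φ.bot _ (hf n)

/-- matrices -/
def mat (n : Type) [Fintype n] [DecidableEq n] : Fil (Matrix n n R) N where
  F k :=
    { carrier := {M | ∀ i j, M i j ∈ Φ.F k}
      zero_mem' := fun i j => by rw [Matrix.zero_apply]; exact AddSubgroup.zero_mem _
      add_mem' := fun hf hg i j => by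
        rw [Matrix.add_apply]; exact AddSubgroup.add_mem _ (hf i j) (hg i j)
      neg_mem' := fun hf i j => by rw [Matrix.neg_apply]; exact AddSubgroup.neg_mem _ (hf i j) }
  top f i j := Φ.top _
  mul := by
    intro a b f g hf hg i j
    rw [Matrix.mul_apply]
    exact AddSubgroup.sum_mem _ fun p _ => Φ.mul (hf _ _) (hg _ _)
  bot := by
    intro f hf
    ext i j
    rw [Matrix.zero_apply]
    exact Φ.bot _ (hf i j)

theorem tr_lg [Algebra ℚ R] {Q : Type} [AddCommGroup Q] [Module ℚ Q] (τ : R →+ Q)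
    (hτ : ∀ x y, τ (x * y) = τ (y * x)) {x y : R} (hx : x ∈ Φ.F 1) (hy : y ∈ Φ.F 1) :
    τ (lg N ((1 + x) * (1 + y) - 1)) = τ (lg N x) + τ (lg N y) := by
  have hw : (X * C x : R[X]) ∈ Φ.poly.F 1 := by
    intro n
    rw [X_mul_C, coeff_C_mul]
    exact Φ.mul_right hx
  have hc : (C y : R[X]) ∈ Φ.poly.F 1 := by
    intro n
    rw [coeff_C]
    split_ifs
    · exact hy
    · exact AddSubgroup.zero_mem _
  apply tr_lg_mul τ hτ N x y (Φ.nil hy) (Φ.poly.nil hw)
  apply Φ.poly.nil
  have h1 : ((1 + X * C x) * (1 + C y) - 1 : R[X]) = X * C x * (1 + C y) + C y := by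
    noncomm_ring
  rw [h1]
  exact AddSubgroup.add_mem _ (Φ.poly.mul_right hw) hc

end Fil

/-- group rings -/
def Fil.ma {B : Type} [CommRing B] {N : ℕ} (I : Ideal B) (hI : I ^ N = ⊥) (G : Type) [Group G] :
    Fil (MonoidAlgebra B G) N where
  F k :=
    { carrier := {x | ∀ g, x.coeff g ∈ I ^ k}
      zero_mem' := fun g => by
        rw [MonoidAlgebra.coeff_zero, Finsupp.zero_apply]; exact Ideal.zero_mem _
      add_mem' := fun hf hg g => by
        rw [MonoidAlgebra.coeff_add, Finsupp.add_apply]; exact Ideal.add_mem _ (hf g) (hg g)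
      neg_mem' := fun hf g => by
        rw [MonoidAlgebra.coeff_neg, Finsupp.neg_apply]; exact Submodule.neg_mem _ (hf g) }
  top x g := by rw [pow_zero, Ideal.one_eq_top]; exact Submodule.mem_top
  mul := by
    classical
    intro a b x y hx hy g
    show (x * y).coeff g ∈ I ^ (a + b)
    rw [MonoidAlgebra.coeff_mul, Finsupp.sum]
    refine Ideal.sum_mem _ fun c _ => ?_
    rw [Finsupp.sum]
    refine Ideal.sum_mem _ fun d _ => ?_
    split_ifs
    · rw [pow_add]; exact Ideal.mul_mem_mul (hx c) (hy d)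
    · exact Ideal.zero_mem _
  bot := by
    intro x hx
    ext g
    have h := hx g
    rw [hI] at h
    rw [MonoidAlgebra.coeff_zero, Finsupp.zero_apply]
    exact h

end

end Pool.Agent.L7h58.SK
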