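import Pool.Agent.L7h58.SK.Stm

/-!
# Tensor products of integral representations and the statements for Artin induction
-/

open Matrix Kronecker

namespace Pool.Agent.L7h58.SK

open H970SH H842 Pool.Agent.Y69 Pool.Agent.Y69.TP

noncomputable section

/-- the tensor product of integral representations -/
def tens {G : Type} [Group G] {N M : Type} [Fintype N] [DecidableEq N] [Fintype M] [DecidableEq M]
    (ρ : G →* Matrix N N ℤ) (σ : G →* Matrix M M ℤ) : G →* Matrix (N × M) (N × M) ℤ where
  toFun g := ρ g ⊗ₖ σ g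
  map_one' := by rw [map_one, map_one, Matrix.one_kronecker_one]
  map_mul' g h := by rw [map_mul, map_mul, Matrix.mul_kronecker_mul]

theorem tens_apply {G : Type} [Group G] {N M : Type} [Fintype N] [DecidableEq N] [Fintype M]
    [DecidableEq M] (ρ : G →* Matrix N N ℤ) (σ : G →* Matrix M M ℤ) (g : G) (p q : N × M) :
    tens ρ σ g p q = ρ g p.1 q.1 * σ g p.2 q.2 := rfl

/-- (C1) the square of the difference of two commensurable permutation lattices acts as zero -/
def S_C1 : Prop := ∀ (R : Type) [CommRing R] (G : Type) [Group G] (X Y : Type) [MulAction G X]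
  [Fintype X] [DecidableEq X] [MulAction G Y] [Fintype Y] [DecidableEq Y] (ι : Type) [Fintype ι]
  [DecidableEq ι] (w : (Matrix ι ι (MonoidAlgebra R G))ˣ) (P : Matrix X Y ℤ) (Q : Matrix Y X ℤ)
  (δ : ℕ) (_ : 0 < δ) (_ : P * Q = (δ : Matrix X X ℤ)) (_ : Q * P = (δ : Matrix Y Y ℤ))
  (_ : ∀ (g : G) x y, P (g • x) (g • y) = P x y),
    zz (rd R (tens (pm G X) (pm G X))) w + zz (rd R (tens (pm G Y) (pm G Y))) w =
      zz (rd R (tens (pm G X) (pm G Y))) w + zz (rd R (tens (pm G Y) (pm G X))) w

/-- (C2) twisting twice -/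
def S_C2 : Prop := ∀ (R : Type) [CommRing R] (G : Type) [Group G] (N M : Type) [Fintype N]
  [DecidableEq N] [Fintype M] [DecidableEq M] (ρ : G →* Matrix N N ℤ) (σ : G →* Matrix M M ℤ)
  (ι : Type) [Fintype ι] [DecidableEq ι] (w : (Matrix ι ι (MonoidAlgebra R G))ˣ),
    zz (rd R (tens ρ σ)) w = zz (rd R ρ) (blow (rth (rd R σ)) w)

/-- (C3) Artin induction from (C1), (C2) -/
def S_C3 : Prop := S_C1 → S_C2 → S_C

end

end Pool.Agent.L7h58.SK
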