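import Pool.Agent.L7h58.SK.SC0

/-!
# The square of the difference of two commensurable lattices acts as zero on `K₁`
-/

open Matrix Kronecker

namespace Pool.Agent.L7h58.SK

open H970SH H842 Pool.Agent.Y69 Pool.Agent.Y69.TP

noncomputable section

variable {R : Type} [CommRing R] {G : Type} [Group G] {I N M N₁ N₂ : Type} [Fintype I]
  [DecidableEq I] [Fintype N] [DecidableEq N] [Fintype M] [DecidableEq M] [Fintype N₁]
  [DecidableEq N₁] [Fintype N₂] [DecidableEq N₂] {ι : Type} [Fintype ι] [DecidableEq ι]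

theorem rth_congr (ρ : G →* Matrix N N R) (σ : G →* Matrix M M R) (x y : N) (x' y' : M)
    (h : ∀ g, ρ g x y = σ g x' y') (a : MonoidAlgebra R G) : rth ρ a x y = rth σ a x' y' := by
  induction a using MonoidAlgebra.induction_linear with
  | zero => simp
  | add a b ha hb => rw [map_add, Matrix.add_apply, ha, hb, map_add, Matrix.add_apply]
  | single g r => rw [rth_single, rth_single, h]

/-- block lower triangular representations on a sum -/
theorem zz_low (ρ : G →* Matrix (N₁ ⊕ N₂) (N₁ ⊕ N₂) R) (ρ₁ : G →* Matrix N₁ N₁ R)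
    (ρ₂ : G →* Matrix N₂ N₂ R) (C : G → Matrix N₂ N₁ R)
    (h : ∀ g, ρ g = fromBlocks (ρ₁ g) 0 (C g) (ρ₂ g)) (w : (Matrix ι ι (MonoidAlgebra R G))ˣ) :
    zz ρ w = zz ρ₁ w + zz ρ₂ w := by
  unfold zz
  let e : ι × (N₁ ⊕ N₂) ≃ (ι × N₁) ⊕ (ι × N₂) := Equiv.prodSumDistrib ι N₁ N₂
  have e1 : ∀ i x, e.symm (Sum.inl (i, x)) = (i, Sum.inl x) := fun _ _ => rfl
  have e2 : ∀ i x, e.symm (Sum.inr (i, x)) = (i, Sum.inr x) := fun _ _ => rfl
  rw [← cl_reindex e (blow (rth ρ) w)]
  apply cl_lower _ _ (Matrix.of fun (p : ι × N₂) (q : ι × N₁) =>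
    rth ρ ((w : Matrix ι ι (MonoidAlgebra R G)) p.1 q.1) (Sum.inr p.2) (Sum.inl q.2))
  rw [reindexUnit_val]
  ext (⟨i, x⟩ | ⟨i, x⟩) (⟨j, y⟩ | ⟨j, y⟩) : 1
  · rw [Matrix.reindex_apply, Matrix.submatrix_apply, e1, e1,
      Matrix.fromBlocks_apply₁₁, blow_apply, blow_apply]
    exact rth_congr _ _ _ _ _ _ (fun g => by rw [h]; rfl) _
  · rw [Matrix.reindex_apply, Matrix.submatrix_apply, e1, e2,
      Matrix.fromBlocks_apply₁₂, blow_apply, rth_zero ρ _ _ (fun g => by rw [h]; rfl)]
    rfl
  · rw [Matrix.reindex_apply, Matrix.submatrix_apply, e1, e2,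
      Matrix.fromBlocks_apply₂₁, blow_apply]
    rfl
  · rw [Matrix.reindex_apply, Matrix.submatrix_apply, e2, e2,
      Matrix.fromBlocks_apply₂₂, blow_apply, blow_apply]
    exact rth_congr _ _ _ _ _ _ (fun g => by rw [h]; rfl) _

/-- direct sum -/
def dsum (ρ₁ : G →* Matrix N₁ N₁ ℤ) (ρ₂ : G →* Matrix N₂ N₂ ℤ) :
    G →* Matrix (N₁ ⊕ N₂) (N₁ ⊕ N₂) ℤ where
  toFun g := fromBlocks (ρ₁ g) 0 0 (ρ₂ g)
  map_one' := by rw [map_one, map_one, fromBlocks_one]
  map_mul' g h := by rw [map_mul, map_mul, fromBlocks_multiply]; simp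

/-- `τ` is the action on the sublattice with the basis `a x • e x` -/
def Cj (π τ : G →* Matrix I I ℤ) (a : I → ℤ) : Prop := ∀ g x y, π g x y * a y = a x * τ g x y

/-- Mayer-Vietoris -/
theorem mv (π ρa ρb ρg ρl : G →* Matrix I I ℤ) (d a b u v : I → ℤ) (hd : ∀ i, d i ≠ 0)
    (ha : ∀ i, a i ≠ 0) (hb : ∀ i, b i ≠ 0) (huv : ∀ i, u i * a i + v i * b i = 1)
    (h1 : Cj π ρa (fun i => d i * a i)) (h2 : Cj π ρb (fun i => d i * b i)) (h3 : Cj π ρg d)
    (h4 : Cj π ρl (fun i => d i * a i * b i)) (w : (Matrix ι ι (MonoidAlgebra R G))ˣ) :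
    zz (rd R ρa) w + zz (rd R ρb) w = zz (rd R ρg) w + zz (rd R ρl) w := by
  have E1 : ∀ g x y, a x * ρa g x y = ρg g x y * a y := by
    intro g x y
    apply mul_left_cancel₀ (hd x)
    have e1 := h1 g x y
    have e3 := h3 g x y
    simp only at e1
    calc d x * (a x * ρa g x y) = π g x y * (d y * a y) := by rw [e1]; ring
      _ = (π g x y * d y) * a y := by ring
      _ = d x * (ρg g x y * a y) := by rw [e3]; ring
  have E2 : ∀ g x y, b x * ρb g x y = ρg g x y * b y := by
    intro g x y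
    apply mul_left_cancel₀ (hd x)
    have e1 := h2 g x y
    have e3 := h3 g x y
    simp only at e1
    calc d x * (b x * ρb g x y) = π g x y * (d y * b y) := by rw [e1]; ring
      _ = (π g x y * d y) * b y := by ring
      _ = d x * (ρg g x y * b y) := by rw [e3]; ring
  have E3 : ∀ g x y, ρa g x y * b y = b x * ρl g x y := by
    intro g x y
    apply mul_left_cancel₀ (mul_ne_zero (hd x) (ha x))
    have e1 := h1 g x y
    have e3 := h4 g x y
    simp only at e1 e3
    calc d x * a x * (ρa g x y * b y) = (d x * a x * ρa g x y) * b y := by ring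
      _ = π g x y * (d y * a y * b y) := by rw [← e1]; ring
      _ = d x * a x * (b x * ρl g x y) := by rw [e3]; ring
  have E4 : ∀ g x y, ρb g x y * a y = a x * ρl g x y := by
    intro g x y
    apply mul_left_cancel₀ (mul_ne_zero (hd x) (hb x))
    have e1 := h2 g x y
    have e3 := h4 g x y
    simp only at e1 e3
    calc d x * b x * (ρb g x y * a y) = (d x * b x * ρb g x y) * a y := by ring
      _ = π g x y * (d y * a y * b y) := by rw [← e1]; ring
      _ = d x * b x * (a x * ρl g x y) := by rw [e3]; ring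
  let U : Matrix (I ⊕ I) (I ⊕ I) ℤ :=
    fromBlocks (diagonal u) (diagonal b) (diagonal v) (diagonal fun i => -a i)
  let U' : Matrix (I ⊕ I) (I ⊕ I) ℤ :=
    fromBlocks (diagonal a) (diagonal b) (diagonal v) (diagonal fun i => -u i)
  have hdd : ∀ f g : I → ℤ, diagonal f + diagonal g = diagonal fun i => f i + g i :=
    fun f g => diagonal_add f g
  have hU : U * U' = 1 := by
    show fromBlocks _ _ _ _ * fromBlocks _ _ _ _ = _
    rw [fromBlocks_multiply, diagonal_mul_diagonal, diagonal_mul_diagonal, diagonal_mul_diagonal,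
      diagonal_mul_diagonal, diagonal_mul_diagonal, diagonal_mul_diagonal, diagonal_mul_diagonal,
      diagonal_mul_diagonal, hdd, hdd, hdd, hdd, ← fromBlocks_one]
    congr 1
    · rw [← diagonal_one]; congr 1; funext i; rw [← huv i]; ring
    · rw [← diagonal_zero]; congr 1; funext i; ring
    · rw [← diagonal_zero]; congr 1; funext i; ring
    · rw [← diagonal_one]; congr 1; funext i; rw [← huv i]; ring
  have hU' : U' * U = 1 := by
    show fromBlocks _ _ _ _ * fromBlocks _ _ _ _ = _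
    rw [fromBlocks_multiply, diagonal_mul_diagonal, diagonal_mul_diagonal, diagonal_mul_diagonal,
      diagonal_mul_diagonal, diagonal_mul_diagonal, diagonal_mul_diagonal, diagonal_mul_diagonal,
      diagonal_mul_diagonal, hdd, hdd, hdd, hdd, ← fromBlocks_one]
    congr 1
    · rw [← diagonal_one]; congr 1; funext i; rw [← huv i]; ring
    · rw [← diagonal_zero]; congr 1; funext i; ring
    · rw [← diagonal_zero]; congr 1; funext i; ring
    · rw [← diagonal_one]; congr 1; funext i; rw [← huv i]; ring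
  let C : G → Matrix I I ℤ := fun g => Matrix.of fun x y =>
    v x * ρa g x y * u y - u x * ρb g x y * v y
  have hconj : ∀ g, conjR (dsum ρa ρb) U U' hU hU' g = fromBlocks (ρg g) 0 (C g) (ρl g) := by
    intro g
    show U' * fromBlocks (ρa g) 0 0 (ρb g) * U = _
    show fromBlocks _ _ _ _ * _ * fromBlocks _ _ _ _ = _
    rw [fromBlocks_multiply, fromBlocks_multiply]
    simp only [Matrix.mul_zero, add_zero, zero_add]
    congr 1
    · ext x y
      simp only [Matrix.add_apply, mul_diagonal, diagonal_mul]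
      rw [E1, E2]
      calc ρg g x y * a y * u y + ρg g x y * b y * v y
          = ρg g x y * (u y * a y + v y * b y) := by ring
        _ = ρg g x y := by rw [huv, mul_one]
    · ext x y
      simp only [Matrix.add_apply, mul_diagonal, diagonal_mul, Matrix.zero_apply]
      rw [E1, E2]
      ring
    · ext x y
      simp only [Matrix.add_apply, mul_diagonal, diagonal_mul, C, Matrix.of_apply]
      ring
    · ext x y
      simp only [Matrix.add_apply, mul_diagonal, diagonal_mul]
      calc v x * ρa g x y * b y + -u x * ρb g x y * -a y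
          = v x * (ρa g x y * b y) + u x * (ρb g x y * a y) := by ring
        _ = (u x * a x + v x * b x) * ρl g x y := by rw [E3, E4]; ring
        _ = ρl g x y := by rw [huv, one_mul]
  have s1 : zz (rd R (dsum ρa ρb)) w = zz (rd R ρa) w + zz (rd R ρb) w := by
    apply zz_low _ _ _ (fun _ => 0)
    intro g
    show (fromBlocks (ρa g) 0 0 (ρb g)).map (Int.castRingHom R) = _
    rw [fromBlocks_map, Matrix.map_zero _ (map_zero _)]
    rfl
  have s2 : zz (rd R (conjR (dsum ρa ρb) U U' hU hU')) w = zz (rd R ρg) w + zz (rd R ρl) w := by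
    apply zz_low _ _ _ (fun g => (C g).map (Int.castRingHom R))
    intro g
    show (conjR (dsum ρa ρb) U U' hU hU' g).map (Int.castRingHom R) = _
    rw [hconj, fromBlocks_map, Matrix.map_zero _ (map_zero _)]
    rfl
  rw [← s1, ← s2]
  apply zz_sim_int R _ _ U U' hU hU'
  intro g
  show dsum ρa ρb g * U = U * (U' * dsum ρa ρb g * U)
  rw [← Matrix.mul_assoc, ← Matrix.mul_assoc, hU, Matrix.one_mul]

/-- the bilinear relation -/
def DD (w : (Matrix ι ι (MonoidAlgebra R G))ˣ) (ρ τ : G →* Matrix N N ℤ)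
    (σ σ' : G →* Matrix M M ℤ) : Prop :=
  zz (rd R (tens ρ σ)) w + zz (rd R (tens τ σ')) w =
    zz (rd R (tens ρ σ')) w + zz (rd R (tens τ σ)) w

variable (w : (Matrix ι ι (MonoidAlgebra R G))ˣ)

theorem DD.refl₁ (ρ : G →* Matrix N N ℤ) (σ σ' : G →* Matrix M M ℤ) : DD w ρ ρ σ σ' := by
  unfold DD; rw [add_comm]

theorem DD.refl₂ (ρ τ : G →* Matrix N N ℤ) (σ : G →* Matrix M M ℤ) : DD w ρ τ σ σ := rfl

theorem DD.trans₁ {ρ ρ' τ : G →* Matrix N N ℤ} {σ σ' : G →* Matrix M M ℤ}
    (h1 : DD w ρ ρ' σ σ') (h2 : DD w ρ' τ σ σ') : DD w ρ τ σ σ' := by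
  unfold DD at *
  have h3 := congrArg₂ (· + ·) h1 h2
  rw [← sub_eq_zero] at h3 ⊢
  rw [← h3]
  abel

theorem DD.trans₂ {ρ τ : G →* Matrix N N ℤ} {σ σ' σ'' : G →* Matrix M M ℤ}
    (h1 : DD w ρ τ σ σ') (h2 : DD w ρ τ σ' σ'') : DD w ρ τ σ σ'' := by
  unfold DD at *
  have h3 := congrArg₂ (· + ·) h1 h2
  rw [← sub_eq_zero] at h3 ⊢
  rw [← h3]
  abel

theorem tens_Cj {ρ τ : G →* Matrix N N ℤ} {σ σ' : G →* Matrix M M ℤ} {q : N → ℤ} {r : M → ℤ}
    (h1 : Cj ρ τ q) (h2 : Cj σ σ' r) : Cj (tens ρ σ) (tens τ σ') (fun i => q i.1 * r i.2) := by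
  intro g x y
  simp only [tens_apply]
  calc ρ g x.1 y.1 * σ g x.2 y.2 * (q y.1 * r y.2)
      = (ρ g x.1 y.1 * q y.1) * (σ g x.2 y.2 * r y.2) := by ring
    _ = q x.1 * r x.2 * (τ g x.1 y.1 * σ' g x.2 y.2) := by rw [h1, h2]; ring

theorem Cj_one (ρ : G →* Matrix N N ℤ) : Cj ρ ρ (fun _ => 1) := fun g x y => by
  rw [mul_one, one_mul]

theorem Cj_const (ρ : G →* Matrix N N ℤ) (c : ℤ) : Cj ρ ρ (fun _ => c) := fun g x y => mul_comm _ _

theorem Cj_smul {ρ τ : G →* Matrix N N ℤ} {q : N → ℤ} (h : Cj ρ τ q) (c : ℤ) :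
    Cj ρ τ (fun i => c * q i) := fun g x y => by
  have := h g x y
  calc ρ g x y * (c * q y) = c * (ρ g x y * q y) := by ring
    _ = c * q x * τ g x y := by rw [this]; ring

theorem Cj_congr {ρ τ : G →* Matrix N N ℤ} {q q' : N → ℤ} (h : Cj ρ τ q) (e : ∀ i, q i = q' i) :
    Cj ρ τ q' := fun g x y => by rw [← e, ← e]; exact h g x y

open Classical in
/-- two elementary steps -/
theorem DD_elem (p p' : ℕ) (hp : p.Prime) (hp' : p'.Prime) (e : N → Prop) (f : M → Prop)
    (ρ τ : G →* Matrix N N ℤ) (σ σ' : G →* Matrix M M ℤ)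
    (h1 : Cj ρ τ (fun x => if e x then (p : ℤ) else 1))
    (h2 : Cj σ σ' (fun x => if f x then (p' : ℤ) else 1)) : DD w ρ τ σ σ' := by
  have hpZ : Prime (p : ℤ) := Nat.prime_iff_prime_int.1 hp
  have hpZ' : Prime (p' : ℤ) := Nat.prime_iff_prime_int.1 hp'
  let π := tens ρ σ
  have k1 : Cj π (tens ρ σ') (fun i => if f i.2 then (p' : ℤ) else 1) :=
    Cj_congr (tens_Cj (Cj_one ρ) h2) (fun i => by rw [one_mul])
  have k2 : Cj π (tens τ σ) (fun i => if e i.1 then (p : ℤ) else 1) :=
    Cj_congr (tens_Cj h1 (Cj_one σ)) (fun i => by rw [mul_one])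
  have k3 : Cj π (tens τ σ') (fun i => (if e i.1 then (p : ℤ) else 1) *
    (if f i.2 then (p' : ℤ) else 1)) := tens_Cj h1 h2
  by_cases hpp : p = p'
  · subst hpp
    -- the gcd and the lcm
    let d : N × M → ℤ := fun i => if e i.1 ∧ f i.2 then (p : ℤ) else 1
    let l : N × M → ℤ := fun i => if e i.1 ∨ f i.2 then (p : ℤ) else 1
    have hd0 : ∀ i, d i ≠ 0 := by
      intro i; simp only [d]; split_ifs
      · exact hpZ.ne_zero
      · exact one_ne_zero
    have hl0 : ∀ i, l i ≠ 0 := by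
      intro i; simp only [l]; split_ifs
      · exact hpZ.ne_zero
      · exact one_ne_zero
    -- divisibility
    have dv1 : ∀ g x y, e x.1 → ¬ e y.1 → (p : ℤ) ∣ π g x y := by
      intro g x y hx hy
      have := k2 g x y
      simp only [if_pos hx, if_neg hy, mul_one] at this
      rw [this]
      exact dvd_mul_right _ _
    have dv2 : ∀ g x y, f x.2 → ¬ f y.2 → (p : ℤ) ∣ π g x y := by
      intro g x y hx hy
      have := k1 g x y
      simp only [if_pos hx, if_neg hy, mul_one] at this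
      rw [this]
      exact dvd_mul_right _ _
    have hdd : ∀ g x y, d x ∣ π g x y * d y := by
      intro g x y
      simp only [d]
      by_cases hx : e x.1 ∧ f x.2
      · rw [if_pos hx]
        by_cases hy : e y.1 ∧ f y.2
        · rw [if_pos hy]; exact dvd_mul_left _ _
        · rw [if_neg hy, mul_one]
          rw [not_and_or] at hy
          rcases hy with hy | hy
          · exact dv1 g x y hx.1 hy
          · exact dv2 g x y hx.2 hy
      · rw [if_neg hx]; exact one_dvd _
    have hll : ∀ g x y, l x ∣ π g x y * l y := by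
      intro g x y
      simp only [l]
      by_cases hx : e x.1 ∨ f x.2
      · rw [if_pos hx]
        by_cases hy : e y.1 ∨ f y.2
        · rw [if_pos hy]; exact dvd_mul_left _ _
        · rw [if_neg hy, mul_one]
          rw [not_or] at hy
          rcases hx with hx | hx
          · exact dv1 g x y hx hy.1
          · exact dv2 g x y hx hy.2
      · rw [if_neg hx]; exact one_dvd _
    obtain ⟨S, hS⟩ := exists_conj π d hd0 hdd
    obtain ⟨L, hL⟩ := exists_conj π l hl0 hll
    have hS' : Cj π S d := hS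
    have hL' : Cj π L l := hL
    -- first sequence
    have m1 := mv (R := R) π (tens ρ σ') (tens τ σ) S L d
      (fun i => if f i.2 ∧ ¬ e i.1 then (p : ℤ) else 1)
      (fun i => if e i.1 ∧ ¬ f i.2 then (p : ℤ) else 1)
      (fun i => if f i.2 ∧ ¬ e i.1 then 0 else 1)
      (fun i => if f i.2 ∧ ¬ e i.1 then 1 else 0) hd0
      (fun i => by split_ifs; exacts [hpZ.ne_zero, one_ne_zero])
      (fun i => by split_ifs; exacts [hpZ.ne_zero, one_ne_zero])
      (fun i => by by_cases h : e i.1 <;> by_cases h' : f i.2 <;> simp [h, h'])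
      (Cj_congr k1 fun i => by
        by_cases h : e i.1 <;> by_cases h' : f i.2 <;> simp [h, h', d])
      (Cj_congr k2 fun i => by
        by_cases h : e i.1 <;> by_cases h' : f i.2 <;> simp [h, h', d])
      hS'
      (Cj_congr hL' fun i => by
        by_cases h : e i.1 <;> by_cases h' : f i.2 <;> simp [h, h', d, l]) w
    -- second sequence
    have m2 := mv (R := R) π π (tens τ σ') L S l
      (fun i => if e i.1 ∨ f i.2 then 1 else (p : ℤ))
      (fun i => if e i.1 ∧ f i.2 then (p : ℤ) else 1)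
      (fun i => if e i.1 ∨ f i.2 then 1 else 0)
      (fun i => if e i.1 ∨ f i.2 then 0 else 1) hl0
      (fun i => by split_ifs; exacts [one_ne_zero, hpZ.ne_zero])
      (fun i => by split_ifs; exacts [hpZ.ne_zero, one_ne_zero])
      (fun i => by by_cases h : e i.1 <;> by_cases h' : f i.2 <;> simp [h, h'])
      (Cj_congr (Cj_const π (p : ℤ)) fun i => by
        by_cases h : e i.1 <;> by_cases h' : f i.2 <;> simp [h, h', l])
      (Cj_congr k3 fun i => by
        by_cases h : e i.1 <;> by_cases h' : f i.2 <;> simp [h, h', l])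
      hL'
      (Cj_congr (Cj_smul hS' (p : ℤ)) fun i => by
        by_cases h : e i.1 <;> by_cases h' : f i.2 <;> simp [h, h', l, d]) w
    unfold DD
    rw [m1]
    show zz (rd R π) w + _ = _
    rw [m2, add_comm]
  · -- coprime
    have hco : IsCoprime (p' : ℤ) (p : ℤ) := by
      rw [Nat.isCoprime_iff_coprime]
      exact (Nat.coprime_primes hp' hp).2 (Ne.symm hpp)
    have hco2 : ∀ i : N × M, IsCoprime (if f i.2 then (p' : ℤ) else 1)
        (if e i.1 then (p : ℤ) else 1) := by
      intro i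
      split_ifs
      · exact hco
      · exact isCoprime_one_right
      · exact isCoprime_one_left
      · exact isCoprime_one_left
    choose u v huv using hco2
    have m1 := mv (R := R) π (tens ρ σ') (tens τ σ) π (tens τ σ') (fun _ => 1)
      (fun i => if f i.2 then (p' : ℤ) else 1)
      (fun i => if e i.1 then (p : ℤ) else 1) u v (fun _ => one_ne_zero)
      (fun i => by split_ifs; exacts [hpZ'.ne_zero, one_ne_zero])
      (fun i => by split_ifs; exacts [hpZ.ne_zero, one_ne_zero])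
      huv
      (Cj_congr k1 fun i => by rw [one_mul])
      (Cj_congr k2 fun i => by rw [one_mul])
      (Cj_one π)
      (Cj_congr k3 fun i => by rw [one_mul, mul_comm]) w
    exact m1.symm

open Classical in
/-- induction along chains of elementary steps -/
theorem chain (P : (G →* Matrix N N ℤ) → (G →* Matrix N N ℤ) → Prop) (hrefl : ∀ ρ, P ρ ρ)
    (htrans : ∀ ρ σ τ, P ρ σ → P σ τ → P ρ τ)
    (helem : ∀ (p : ℕ) (_ : p.Prime) (e : N → Prop) (ρ τ : G →* Matrix N N ℤ),
      Cj ρ τ (fun x => if e x then (p : ℤ) else 1) → P ρ τ) :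
    ∀ (n : ℕ) (ρ τ : G →* Matrix N N ℤ) (q : N → ℕ), (∀ x, 0 < q x) → (∏ x, q x) = n →
      Cj ρ τ (fun x => (q x : ℤ)) → P ρ τ := by
  intro n
  induction n using Nat.strong_induction_on with
  | _ n ih =>
  intro ρ τ q hq hn h
  by_cases h1 : ∀ x, q x = 1
  · have : ρ = τ := by
      ext g x y
      have h2 := h g x y
      simp only [h1, Nat.cast_one, mul_one, one_mul] at h2
      exact h2
    rw [this]
    exact hrefl τ
  · push Not at h1
    obtain ⟨x0, hx0⟩ := h1
    obtain ⟨p, hp, hpx⟩ := Nat.exists_prime_and_dvd hx0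
    have hpZ : Prime (p : ℤ) := Nat.prime_iff_prime_int.1 hp
    let q' : N → ℤ := fun x => if p ∣ q x then (p : ℤ) else 1
    let q'' : N → ℕ := fun x => if p ∣ q x then q x / p else q x
    have hq' : ∀ x, q' x ≠ 0 := by
      intro x; simp only [q']; split_ifs
      · exact hpZ.ne_zero
      · exact one_ne_zero
    have hqq : ∀ x, (q x : ℤ) = q' x * (q'' x : ℤ) := by
      intro x
      simp only [q', q'']
      split_ifs with h2
      · rw [← Nat.cast_mul, Nat.mul_div_cancel' h2]
      · rw [one_mul]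
    have hdv : ∀ g x y, q' x ∣ ρ g x y * q' y := by
      intro g x y
      simp only [q']
      by_cases hx : p ∣ q x
      · rw [if_pos hx]
        by_cases hy : p ∣ q y
        · rw [if_pos hy]; exact dvd_mul_left _ _
        · rw [if_neg hy, mul_one]
          have h2 : (p : ℤ) ∣ ρ g x y * (q y : ℤ) := by
            have h3 := h g x y
            simp only at h3
            rw [h3]
            exact Dvd.dvd.mul_right (Int.natCast_dvd_natCast.2 hx) _
          exact (hpZ.dvd_or_dvd h2).resolve_right (fun h4 => hy (Int.natCast_dvd_natCast.1 h4))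
      · rw [if_neg hx]; exact one_dvd _
    obtain ⟨τ', hτ'⟩ := exists_conj ρ q' hq' hdv
    refine htrans ρ τ' τ (helem p hp (fun x => p ∣ q x) ρ τ'
      (Cj_congr (show Cj ρ τ' q' from hτ') (fun i => by simp only [q']; congr))) ?_
    have hq''0 : ∀ x, 0 < q'' x := by
      intro x
      simp only [q'']
      split_ifs with h2
      · exact Nat.div_pos (Nat.le_of_dvd (hq x) h2) hp.pos
      · exact hq x
    have hle : ∀ x, q'' x ≤ q x := by
      intro x
      simp only [q'']
      split_ifs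
      · exact Nat.div_le_self _ _
      · exact le_rfl
    have hlt : q'' x0 < q x0 := by
      simp only [q'', if_pos hpx]
      exact Nat.div_lt_self (hq x0) hp.one_lt
    apply ih (∏ x, q'' x) _ τ' τ q'' hq''0 rfl
    · intro g x y
      apply mul_left_cancel₀ (hq' x)
      have h3 := h g x y
      simp only [hqq] at h3
      calc q' x * (τ' g x y * (q'' y : ℤ)) = (q' x * τ' g x y) * (q'' y : ℤ) := by ring
        _ = ρ g x y * (q' y * (q'' y : ℤ)) := by rw [← hτ']; ring
        _ = q' x * ((q'' x : ℤ) * τ g x y) := by rw [h3]; ring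
    · rw [← hn]
      exact Finset.prod_lt_prod (fun x _ => hq''0 x) (fun x _ => hle x)
        ⟨x0, Finset.mem_univ _, hlt⟩

theorem DD_all (ρ τ : G →* Matrix N N ℤ) (σ σ' : G →* Matrix M M ℤ) (q : N → ℕ) (r : M → ℕ)
    (hq : ∀ x, 0 < q x) (hr : ∀ x, 0 < r x) (h1 : Cj ρ τ (fun x => (q x : ℤ)))
    (h2 : Cj σ σ' (fun x => (r x : ℤ))) : DD w ρ τ σ σ' := by
  classical
  refine chain (fun ρ τ => DD w ρ τ σ σ') (fun ρ => DD.refl₁ w ρ σ σ')
    (fun ρ σ τ h h' => DD.trans₁ w h h') ?_ _ ρ τ q hq rfl h1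
  intro p hp e ρ τ h3
  refine chain (fun σ σ' => DD w ρ τ σ σ') (fun σ => DD.refl₂ w ρ τ σ)
    (fun ρ σ τ h h' => DD.trans₂ w h h') ?_ _ σ σ' r hr rfl h2
  intro p' hp' f σ σ' h4
  exact DD_elem w p p' hp hp' e f ρ τ σ σ' h3 h4

/-- isomorphic representations -/
theorem tens_sim {N' M' : Type} [Fintype N'] [DecidableEq N'] [Fintype M'] [DecidableEq M']
    (ρ : G →* Matrix N N ℤ) (ρ' : G →* Matrix N' N' ℤ) (A : Matrix N N' ℤ)
    (A' : Matrix N' N ℤ) (hA : A * A' = 1) (hA' : A' * A = 1) (h1 : ∀ g, ρ g * A = A * ρ' g)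
    (σ : G →* Matrix M M ℤ) (σ' : G →* Matrix M' M' ℤ) (B : Matrix M M' ℤ)
    (B' : Matrix M' M ℤ) (hB : B * B' = 1) (hB' : B' * B = 1) (h2 : ∀ g, σ g * B = B * σ' g) :
    zz (rd R (tens ρ σ)) w = zz (rd R (tens ρ' σ')) w := by
  apply zz_sim_int R (tens ρ σ) (tens ρ' σ') (A ⊗ₖ B) (A' ⊗ₖ B')
  · rw [← Matrix.mul_kronecker_mul, hA, hB, Matrix.one_kronecker_one]
  · rw [← Matrix.mul_kronecker_mul, hA', hB', Matrix.one_kronecker_one]
  · intro g
    show (ρ g ⊗ₖ σ g) * (A ⊗ₖ B) = (A ⊗ₖ B) * (ρ' g ⊗ₖ σ' g)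
    rw [← Matrix.mul_kronecker_mul, ← Matrix.mul_kronecker_mul, h1, h2]

theorem s_C1 : S_C1 := by
  intro R _ G _ X Y _ _ _ _ _ _ ι _ _ w P Q δ hδ hPQ hQP hinv
  have hδ' : (δ : ℤ) ≠ 0 := by exact_mod_cast hδ.ne'
  obtain ⟨A, A', C, C', a, hA, hA', hC, hC', ha, hP⟩ := smith P Q δ hδ'
    (by rw [hPQ, natCast_zsmul, nsmul_eq_mul, mul_one])
    (by rw [hQP, natCast_zsmul, nsmul_eq_mul, mul_one])
  have h3 : ∀ g, pm G X g * P = P * pm G Y g := by
    intro g
    ext x y
    rw [Matrix.mul_apply, Matrix.mul_apply, Finset.sum_eq_single (g⁻¹ • x),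
      Finset.sum_eq_single (g • y)]
    · show (if g • g⁻¹ • x = x then (1 : ℤ) else 0) * _ = _ * (if g • y = g • y then (1 : ℤ) else 0)
      rw [if_pos (smul_inv_smul g x), if_pos rfl, one_mul, mul_one, ← hinv g (g⁻¹ • x) y,
        smul_inv_smul]
    · intro z _ hz
      show _ * (if g • y = z then (1 : ℤ) else 0) = 0
      rw [if_neg (Ne.symm hz), mul_zero]
    · intro h; exact absurd (Finset.mem_univ _) h
    · intro z _ hz
      show (if g • z = x then (1 : ℤ) else 0) * _ = 0
      rw [if_neg, zero_mul]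
      intro h
      apply hz
      rw [← h, inv_smul_smul]
    · intro h; exact absurd (Finset.mem_univ _) h
  -- signs
  let s : X → ℤ := fun x => (a x).sign
  have hss : ∀ x, s x * s x = 1 := by
    intro x
    simp only [s]
    rcases lt_or_gt_of_ne (ha x) with h | h
    · rw [Int.sign_eq_neg_one_of_neg h]; norm_num
    · rw [Int.sign_eq_one_of_pos h]; norm_num
  have hsa : ∀ x, (a x) = s x * ((a x).natAbs : ℤ) := fun x => (Int.sign_mul_natAbs (a x)).symm
  have hdd : diagonal s * diagonal s = 1 := by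
    rw [diagonal_mul_diagonal, ← diagonal_one]
    congr 1
    funext x
    exact hss x
  let C1 : Matrix Y X ℤ := C * diagonal s
  let C1' : Matrix X Y ℤ := diagonal s * C'
  have hC1 : C1 * C1' = 1 := by
    show C * diagonal s * (diagonal s * C') = 1
    rw [Matrix.mul_assoc, ← Matrix.mul_assoc (diagonal s), hdd, Matrix.one_mul, hC]
  have hC1' : C1' * C1 = 1 := by
    show diagonal s * C' * (C * diagonal s) = 1
    rw [Matrix.mul_assoc, ← Matrix.mul_assoc C', hC', Matrix.one_mul, hdd]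
  let ρ := conjR (pm G X) A A' hA hA'
  let τ := conjR (pm G Y) C1 C1' hC1 hC1'
  have hρ : ∀ g, pm G X g * A = A * ρ g := by
    intro g
    show _ = A * (A' * pm G X g * A)
    rw [← Matrix.mul_assoc, ← Matrix.mul_assoc, hA, Matrix.one_mul]
  have hτ : ∀ g, pm G Y g * C1 = C1 * τ g := by
    intro g
    calc pm G Y g * C1 = (C1 * C1') * pm G Y g * C1 := by rw [hC1, Matrix.one_mul]
      _ = C1 * (C1' * pm G Y g * C1) := by simp only [Matrix.mul_assoc]
  have hcj : Cj ρ τ (fun x => ((a x).natAbs : ℤ)) := by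
    intro g x y
    have h4 : ρ g * diagonal a = diagonal a * (C' * pm G Y g * C) := by
      calc (A' * pm G X g * A) * Matrix.diagonal a = A' * pm G X g * (A * Matrix.diagonal a) := by
            simp only [Matrix.mul_assoc]
        _ = A' * (pm G X g * P) * C := by rw [← hP]; simp only [Matrix.mul_assoc]
        _ = A' * P * (1 : Matrix Y Y ℤ) * pm G Y g * C := by
            rw [h3]; simp only [Matrix.mul_assoc, Matrix.one_mul]
        _ = A' * (P * C) * C' * pm G Y g * C := by rw [← hC]; simp only [Matrix.mul_assoc]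
        _ = (A' * A) * Matrix.diagonal a * (C' * pm G Y g * C) := by
            rw [hP]; simp only [Matrix.mul_assoc]
        _ = _ := by rw [hA', Matrix.one_mul]
    have h5 := congrFun (congrFun h4 x) y
    rw [Matrix.mul_diagonal, Matrix.diagonal_mul] at h5
    have h6 : τ g x y = s x * (C' * pm G Y g * C) x y * s y := by
      have h7 : τ g = diagonal s * (C' * pm G Y g * C) * diagonal s := by
        show diagonal s * C' * pm G Y g * (C * diagonal s) = _
        simp only [Matrix.mul_assoc]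
      rw [h7, Matrix.mul_diagonal, Matrix.diagonal_mul]
    show ρ g x y * ((a y).natAbs : ℤ) = ((a x).natAbs : ℤ) * τ g x y
    rw [h6]
    have e1 : ((a y).natAbs : ℤ) = a y * s y := by
      conv_rhs => rw [hsa y]
      rw [mul_comm (s y), mul_assoc, hss, mul_one]
    have e2 : ((a x).natAbs : ℤ) = a x * s x := by
      conv_rhs => rw [hsa x]
      rw [mul_comm (s x), mul_assoc, hss, mul_one]
    rw [e1, e2]
    calc ρ g x y * (a y * s y) = (ρ g x y * a y) * s y := by ring
      _ = a x * (C' * pm G Y g * C) x y * s y := by rw [h5]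
      _ = a x * (s x * s x) * (C' * pm G Y g * C) x y * s y := by rw [hss, mul_one]
      _ = _ := by ring
  have hpos : ∀ x, 0 < (a x).natAbs := fun x => Int.natAbs_pos.2 (ha x)
  have hD := DD_all w ρ τ ρ τ _ _ hpos hpos hcj hcj
  unfold DD at hD
  rw [tens_sim w (pm G X) ρ A A' hA hA' hρ (pm G X) ρ A A' hA hA' hρ,
    tens_sim w (pm G Y) τ C1 C1' hC1 hC1' hτ (pm G Y) τ C1 C1' hC1 hC1' hτ,
    tens_sim w (pm G X) ρ A A' hA hA' hρ (pm G Y) τ C1 C1' hC1 hC1' hτ,
    tens_sim w (pm G Y) τ C1 C1' hC1 hC1' hτ (pm G X) ρ A A' hA hA' hρ]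
  exact hD

end

end Pool.Agent.L7h58.SK
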