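import Pool.Agent.L7h58.SK.Stm

/-!
# The separation theorem for a family of places
-/

namespace Pool.Agent.L7h58.SK

open H970SH H842 MonoidAlgebra Pool.Agent.Y69 Pool.Agent.Y69.Main Pool.Agent.Y69.StepC

noncomputable section

variable {A : Type} [CommRing A] {E : ℕ} {I : Type} (P : I → Pl A E)

/-- the theory of a family of places -/
def thy (ht : ∀ (C : Type) [CommGroup C] [Finite C], Nat.card C ∣ E → ∀ u : (MonoidAlgebra A C)ˣ,
    (∀ i, (P i).b (Additive.ofMul u) = 0) → ∃ k : ℕ, 0 < k ∧ u ^ k = 1) :
    Theory (∀ i, (P i).Λ) E where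
  U C _ := Additive (MonoidAlgebra A C)ˣ
  grp C _ := inferInstance
  map f := Thy.umap A f
  b u c := fun i => (P i).b u c
  b_add := by
    intro C _ _ hC u v
    funext c i
    exact congrFun ((P i).b_add hC u v) c
  b_map := by
    intro C D _ _ _ _ hD f hf u c
    funext i
    exact (P i).b_map hD f hf u c
  b_map_not := by
    intro C D _ _ _ _ hD f hf u d hd
    funext i
    exact (P i).b_map_not hD f hf u d hd
  res := by
    intro C _ _ hC D u
    classical
    have : Fintype (C ⧸ D) := Fintype.ofFinite _
    refine ⟨Fintype.card (C ⧸ D), Additive.ofMul (Units.map (Tra.nrm A D) u.toMul),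
      Fintype.card_pos, ?_⟩
    intro d
    funext i
    exact (P i).b_nrm hC D u d
  tors := by
    intro C _ _ hC u hu
    obtain ⟨k, hk, h⟩ := ht C hC u.toMul (fun i => by
      funext c
      exact congrFun (congrFun hu c) i)
    refine ⟨k, hk, ?_⟩
    apply Additive.toMul.injective
    rw [toMul_nsmul, toMul_zero, h]

open Classical in
/-- the traces -/
def TTr (G : Type) [Group G] (h : G → ℤ) : K1 (MonoidAlgebra A G) →+ ∀ i, (P i).Λ :=
  if hh : ∀ x y, h (x * y) = h (y * x) then
    AddMonoidHom.pi fun i => ((P i).tr h hh).choose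
  else 0

theorem assembly_symM {G : Type} [Group G] {C : Type} [CommGroup C] [Finite C] (φ : C →* G)
    (x : K1 (MonoidAlgebra A C)) :
    K1assembly A G (symM A φ x) = K1map (mapDomainRingHom A φ) x := by
  unfold symM
  rw [K1assembly_ι, K1map_comp, ← mapDomainRingHom_comp]
  rfl

/-- the traces vanish on the classes of the matrices of determinant one -/
theorem TTr_SKE (G : Type) [Group G] (h : G → ℤ) (z : K1Colim A G) (hz : z ∈ SKE A G) :
    TTr P G h (K1assembly A G z) = 0 := by
  unfold TTr
  split_ifs with hh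
  · unfold SKE at hz
    induction hz using AddSubgroup.closure_induction with
    | mem z hz =>
      obtain ⟨C, _, _, φ, n, M, hM, rfl⟩ := hz
      funext i
      rw [assembly_symM, K1map_cl]
      exact ((P i).tr h hh).choose_spec.2 C φ n M hM
    | zero => rw [map_zero, map_zero]
    | add x y _ _ hx hy => rw [map_add, map_add, hx, hy, add_zero]
    | neg x _ hx => rw [map_neg, map_neg, hx, neg_zero]
  · rfl

theorem s_T : S_T := by
  intro A _ E I P ht G _ y hy z hz h0
  refine Theory.main (S := thy P ht) (G := G) (𝒜 := K1Colim A G)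
    (fun {C} _ _ φ => sym A φ) ?_ (fun h => (TTr P G h).comp (K1assembly A G)) ?_ hy ?_
  · intro C D _ _ _ _ φ ψ f g h u
    exact sym_map A φ ψ f g h u
  · intro h hh C _ _ hC φ u
    have h1 : ∀ u : Additive (MonoidAlgebra A C)ˣ, TTr P G h (K1assembly A G (sym A φ u)) =
        ∑ c, (fun i => (P i).b u c) * ((h (φ c) : ℤ) : ∀ i, (P i).Λ) := by
      intro u
      funext i
      unfold TTr
      rw [dif_pos hh, assembly_sym, Finset.sum_apply]
      exact ((P i).tr h hh).choose_spec.1 C hC φ u
    exact h1 u
  · intro h hh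
    show TTr P G h (K1assembly A G y) = 0
    rw [map_add] at h0
    have h1 := congrArg (TTr P G h) h0
    rw [map_add, TTr_SKE P G h z hz, add_zero, map_zero] at h1
    exact h1

end

end Pool.Agent.L7h58.SK
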