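import Pool.Agent.Y69.TP.FinP

/-!
# Statements of the parts of the theorem on `K₁` of group rings over commutative rings

`R` commutative such that `SK₁(R[C])` is torsion for the finite cyclic groups `C`
(for example `R` semilocal): the map `colim K₁(R[H]) → K₁(R[G])` is rationally injective, for every
group `G`.
-/

open Matrix

namespace Pool.Agent.L7h58.SK

open H970SH H842 MonoidAlgebra Pool.Agent.Y69 Pool.Agent.Y69.Main

/-- (A) `K₁` of a commutative semilocal ring is generated by the units. -/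
def S_A : Prop := ∀ (S : Type) [CommRing S] [Finite (MaximalSpectrum S)] (x : K1 S),
  ∃ u : Sˣ, x = cl (unit1 u)

/-- (B) the group ring of a finite abelian group over a commutative semilocal ring is semilocal. -/
def S_B : Prop := ∀ (R : Type) [CommRing R] [Finite (MaximalSpectrum R)] (C : Type) [CommGroup C]
  [Finite C], Finite (MaximalSpectrum (MonoidAlgebra R C))

/-- (C) Artin induction for `K₁(R[G])`, `R` any commutative ring, `G` a finite group. -/
def S_C : Prop := ∀ (R : Type) [CommRing R] (G : Type) [Group G] [Finite G]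
  (x : K1 (MonoidAlgebra R G)), ∃ k : ℕ, 0 < k ∧ k • x ∈ TK.ArtK.cyc R G

/-- A place of the commutative ring `A`: invariants of the units of `A[C]`, `C` a finite abelian
group of order dividing `E`, which come from traces on `K₁(A[G])`. -/
structure Pl (A : Type) [CommRing A] (E : ℕ) where
  /-- the values -/
  Λ : Type
  [rng : CommRing Λ]
  /-- the invariants of the units -/
  b : ∀ {C : Type} [CommGroup C], Additive (MonoidAlgebra A C)ˣ → C → Λ
  b_add : ∀ {C : Type} [CommGroup C] [Finite C], Nat.card C ∣ E →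
    ∀ u v : Additive (MonoidAlgebra A C)ˣ, b (u + v) = b u + b v
  b_map : ∀ {C D : Type} [CommGroup C] [CommGroup D] [Finite C] [Finite D], Nat.card D ∣ E →
    ∀ (f : C →* D), Function.Injective f → ∀ (u : Additive (MonoidAlgebra A C)ˣ) (c : C),
      b (Thy.umap A f u) (f c) = b u c
  b_map_not : ∀ {C D : Type} [CommGroup C] [CommGroup D] [Finite C] [Finite D], Nat.card D ∣ E →
    ∀ (f : C →* D), Function.Injective f → ∀ (u : Additive (MonoidAlgebra A C)ˣ) (d : D),
      d ∉ Set.range f → b (Thy.umap A f u) d = 0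
  b_nrm : ∀ {C : Type} [CommGroup C] [Finite C], Nat.card C ∣ E → ∀ (D : Subgroup C)
    [Fintype (C ⧸ D)] [DecidableEq (C ⧸ D)] (u : Additive (MonoidAlgebra A C)ˣ) (d : D),
      b (Additive.ofMul (Units.map (Tra.nrm A D) u.toMul)) d =
        (Fintype.card (C ⧸ D) : Λ) * b u (d : C)
  tr : ∀ {G : Type} [Group G] (h : G → ℤ), (∀ x y, h (x * y) = h (y * x)) →
    ∃ T : K1 (MonoidAlgebra A G) →+ Λ, (∀ (C : Type) [CommGroup C] [Fintype C]
      (_ : Nat.card C ∣ E) (φ : C →* G) (u : Additive (MonoidAlgebra A C)ˣ),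
        T (cl (mapUnit (mapDomainRingHom A φ) (unit1 u.toMul))) =
          ∑ c, b u c * ((h (φ c) : ℤ) : Λ)) ∧
      ∀ (C : Type) [CommGroup C] [Finite C] (φ : C →* G) (n : ℕ)
        (M : (Matrix (Fin n) (Fin n) (MonoidAlgebra A C))ˣ),
        (M : Matrix (Fin n) (Fin n) (MonoidAlgebra A C)).det = 1 →
          T (cl (mapUnit (mapDomainRingHom A φ) M)) = 0

attribute [instance] Pl.rng

/-- (P1) `p`-adic places -/
def S_P1 : Prop := ∀ (A : Type) [CommRing A] (p : ℕ) [Fact p.Prime] (j : A →+* ℤ_[p]) (E : ℕ),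
  2 < p → E ∣ p - 1 → ∃ P : Pl A E, ∀ (C : Type) [CommGroup C] [Finite C], Nat.card C ∣ E →
    ∀ u : (MonoidAlgebra A C)ˣ, P.b (Additive.ofMul u) = 0 →
      ∃ k : ℕ, 0 < k ∧ mapRingHom C j (u : MonoidAlgebra A C) ^ k = 1

/-- (P2) places with values in a finitely generated field of characteristic `p` -/
def S_P2 : Prop := ∀ (A : Type) [CommRing A] (p : ℕ) [Fact p.Prime] (K : Type) [Field K]
  [CharP K p] (S : Finset K) (_ : Subfield.closure (S : Set K) = ⊤) (j : A →+* K) (E : ℕ),
  0 < E → ∃ P : Pl A E, ∀ (C : Type) [CommGroup C] [Finite C], Nat.card C ∣ E →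
    ∀ u : (MonoidAlgebra A C)ˣ, P.b (Additive.ofMul u) = 0 →
      ∃ k : ℕ, 0 < k ∧ mapRingHom C j (u : MonoidAlgebra A C) ^ k = 1

/-- (P3) nilpotent places: `B` is a commutative `ℚ`-algebra, `π` an idempotent endomorphism of
`B` with nilpotent kernel; the traces come from the logarithm on the relative group of `ker π`. -/
def S_P3 : Prop := ∀ (A B : Type) [CommRing A] [CommRing B] [Algebra ℚ B] (j : A →+* B)
  (π : B →+* B) (N : ℕ), (∀ b, π (π b) = π b) → RingHom.ker π ^ N = ⊥ → ∀ E : ℕ,
  ∃ P : Pl A E, ∀ (C : Type) [CommGroup C] [Finite C], Nat.card C ∣ E →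
    ∀ u : (MonoidAlgebra A C)ˣ, P.b (Additive.ofMul u) = 0 →
      mapRingHom C (π.comp j) (u : MonoidAlgebra A C) = mapRingHom C j (u : MonoidAlgebra A C)

/-- (N) every element of infinite additive order of a finitely generated commutative ring `A` is
nonzero in a finite local `ℚ`-algebra with a lifting of its residue field. -/
def S_N : Prop := ∀ (A : Type) [CommRing A] [Algebra.FiniteType ℤ A] (x : A),
  (∀ n : ℕ, 0 < n → n • x ≠ 0) → ∃ (B : Type) (_ : CommRing B) (_ : Algebra ℚ B) (j : A →+* B)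
    (π : B →+* B) (N : ℕ), j x ≠ 0 ∧ (∀ b, π (π b) = π b) ∧ RingHom.ker π ^ N = ⊥ ∧
      ∀ a : A, IsNilpotent a → π (j a) = 0

/-- the class in the colimit of an element of `K₁(A[C])` and a homomorphism `C → G` -/
noncomputable def symM (A : Type) [CommRing A] {G : Type} [Group G] {C : Type} [CommGroup C]
    [Finite C] (φ : C →* G) (x : K1 (MonoidAlgebra A C)) : K1Colim A G :=
  Colim.ι _ _ (rg φ) (K1map (mapDomainRingHom A (rrg φ)) x)

/-- the subgroup generated by the classes of the matrices of determinant one over the group rings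
of finite abelian groups -/
def SKE (A : Type) [CommRing A] (G : Type) [Group G] : AddSubgroup (K1Colim A G) :=
  AddSubgroup.closure {z | ∃ (C : Type) (_ : CommGroup C) (_ : Finite C) (φ : C →* G) (n : ℕ)
    (M : (Matrix (Fin n) (Fin n) (MonoidAlgebra A C))ˣ),
      (M : Matrix (Fin n) (Fin n) (MonoidAlgebra A C)).det = 1 ∧ z = symM A φ (cl M)}

/-- (T) if there are enough places then the theorem holds for the classes of units -/
def S_T : Prop := ∀ (A : Type) [CommRing A] (E : ℕ) (I : Type) (P : I → Pl A E),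
  (∀ (C : Type) [CommGroup C] [Finite C], Nat.card C ∣ E → ∀ u : (MonoidAlgebra A C)ˣ,
    (∀ i, (P i).b (Additive.ofMul u) = 0) → ∃ k : ℕ, 0 < k ∧ u ^ k = 1) →
  ∀ (G : Type) [Group G], ∀ y ∈ SE A G E, ∀ z ∈ SKE A G, K1assembly A G (y + z) = 0 →
    ∃ k : ℕ, 0 < k ∧ k • y = 0

/-- (F) the theorem for the classes of units over finitely generated rings -/
def S_F : Prop := ∀ (A : Type) [CommRing A] [Algebra.FiniteType ℤ A] (E : ℕ), 0 < E →
  ∀ (G : Type) [Group G], ∀ y ∈ SE A G E, ∀ z ∈ SKE A G, K1assembly A G (y + z) = 0 →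
    ∃ k : ℕ, 0 < k ∧ k • y = 0

end Pool.Agent.L7h58.SK
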