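import Pool.Agent.L7h58.SK.Lg
import Pool.Agent.L7h58.SK.K1a

/-!
# Traces of logarithms on `K₁`
-/

open Matrix

namespace Pool.Agent.L7h58.SK

open H970SH H842 Pool.Agent.Y69

noncomputable section

section K

variable {S : Type} [Ring S] [Algebra ℚ S] {N : ℕ} (Φ : Fil S N) (σ : S →+* S)
  {n κ : Type} [Fintype n] [DecidableEq n] [Fintype κ] [DecidableEq κ]

/-- the quotient by the projection -/
def Vq (M : (Matrix n n S)ˣ) : (Matrix n n S)ˣ := M * (mapUnit σ M)⁻¹

theorem mapUnit_Vq (hσ : ∀ x, σ (σ x) = σ x) (M : (Matrix n n S)ˣ) : mapUnit σ (Vq σ M) = 1 := by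
  have h1 : mapUnit σ (mapUnit σ M) = mapUnit σ M := by
    apply Units.ext
    ext i j
    exact hσ _
  have h2 : mapUnit σ (Vq σ M) = mapUnit σ M * (mapUnit σ (mapUnit σ M))⁻¹ := by
    show Units.map _ (M * (mapUnit σ M)⁻¹) = _
    rw [map_mul, map_inv]
    rfl
  rw [h2, h1, mul_inv_cancel]

theorem Vq_mem (hσ : ∀ x, σ (σ x) = σ x) (hΦ : ∀ x, σ x = 0 → x ∈ Φ.F 1) (M : (Matrix n n S)ˣ) :
    ((Vq σ M : Matrix n n S) - 1) ∈ (Φ.mat n).F 1 := by
  intro i j
  apply hΦ
  have h0 : ((mapUnit σ (Vq σ M) : (Matrix n n S)ˣ) : Matrix n n S) = 1 := by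
    rw [mapUnit_Vq σ hσ M]
    rfl
  have h1 := congrFun (congrFun h0 i) j
  have h2 : σ ((Vq σ M : Matrix n n S) i j) = (1 : Matrix n n S) i j := h1
  rw [Matrix.sub_apply, map_sub, h2]
  by_cases h : i = j
  · subst h; rw [Matrix.one_apply_eq, map_one, sub_self]
  · rw [Matrix.one_apply_ne h, map_zero, sub_self]

variable {Q : Type} [AddCommGroup Q] [Module ℚ Q] (τ : S →+ Q)

/-- the trace of a matrix -/
def trM (n : Type) [Fintype n] : Matrix n n S →+ Q where
  toFun M := ∑ i, τ (M i i)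
  map_zero' := by simp
  map_add' M M' := by simp [Finset.sum_add_distrib]

theorem trM_apply (M : Matrix n n S) : trM τ n M = ∑ i, τ (M i i) := rfl

theorem trM_comm (hτ : ∀ x y, τ (x * y) = τ (y * x)) (M M' : Matrix n n S) :
    trM τ n (M * M') = trM τ n (M' * M) := by
  simp only [trM_apply, Matrix.mul_apply, map_sum]
  rw [Finset.sum_comm]
  exact Finset.sum_congr rfl fun i _ => Finset.sum_congr rfl fun j _ => hτ _ _

/-- the invariant of an invertible matrix -/
def FF (N : ℕ) (M : (Matrix n n S)ˣ) : Q := trM τ n (lg N ((Vq σ M : Matrix n n S) - 1))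

/-- conjugation -/
def cj {R : Type} [Ring R] (a : Rˣ) : R →+* R where
  toFun x := a * x * ((a⁻¹ : Rˣ) : R)
  map_one' := by rw [mul_one, Units.mul_inv]
  map_mul' x y := by
    have : ((a⁻¹ : Rˣ) : R) * (a : R) = 1 := Units.inv_mul a
    calc (a : R) * (x * y) * ((a⁻¹ : Rˣ) : R)
        = a * x * (((a⁻¹ : Rˣ) : R) * (a : R)) * y * ((a⁻¹ : Rˣ) : R) := by
          rw [this]; simp only [mul_assoc, one_mul]
      _ = _ := by simp only [mul_assoc]
  map_zero' := by rw [mul_zero, zero_mul]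
  map_add' x y := by rw [mul_add, add_mul]

theorem cj_apply {R : Type} [Ring R] (a : Rˣ) (x : R) : cj a x = a * x * ((a⁻¹ : Rˣ) : R) := rfl

theorem FF_mul (hσ : ∀ x, σ (σ x) = σ x) (hΦ : ∀ x, σ x = 0 → x ∈ Φ.F 1)
    (hτ : ∀ x y, τ (x * y) = τ (y * x)) (M M' : (Matrix n n S)ˣ) :
    FF σ τ N (M * M') = FF σ τ N M + FF σ τ N M' := by
  let a : (Matrix n n S)ˣ := mapUnit σ M
  have h1 : Vq σ (M * M') = Vq σ M * (a * Vq σ M' * a⁻¹) := by
    have h0 : mapUnit σ (M * M') = mapUnit σ M * mapUnit σ M' := map_mul _ _ _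
    show M * M' * (mapUnit σ (M * M'))⁻¹ =
      M * (mapUnit σ M)⁻¹ * (mapUnit σ M * (M' * (mapUnit σ M')⁻¹) * (mapUnit σ M)⁻¹)
    rw [h0]
    group
  let x : Matrix n n S := (Vq σ M : Matrix n n S) - 1
  let y0 : Matrix n n S := (Vq σ M' : Matrix n n S) - 1
  let y : Matrix n n S := cj a y0
  have hx : x ∈ (Φ.mat n).F 1 := Vq_mem Φ σ hσ hΦ M
  have hy0 : y0 ∈ (Φ.mat n).F 1 := Vq_mem Φ σ hσ hΦ M'
  have hy : y ∈ (Φ.mat n).F 1 := (Φ.mat n).mul_right ((Φ.mat n).mul_left hy0)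
  have h2 : (Vq σ (M * M') : Matrix n n S) - 1 = (1 + x) * (1 + y) - 1 := by
    rw [h1]
    have h3 : 1 + y = ((a * Vq σ M' * a⁻¹ : (Matrix n n S)ˣ) : Matrix n n S) := by
      show 1 + cj a ((Vq σ M' : Matrix n n S) - 1) = _
      rw [map_sub, map_one, add_sub_cancel]
      rfl
    rw [h3, Units.val_mul]
    congr 2
    show _ = 1 + ((Vq σ M : Matrix n n S) - 1)
    rw [add_sub_cancel]
  unfold FF
  rw [h2, (Φ.mat n).tr_lg (trM τ n) (trM_comm τ hτ) hx hy]
  congr 1
  show trM τ n (lg N (cj a y0)) = _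
  rw [← lg_map, cj_apply, trM_comm τ hτ, ← mul_assoc, Units.inv_mul, one_mul]

theorem FF_reindex (e : n ≃ κ) (M : (Matrix n n S)ˣ) :
    FF σ τ N (reindexUnit e M) = FF σ τ N M := by
  have h1 : Vq σ (reindexUnit e M) = reindexUnit e (Vq σ M) := by
    unfold Vq
    rw [mapUnit_reindex]
    show reindexUnit e M * (reindexUnit e (mapUnit σ M))⁻¹ = Units.map _ _
    rw [map_mul, map_inv]
    rfl
  have h2 : ((reindexUnit e (Vq σ M) : (Matrix κ κ S)ˣ) : Matrix κ κ S) - 1 =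
      Matrix.reindexRingEquiv S e ((Vq σ M : Matrix n n S) - 1) := by
    rw [map_sub, map_one]
    rfl
  have h3 : ∀ z : Matrix n n S, trM τ κ (Matrix.reindexRingEquiv S e z) = trM τ n z := by
    intro z
    rw [trM_apply, trM_apply, ← e.sum_comp]
    refine Finset.sum_congr rfl fun i _ => ?_
    show τ (z (e.symm (e i)) (e.symm (e i))) = _
    rw [Equiv.symm_apply_apply]
  unfold FF
  rw [h1, h2]
  have h4 := lg_map (Matrix.reindexRingEquiv S e : Matrix n n S →+* Matrix κ κ S) N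
    ((Vq σ M : Matrix n n S) - 1)
  have h5 : lg N (Matrix.reindexRingEquiv S e ((Vq σ M : Matrix n n S) - 1)) =
    Matrix.reindexRingEquiv S e (lg N ((Vq σ M : Matrix n n S) - 1)) := h4.symm
  rw [h5, h3]

theorem fromBlocks_pow (x : Matrix n n S) (m : ℕ) :
    (fromBlocks x 0 0 (0 : Matrix κ κ S)) ^ (m + 1) = fromBlocks (x ^ (m + 1)) 0 0 0 := by
  induction m with
  | zero => rw [zero_add, pow_one, pow_one]
  | succ m ih =>
    rw [pow_succ, ih, fromBlocks_multiply]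
    simp [pow_succ]

theorem FF_diag (M : (Matrix n n S)ˣ) :
    FF σ τ N (diagU M (1 : (Matrix κ κ S)ˣ)) = FF σ τ N M := by
  have h1 : (Vq σ (diagU M (1 : (Matrix κ κ S)ˣ)) : Matrix (n ⊕ κ) (n ⊕ κ) S) - 1 =
      fromBlocks ((Vq σ M : Matrix n n S) - 1) 0 0 0 := by
    have h2 : mapUnit σ (diagU M (1 : (Matrix κ κ S)ˣ)) = diagU (mapUnit σ M) 1 := by
      apply Units.ext
      rw [mapUnit_val, diagU_val, diagU_val, fromBlocks_map]
      congr 1
      · ext i j; simp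
      · ext i j; simp
      · ext i j
        simp only [Units.val_one, Matrix.map_apply, Matrix.one_apply]
        split_ifs <;> simp
    have h3 : (diagU (mapUnit σ M) (1 : (Matrix κ κ S)ˣ))⁻¹ = diagU (mapUnit σ M)⁻¹ 1 := by
      rw [inv_eq_iff_mul_eq_one]
      apply Units.ext
      rw [Units.val_mul, diagU_val, diagU_val, fromBlocks_multiply, Units.val_one, Units.val_one]
      simp
    unfold Vq
    rw [h2, h3, Units.val_mul, diagU_val, diagU_val, fromBlocks_multiply, ← fromBlocks_one,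
      sub_eq_add_neg, fromBlocks_neg, fromBlocks_add, Units.val_mul]
    simp [sub_eq_add_neg]
  have h4 : lg N (fromBlocks ((Vq σ M : Matrix n n S) - 1) 0 0 (0 : Matrix κ κ S)) =
      fromBlocks (lg N ((Vq σ M : Matrix n n S) - 1)) 0 0 0 := by
    unfold lg
    have h5 : ∀ (s : Finset ℕ), ∑ m ∈ s, ((-1) ^ m / (m + 1) : ℚ) •
        (fromBlocks ((Vq σ M : Matrix n n S) - 1) 0 0 (0 : Matrix κ κ S)) ^ (m + 1) =
        fromBlocks (∑ m ∈ s, ((-1) ^ m / (m + 1) : ℚ) •
          ((Vq σ M : Matrix n n S) - 1) ^ (m + 1)) 0 0 0 := by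
      intro s
      induction s using Finset.cons_induction with
      | empty => simp
      | cons a s ha ih =>
        rw [Finset.sum_cons, Finset.sum_cons, ih, fromBlocks_pow, fromBlocks_smul, fromBlocks_add]
        simp
    exact h5 _
  unfold FF
  rw [h1, h4, trM_apply, trM_apply, Fintype.sum_sum_type]
  simp

/-- the homomorphism on `K₁` -/
theorem exists_TF (hσ : ∀ x, σ (σ x) = σ x) (hΦ : ∀ x, σ x = 0 → x ∈ Φ.F 1)
    (hτ : ∀ x y, τ (x * y) = τ (y * x)) : ∃ T : K1 S →+ Q,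
      ∀ (ι : Type) [Fintype ι] [DecidableEq ι] (M : (Matrix ι ι S)ˣ), T (cl M) = FF σ τ N M := by
  obtain ⟨T, hT⟩ := KTr.K1_lift (R := S) (fun n M => FF σ τ N M)
    (fun n M M' => FF_mul Φ σ τ hσ hΦ hτ M M') (by
      intro n M M' hM'
      have h1 : M' = reindexUnit finSumFinEquiv (diagU M (1 : (Matrix (Fin 1) (Fin 1) S)ˣ)) := by
        apply Units.ext
        rw [hM']
        rfl
      show FF σ τ N M' = FF σ τ N M
      rw [h1, FF_reindex, FF_diag])
  refine ⟨T, ?_⟩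
  intro ι _ _ M
  unfold cl
  rw [hT, FF_reindex]

/-- the quotient of a unit by its projection -/
def vq (w : Sˣ) : Sˣ := w * (Units.map (σ : S →* S) w)⁻¹

/-- the entry of a `1 × 1` matrix -/
def e11 : Matrix Unit Unit S →+* S where
  toFun M := M () ()
  map_one' := rfl
  map_mul' M M' := by
    rw [Matrix.mul_apply]
    simp
  map_zero' := rfl
  map_add' M M' := rfl

theorem FF_unit1 (w : Sˣ) : FF σ τ N (unit1 w) = τ (lg N ((vq σ w : S) - 1)) := by
  have h1 : Vq σ (unit1 w) = unit1 (vq σ w) := by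
    have h2 : ∀ u v : Sˣ, unit1 (u * v) = unit1 u * unit1 v := Main.unit1_mul'
    have h3 : ∀ u : Sˣ, (unit1 u)⁻¹ = unit1 u⁻¹ := by
      intro u
      rw [inv_eq_iff_mul_eq_one, ← h2, mul_inv_cancel]
      apply Units.ext
      ext i k
      simp [unit1]
    unfold Vq vq
    rw [h2, ← h3]
    rfl
  unfold FF
  rw [h1, trM_apply]
  simp only [Finset.univ_unique, PUnit.default_eq_unit, Finset.sum_singleton]
  have h4 := lg_map (e11 (S := S)) N ((unit1 (vq σ w) : Matrix Unit Unit S) - 1)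
  have h5 : e11 ((unit1 (vq σ w) : Matrix Unit Unit S) - 1) = (vq σ w : S) - 1 := by
    rw [map_sub, map_one]
    rfl
  rw [h5] at h4
  rw [← h4]
  rfl

end K

end

end Pool.Agent.L7h58.SK
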